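import Pool.Agent.H940.R.Defs
import Pool.Graph.R_seed8.H628R4.TP.LocDefs

set_option autoImplicit false

/-! # A class of germs over the p-adic numbers -/

namespace Pool.Agent.H940.E

open MvPolynomial

/-- The family `v` is of linear type: the forms `Φ` over the polynomial ring with `Φ(v) = 0` are in the
ideal generated by the linear forms `∑ η_i X_i` with `∑ η_i v_i = 0`. -/
def LinType {K : Type} [Field K] {n : ℕ} (v : Fin n → MvPolynomial (Fin n) K) : Prop :=
  ∀ (m : ℕ) (Φ : MvPolynomial (Fin n) (MvPolynomial (Fin n) K)), Φ.IsHomogeneous m →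
    eval v Φ = 0 → Φ ∈ Ideal.span {L | ∃ η : Fin n → MvPolynomial (Fin n) K,
      ∑ i, η i * v i = 0 ∧ L = ∑ i, C (η i) * X i}

/-- The partial derivatives of `f`, multiplied by a common `g / f` which makes them polynomials, are of
linear type. (Take `g = f` and `v_i = ∂_i f` for the Jacobian ideal of `f` itself; for
`f = ∏ f_j ^ (a_j)` one can take `g = ∏ f_j`.) -/
def LogLin {K : Type} [Field K] {n : ℕ} (f : MvPolynomial (Fin n) K) : Prop :=
  ∃ (g : MvPolynomial (Fin n) K) (v : Fin n → MvPolynomial (Fin n) K),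
    g ≠ 0 ∧ (∀ i, g * pderiv i f = f * v i) ∧ LinType v

/-- the restriction of `f` to the hyperplane `x_i = P_i`, with the origin at `P` -/
noncomputable def slc {K : Type} [Field K] {n : ℕ} (i : Fin (n + 1)) (P : Fin (n + 1) → K)
    (f : MvPolynomial (Fin (n + 1)) K) : MvPolynomial (Fin n) K :=
  aeval (i.insertNth (C (P i)) fun t => X t + C (P (i.succAbove t)) :
    Fin (n + 1) → MvPolynomial (Fin n) K) f

/-- The restrictions of `f` to the hyperplanes `x_i = P_i` are weighted homogeneous isolated singularities: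
at every common zero `P ≠ 0` of the partial derivatives of `f` there is an index `i` with `P_i ≠ 0` such
that the germ at `P` of the restriction of `f` to the hyperplane `x_i = P_i` is weighted homogeneous with an
isolated critical point, up to a unit, in suitable formal coordinates (`WHK`). For a form of degree at
least two this says that the projective hypersurface `f = 0` has only isolated singularities, which are
weighted homogeneous. -/
def SliceWH {K : Type} [Field K] {n : ℕ} (f : MvPolynomial (Fin (n + 1)) K) : Prop :=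
  ∀ P : Fin (n + 1) → K, P ≠ 0 → (∀ j, eval P (pderiv j f) = 0) →
    ∃ i, P i ≠ 0 ∧ ∃ (g : MvPolynomial (Fin n) K) (w : Fin n → ℕ) (N : ℕ)
      (η : Fin n → MvPowerSeries (Fin n) K), Pool.Agent.H940.R.WHK (slc i P f) g w N η

/-- In the formal coordinates `η_1, …, η_n` (formal power series without constant terms and with an
invertible Jacobian matrix at the origin) the hypersurfaces `{h_t = 0}` are given by the polynomials `g_t`,
where `g_t` is weighted homogeneous of degree `N_t` for the positive weights `w_1, …, w_n` (which do not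
depend on `t`), and `∏ g_t` has no critical point outside of the origin. -/
structure WHTup {n T : ℕ} (h g : Fin T → MvPolynomial (Fin n) ℂ) (w : Fin n → ℕ)
    (N : Fin T → ℕ) (η : Fin n → MvPowerSeries (Fin n) ℂ) : Prop where
  wpos : ∀ i, 0 < w i
  hom : ∀ t, (g t).IsWeightedHomogeneous w (N t)
  crit : ∀ v : Fin n → ℂ, (∀ i, eval v (pderiv i (∏ t, g t)) = 0) → v = 0
  cc : ∀ t, MvPowerSeries.constantCoeff (η t) = 0
  det : (Matrix.of fun u t => MvPowerSeries.coeff (Finsupp.single u 1) (η t)).det ≠ 0
  gen : ∀ t, Ideal.span {(h t : MvPowerSeries (Fin n) ℂ)} = Ideal.span {aeval η (g t)}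

/-- The products `f = ∏ F_t ^ (a_t)`, where the `F_t ≠ 0` are weighted homogeneous for the same weights
`w_i > 0`, which are less than the sum of the degrees `D_t`, and at every singular point `P ≠ 0` of the
hypersurface `∏ F_t = 0` there is an index `i` with `P_i ≠ 0` such that the restrictions of the `F_t` to the
hyperplane `x_i = P_i` are weighted homogeneous at `P`, up to units, in common formal coordinates, with
an isolated critical point of the product (`WHTup`). -/
inductive SliceTup : {n : ℕ} → MvPolynomial (Fin n) ℂ → Prop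
  | mk {n T : ℕ} (F : Fin T → MvPolynomial (Fin (n + 1)) ℂ) (a D : Fin T → ℕ)
      (w : Fin (n + 1) → ℕ) (ha : ∀ t, 1 ≤ a t) (hF0 : ∀ t, F t ≠ 0) (hw : ∀ i, 0 < w i)
      (hd : ∀ i, w i < ∑ t, D t) (hF : ∀ t, (F t).IsWeightedHomogeneous w (D t))
      (hS : ∀ P : Fin (n + 1) → ℂ, P ≠ 0 → (∀ j, eval P (pderiv j (∏ t, F t)) = 0) →
        ∃ i, P i ≠ 0 ∧ ∃ (g : Fin T → MvPolynomial (Fin n) ℂ) (w' : Fin n → ℕ) (N : Fin T → ℕ)
          (η : Fin n → MvPowerSeries (Fin n) ℂ), WHTup (fun t => slc i P (F t)) g w' N η) :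
      SliceTup (∏ t, F t ^ a t)

/-- The condition on the vertex of the cone over `f`, where `f` is weighted homogeneous of degree `d` for
the weights `w`:
* `f` is of linear type (`LogLin`), or
* `f = ∏ F_t ^ (a_t)`, where the restrictions of the `F_t` to hyperplanes are weighted homogeneous
  (`SliceTup`), or
* a polynomial vector field kills `f`, and its divergence does not vanish at the origin, or
* `-(∑ w_i)/d` is a root of all `b` with a functional equation `b(s) f ^ s = P(s) f ^ (s + 1)` with formal
  power series coefficients at the origin, so of the Bernstein-Sato polynomial. -/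
def Vertex {n : ℕ} (f : MvPolynomial (Fin n) ℂ) (w : Fin n → ℕ) (d : ℕ) : Prop :=
  LogLin f ∨ SliceTup f ∨
  (∃ η : Fin n → MvPolynomial (Fin n) ℂ, ∑ i, η i * pderiv i f = 0 ∧
    constantCoeff (∑ i, pderiv i (η i)) ≠ 0) ∨
  ∀ b : Polynomial ℂ, Pool.Agent.H628R4.TP.IsLocalBFunction f b →
    b.eval (-((∑ i, w i : ℕ) : ℂ) / d) = 0

/-- the polynomial `f` in the coordinates with the origin at `P` -/
noncomputable def trn {K : Type} [Field K] {n : ℕ} (P : Fin n → K) (f : MvPolynomial (Fin n) K) :
    MvPolynomial (Fin n) K := aeval (fun i => X i + C (P i)) f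

variable {p : ℕ} [Fact p.Prime]

/-- The power series `q` over `ℚ_p` converges in a neighbourhood of the origin. -/
def Cvg {n : ℕ} (q : MvPowerSeries (Fin n) ℚ_[p]) : Prop :=
  ∃ r : ℝ, 0 < r ∧ ∃ M : ℝ, ∀ α : Fin n →₀ ℕ, ‖MvPowerSeries.coeff α q‖ * r ^ α.degree ≤ M

/-- The germ of `h` at the origin is, up to a unit `u`, the polynomial `g` in the `p`-adic analytic
functions `η_1, …, η_c`, which vanish at the origin and are a part of a system of local coordinates
(the linear parts are linearly independent). -/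
def InCoords {n c : ℕ} (h : MvPolynomial (Fin n) ℚ_[p]) (g : MvPolynomial (Fin c) ℚ_[p]) : Prop :=
  ∃ (s : Fin c → Fin n) (η : Fin c → MvPowerSeries (Fin n) ℚ_[p])
    (u : MvPowerSeries (Fin n) ℚ_[p]),
    (∀ t, Cvg (η t)) ∧ Cvg u ∧ (∀ t, MvPowerSeries.constantCoeff (η t) = 0) ∧
    MvPowerSeries.constantCoeff u ≠ 0 ∧
    (Matrix.of fun a t => MvPowerSeries.coeff (Finsupp.single (s a) 1) (η t)).det ≠ 0 ∧
    (h : MvPowerSeries (Fin n) ℚ_[p]) = u * aeval η g

/-- **The class.** Let `φ` be an embedding of `ℚ_p` in `ℂ`. Germs at the origin of polynomials over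
`ℚ_p`: the smallest class which contains
* `unit`: the polynomials which do not vanish at the origin;
* `plane`: the polynomials in two variables;
* `iso`: the polynomials which are weighted homogeneous with an isolated critical point in formal
  coordinates over `ℂ` (also the smooth ones);

and which is closed under
* `cone`: weighted homogeneous polynomials (with positive weights) with `Vertex` over `ℂ`, if the germs at
  all zeros `P ≠ 0` with coordinates in `ℚ_p` are in the class;
* `mul`: products of two polynomials in disjoint variables;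
* `pow`: powers;
* `coords`: analytic coordinates over `ℚ_p`, units, cylinders;
* `pull`: if `h(b_1, …, b_n)` is in the class, where the polynomials `b_i` are local coordinates, then
  `h` is in the class. -/
inductive Grm (p : ℕ) [Fact p.Prime] (φ : ℚ_[p] →+* ℂ) :
    (n : ℕ) → MvPolynomial (Fin n) ℚ_[p] → Prop
  | unit {n : ℕ} (h : MvPolynomial (Fin n) ℚ_[p]) (h0 : constantCoeff h ≠ 0) : Grm p φ n h
  | plane (h : MvPolynomial (Fin 2) ℚ_[p]) (h0 : h ≠ 0) : Grm p φ 2 h
  | iso {n : ℕ} (hn : 0 < n) (h : MvPolynomial (Fin n) ℚ_[p])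
      (g : MvPolynomial (Fin n) ℂ) (w : Fin n → ℕ) (N : ℕ) (η : Fin n → MvPowerSeries (Fin n) ℂ)
      (hW : Pool.Agent.H940.R.WHK (map φ h) g w N η) : Grm p φ n h
  | cone {n : ℕ} (f : MvPolynomial (Fin n) ℚ_[p]) (hf0 : f ≠ 0) (w : Fin n → ℕ)
      (hw : ∀ i, 0 < w i) (d : ℕ) (hd : 0 < d) (hf : f.IsWeightedHomogeneous w d)
      (hL : Vertex (map φ f) w d)
      (hP : ∀ P : Fin n → ℚ_[p], P ≠ 0 → eval P f = 0 → Grm p φ n (trn P f)) : Grm p φ n f
  | mul {n n' : ℕ} (f : MvPolynomial (Fin n) ℚ_[p]) (g : MvPolynomial (Fin n') ℚ_[p])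
      (hf : Grm p φ n f) (hg : Grm p φ n' g) :
      Grm p φ (n + n') (rename (Fin.castAdd n') f * rename (Fin.natAdd n) g)
  | pow {n : ℕ} (h : MvPolynomial (Fin n) ℚ_[p]) (k : ℕ) (hk : k ≠ 0) (hh : Grm p φ n h) :
      Grm p φ n (h ^ k)
  | coords {n c : ℕ} (h : MvPolynomial (Fin n) ℚ_[p]) (g : MvPolynomial (Fin c) ℚ_[p])
      (hc : InCoords h g) (hg : Grm p φ c g) : Grm p φ n h
  | pull {n : ℕ} (h : MvPolynomial (Fin n) ℚ_[p]) (b : Fin n → MvPolynomial (Fin n) ℚ_[p])
      (hb : ∀ t, constantCoeff (b t) = 0)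
      (hdet : (Matrix.of fun t s => constantCoeff (pderiv s (b t))).det ≠ 0)
      (hh : Grm p φ n (aeval b h)) : Grm p φ n h

end Pool.Agent.H940.E
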