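import Mathlib
import Pool.Agent.H940.E.Defs

set_option autoImplicit false
set_option linter.unusedSectionVars false
set_option linter.unusedVariables false

/-! # Convergent power series over the p-adic numbers -/

namespace Pool.Agent.H940.E

open Topology

variable {p : ℕ} [Fact p.Prime] {n : ℕ}

theorem nar : NonarchimedeanRing ℚ_[p] where
  is_nonarchimedean := NonarchimedeanAddGroup.is_nonarchimedean

/-- the terms of the series -/
noncomputable def tm (q : MvPowerSeries (Fin n) ℚ_[p]) (x : Fin n → ℚ_[p]) (α : Fin n →₀ ℕ) :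
    ℚ_[p] := MvPowerSeries.coeff α q * ∏ i, x i ^ α i

/-- the value of the series -/
def HS (q : MvPowerSeries (Fin n) ℚ_[p]) (x : Fin n → ℚ_[p]) (s : ℚ_[p]) : Prop :=
  HasSum (tm q x) s

theorem HS.add {q q' : MvPowerSeries (Fin n) ℚ_[p]} {x : Fin n → ℚ_[p]} {s s' : ℚ_[p]}
    (h : HS q x s) (h' : HS q' x s') : HS (q + q') x (s + s') := by
  have h1 := HasSum.add h h'
  unfold HS
  have h2 : tm (q + q') x = fun α => tm q x α + tm q' x α := by
    funext α
    unfold tm
    rw [map_add, add_mul]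
  rw [h2]
  exact h1

theorem HS.mul {q q' : MvPowerSeries (Fin n) ℚ_[p]} {x : Fin n → ℚ_[p]} {s s' : ℚ_[p]}
    (h : HS q x s) (h' : HS q' x s') : HS (q * q') x (s * s') := by
  classical
  have : NonarchimedeanRing ℚ_[p] := nar
  have h1 := HasSum.mul_of_nonarchimedean h h'
  have h2 := (Finset.HasAntidiagonal.sigmaAntidiagonalEquivProd (A := Fin n →₀ ℕ)).hasSum_iff.2 h1
  refine HasSum.sigma h2 fun γ => ?_
  have h3 := hasSum_fintype (fun c : Finset.HasAntidiagonal.antidiagonal γ =>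
    tm q x c.1.1 * tm q' x c.1.2)
  have h4 : ∑ c : Finset.HasAntidiagonal.antidiagonal γ, tm q x c.1.1 * tm q' x c.1.2 =
      tm (q * q') x γ := by
    rw [Finset.sum_coe_sort (Finset.HasAntidiagonal.antidiagonal γ)
      fun c => tm q x c.1 * tm q' x c.2]
    unfold tm
    rw [MvPowerSeries.coeff_mul, Finset.sum_mul]
    refine Finset.sum_congr rfl fun c hc => ?_
    have h6 : ∀ i, γ i = c.1 i + c.2 i := by
      intro i
      rw [← Finset.HasAntidiagonal.mem_antidiagonal.1 hc]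
      rfl
    have h7 : ∏ i, x i ^ γ i = (∏ i, x i ^ c.1 i) * ∏ i, x i ^ c.2 i := by
      rw [← Finset.prod_mul_distrib]
      exact Finset.prod_congr rfl fun i _ => by rw [h6, pow_add]
    rw [h7]
    ring
  rw [h4] at h3
  exact h3

theorem HS.poly (F : MvPolynomial (Fin n) ℚ_[p]) (x : Fin n → ℚ_[p]) :
    HS (F : MvPowerSeries (Fin n) ℚ_[p]) x (MvPolynomial.eval x F) := by
  classical
  unfold HS
  rw [MvPolynomial.eval_eq']
  have h1 := hasSum_sum_of_ne_finset_zero (L := SummationFilter.unconditional _)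
    (f := tm (F : MvPowerSeries (Fin n) ℚ_[p]) x) (s := F.support) (fun α hα => by
      unfold tm
      rw [MvPolynomial.coeff_coe, MvPolynomial.notMem_support_iff.1 hα, zero_mul])
  have h2 : ∑ α ∈ F.support, tm (F : MvPowerSeries (Fin n) ℚ_[p]) x α =
      ∑ α ∈ F.support, MvPolynomial.coeff α F * ∏ i, x i ^ α i := by
    refine Finset.sum_congr rfl fun α _ => ?_
    unfold tm
    rw [MvPolynomial.coeff_coe]
  rwa [h2] at h1

theorem HS.aeval {c : ℕ} {η : Fin c → MvPowerSeries (Fin n) ℚ_[p]} {x : Fin n → ℚ_[p]}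
    {e : Fin c → ℚ_[p]} (h : ∀ t, HS (η t) x (e t)) (G : MvPolynomial (Fin c) ℚ_[p]) :
    HS (MvPolynomial.aeval η G) x (MvPolynomial.eval e G) := by
  induction G using MvPolynomial.induction_on with
  | C a =>
    rw [MvPolynomial.eval_C, MvPolynomial.algHom_C]
    have h1 := HS.poly (MvPolynomial.C a : MvPolynomial (Fin n) ℚ_[p]) x
    rw [MvPolynomial.eval_C, MvPolynomial.coe_C] at h1
    exact h1
  | add p q hp hq => rw [map_add, map_add]; exact hp.add hq
  | mul_X p i hp =>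
    rw [map_mul, map_mul, MvPolynomial.aeval_X, MvPolynomial.eval_X]
    exact hp.mul (h i)

theorem norm_mono (x : Fin n → ℚ_[p]) {R : ℝ} (hx : ‖x‖ ≤ R) (α : Fin n →₀ ℕ) :
    ‖∏ i, x i ^ α i‖ ≤ R ^ α.degree := by
  rw [norm_prod, Finsupp.degree_eq_sum, ← Finset.prod_pow_eq_pow_sum]
  refine Finset.prod_le_prod (fun i _ => norm_nonneg _) fun i _ => ?_
  rw [norm_pow]
  exact pow_le_pow_left₀ (norm_nonneg _) ((norm_le_pi_norm x i).trans hx) _

/-- differences of monomials -/
theorem norm_sub_mono (x y : Fin n → ℚ_[p]) {R : ℝ} (hR : 0 ≤ R) (hx : ‖x‖ ≤ R) (hy : ‖y‖ ≤ R)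
    (α : Fin n →₀ ℕ) :
    ‖∏ i, x i ^ α i - ∏ i, y i ^ α i‖ * R ≤ ‖x - y‖ * R ^ α.degree := by
  classical
  induction α using Finsupp.induction_linear with
  | zero =>
    simp only [Finsupp.coe_zero, Pi.zero_apply, pow_zero, Finset.prod_const_one, sub_self,
      norm_zero, zero_mul]
    positivity
  | add α β hα hβ =>
    have h1 : ∀ z : Fin n → ℚ_[p], ∏ i, z i ^ (α + β) i =
        (∏ i, z i ^ α i) * ∏ i, z i ^ β i := by
      intro z
      rw [← Finset.prod_mul_distrib]
      exact Finset.prod_congr rfl fun i _ => by rw [Finsupp.add_apply, pow_add]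
    rw [h1, h1, map_add, pow_add]
    set a := ∏ i, x i ^ α i
    set b := ∏ i, y i ^ α i
    set u := ∏ i, x i ^ β i
    set v := ∏ i, y i ^ β i
    have e : a * u - b * v = a * (u - v) + (a - b) * v := by ring
    have ha : ‖a‖ ≤ R ^ α.degree := norm_mono x hx α
    have hv : ‖v‖ ≤ R ^ β.degree := norm_mono y hy β
    have hRa : 0 ≤ R ^ α.degree := pow_nonneg hR _
    have hRb : 0 ≤ R ^ β.degree := pow_nonneg hR _
    have h2 : ‖a * (u - v)‖ * R ≤ ‖x - y‖ * (R ^ α.degree * R ^ β.degree) := by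
      rw [norm_mul, mul_assoc]
      calc ‖a‖ * (‖u - v‖ * R) ≤ R ^ α.degree * (‖x - y‖ * R ^ β.degree) :=
            mul_le_mul ha hβ (by positivity) hRa
        _ = _ := by ring
    have h3 : ‖(a - b) * v‖ * R ≤ ‖x - y‖ * (R ^ α.degree * R ^ β.degree) := by
      rw [norm_mul]
      calc ‖a - b‖ * ‖v‖ * R = (‖a - b‖ * R) * ‖v‖ := by ring
        _ ≤ (‖x - y‖ * R ^ α.degree) * R ^ β.degree :=
            mul_le_mul hα hv (norm_nonneg _) (by positivity)
        _ = _ := by ring
    rw [e]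
    rcases le_total ‖a * (u - v)‖ ‖(a - b) * v‖ with h | h
    · have h4 : ‖a * (u - v) + (a - b) * v‖ ≤ ‖(a - b) * v‖ :=
        (IsUltrametricDist.norm_add_le_max _ _).trans (max_le h le_rfl)
      exact (mul_le_mul_of_nonneg_right h4 hR).trans h3
    · have h4 : ‖a * (u - v) + (a - b) * v‖ ≤ ‖a * (u - v)‖ :=
        (IsUltrametricDist.norm_add_le_max _ _).trans (max_le le_rfl h)
      exact (mul_le_mul_of_nonneg_right h4 hR).trans h2
  | single i k =>
    have h1 : ∀ z : Fin n → ℚ_[p], ∏ j, z j ^ (Finsupp.single i k) j = z i ^ k := by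
      intro z
      rw [Finset.prod_eq_single i]
      · rw [Finsupp.single_eq_same]
      · intro j _ hj
        rw [Finsupp.single_eq_of_ne hj, pow_zero]
      · intro h
        exact absurd (Finset.mem_univ i) h
    rw [h1, h1, Finsupp.degree_single]
    clear h1
    have hxi : ‖x i‖ ≤ R := (norm_le_pi_norm x i).trans hx
    have hyi : ‖y i‖ ≤ R := (norm_le_pi_norm y i).trans hy
    have hd : ‖x i - y i‖ ≤ ‖x - y‖ := norm_le_pi_norm (x - y) i
    induction k with
    | zero =>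
      simp only [pow_zero, sub_self, norm_zero, zero_mul]
      positivity
    | succ k ih =>
      have ih' := ih
      have e : x i ^ (k + 1) - y i ^ (k + 1) =
          x i * (x i ^ k - y i ^ k) + (x i - y i) * y i ^ k := by ring
      have h2 : ‖x i * (x i ^ k - y i ^ k)‖ * R ≤ ‖x - y‖ * R ^ (k + 1) := by
        rw [norm_mul, mul_assoc]
        calc ‖x i‖ * (‖x i ^ k - y i ^ k‖ * R) ≤ R * (‖x - y‖ * R ^ k) :=
              mul_le_mul hxi ih (by positivity) hR
          _ = _ := by ring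
      have h3 : ‖(x i - y i) * y i ^ k‖ * R ≤ ‖x - y‖ * R ^ (k + 1) := by
        rw [norm_mul, norm_pow]
        calc ‖x i - y i‖ * ‖y i‖ ^ k * R ≤ ‖x - y‖ * R ^ k * R := by
              refine mul_le_mul_of_nonneg_right ?_ hR
              exact mul_le_mul hd (pow_le_pow_left₀ (norm_nonneg _) hyi _) (by positivity)
                (norm_nonneg _)
          _ = _ := by ring
      rw [e]
      rcases le_total ‖x i * (x i ^ k - y i ^ k)‖ ‖(x i - y i) * y i ^ k‖ with h | h
      · have h4 : ‖x i * (x i ^ k - y i ^ k) + (x i - y i) * y i ^ k‖ ≤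
            ‖(x i - y i) * y i ^ k‖ :=
          (IsUltrametricDist.norm_add_le_max _ _).trans (max_le h le_rfl)
        exact (mul_le_mul_of_nonneg_right h4 hR).trans h3
      · have h4 : ‖x i * (x i ^ k - y i ^ k) + (x i - y i) * y i ^ k‖ ≤
            ‖x i * (x i ^ k - y i ^ k)‖ :=
          (IsUltrametricDist.norm_add_le_max _ _).trans (max_le le_rfl h)
        exact (mul_le_mul_of_nonneg_right h4 hR).trans h2

section

variable {q : MvPowerSeries (Fin n) ℚ_[p]} {r M : ℝ} (hr : 0 < r)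
  (hM : ∀ α : Fin n →₀ ℕ, ‖MvPowerSeries.coeff α q‖ * r ^ α.degree ≤ M)
include hr hM

theorem M_nonneg : 0 ≤ M := (by positivity : (0 : ℝ) ≤ ‖MvPowerSeries.coeff 0 q‖ *
  r ^ (0 : Fin n →₀ ℕ).degree).trans (hM 0)

/-- the series converges -/
theorem summ {x : Fin n → ℚ_[p]} (hx : ‖x‖ < r) : Summable (tm q x) := by
  have : NonarchimedeanRing ℚ_[p] := nar
  refine NonarchimedeanAddGroup.summable_of_tendsto_cofinite_zero ?_
  have hM0 := M_nonneg hr hM
  rw [Metric.tendsto_nhds]
  intro ε hε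
  set ρ := ‖x‖ / r with hρ
  have hρ0 : 0 ≤ ρ := by positivity
  have hρ1 : ρ < 1 := (div_lt_one hr).2 hx
  obtain ⟨N, hN⟩ := exists_pow_lt_of_lt_one (show 0 < ε / (M + 1) by positivity) hρ1
  have hfin : {α : Fin n →₀ ℕ | α.degree ≤ N}.Finite := Finsupp.finite_of_degree_le N
  refine hfin.subset fun α hα => ?_
  by_contra hc
  apply hα
  rw [Set.mem_ofPred_eq, not_le] at hc
  rw [Set.mem_ofPred_eq, dist_zero_right]
  unfold tm
  rw [norm_mul]
  have h1 := norm_mono x le_rfl α
  have h2 : ‖MvPowerSeries.coeff α q‖ ≤ M / r ^ α.degree :=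
    (le_div_iff₀ (pow_pos hr _)).2 (hM α)
  calc ‖MvPowerSeries.coeff α q‖ * ‖∏ i, x i ^ α i‖ ≤ M / r ^ α.degree * ‖x‖ ^ α.degree :=
        mul_le_mul h2 h1 (norm_nonneg _) (by positivity)
    _ = M * ρ ^ α.degree := by rw [hρ, div_pow]; ring
    _ ≤ M * ρ ^ N := mul_le_mul_of_nonneg_left
        (pow_le_pow_of_le_one hρ0 hρ1.le hc.le) hM0
    _ ≤ (M + 1) * ρ ^ N := mul_le_mul_of_nonneg_right (by linarith) (by positivity)
    _ < (M + 1) * (ε / (M + 1)) := mul_lt_mul_of_pos_left hN (by positivity)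
    _ = ε := by field_simp

/-- the Lipschitz estimate for series which start with quadratic terms -/
theorem lip (h0 : ∀ α : Fin n →₀ ℕ, α.degree < 2 → MvPowerSeries.coeff α q = 0)
    {x y : Fin n → ℚ_[p]} {R : ℝ} (hR : 0 < R) (hRr : R < r) (hx : ‖x‖ ≤ R) (hy : ‖y‖ ≤ R) :
    ‖(∑' α, tm q x α) - ∑' α, tm q y α‖ ≤ M / r ^ 2 * R * ‖x - y‖ := by
  have hM0 := M_nonneg hr hM
  have h1 := (summ hr hM (lt_of_le_of_lt hx hRr)).hasSum.sub
    (summ hr hM (lt_of_le_of_lt hy hRr)).hasSum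
  have hb : ∀ α, ‖tm q x α - tm q y α‖ ≤ M / r ^ 2 * R * ‖x - y‖ := by
    intro α
    by_cases hα : α.degree < 2
    · unfold tm
      rw [h0 α hα, zero_mul, zero_mul, sub_self, norm_zero]
      positivity
    · rw [not_lt] at hα
      unfold tm
      rw [← mul_sub, norm_mul]
      have h2 := norm_sub_mono x y hR.le hx hy α
      have h3 : ‖MvPowerSeries.coeff α q‖ ≤ M / r ^ α.degree :=
        (le_div_iff₀ (pow_pos hr _)).2 (hM α)
      have h4 : ‖∏ i, x i ^ α i - ∏ i, y i ^ α i‖ ≤ ‖x - y‖ * R ^ α.degree / R :=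
        (le_div_iff₀ hR).2 h2
      obtain ⟨k, hk⟩ : ∃ k, α.degree = k + 2 := ⟨α.degree - 2, by omega⟩
      calc ‖MvPowerSeries.coeff α q‖ * ‖∏ i, x i ^ α i - ∏ i, y i ^ α i‖
          ≤ M / r ^ α.degree * (‖x - y‖ * R ^ α.degree / R) :=
            mul_le_mul h3 h4 (norm_nonneg _) (by positivity)
        _ = M / r ^ 2 * R * ‖x - y‖ * (R / r) ^ k := by
            rw [hk, div_pow]
            field_simp
            ring
        _ ≤ M / r ^ 2 * R * ‖x - y‖ * 1 := by
            refine mul_le_mul_of_nonneg_left ?_ (by positivity)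
            exact pow_le_one₀ (by positivity) ((div_le_one hr).2 hRr.le)
        _ = _ := mul_one _
  refine le_of_tendsto h1.norm (Filter.Eventually.of_forall fun s => ?_)
  exact IsUltrametricDist.norm_sum_le_of_forall_le_of_nonneg (by positivity) fun α _ => hb α

/-- **The derivative at the origin.** -/
theorem strict0 (h0 : ∀ α : Fin n →₀ ℕ, α.degree < 2 → MvPowerSeries.coeff α q = 0) :
    HasStrictFDerivAt (fun x : Fin n → ℚ_[p] => ∑' α, tm q x α)
      (0 : (Fin n → ℚ_[p]) →L[ℚ_[p]] ℚ_[p]) 0 := by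
  have hM0 := M_nonneg hr hM
  rw [hasStrictFDerivAt_iff_isLittleO, Asymptotics.isLittleO_iff]
  intro ε hε
  set R := min (r / 2) (ε * r ^ 2 / (M + 1)) with hRdef
  have hR : 0 < R := lt_min (by positivity) (by positivity)
  have hRr : R < r := lt_of_le_of_lt (min_le_left _ _) (by linarith)
  have hb : M / r ^ 2 * R ≤ ε := by
    have h1 : R ≤ ε * r ^ 2 / (M + 1) := min_le_right _ _
    calc M / r ^ 2 * R ≤ M / r ^ 2 * (ε * r ^ 2 / (M + 1)) :=
          mul_le_mul_of_nonneg_left h1 (by positivity)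
      _ = ε * (M / (M + 1)) := by field_simp
      _ ≤ ε * 1 := mul_le_mul_of_nonneg_left
          ((div_le_one (by positivity)).2 (by linarith)) hε.le
      _ = ε := mul_one _
  have hnb : Metric.ball (0 : (Fin n → ℚ_[p]) × (Fin n → ℚ_[p])) R ∈ 𝓝 ((0, 0) :
      (Fin n → ℚ_[p]) × (Fin n → ℚ_[p])) := Metric.ball_mem_nhds _ hR
  filter_upwards [hnb] with z hz
  rw [Metric.mem_ball, dist_zero_right, Prod.norm_def, max_lt_iff] at hz
  rw [_root_.zero_apply, sub_zero]
  exact (lip hr hM h0 hR hRr hz.1.le hz.2.le).trans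
    (mul_le_mul_of_nonneg_right hb (norm_nonneg _))

end

end Pool.Agent.H940.E
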