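import Pool.Agent.H940.LT.RootV

set_option autoImplicit false
set_option linter.unusedSectionVars false
set_option linter.unusedVariables false

/-! # Families of linear type and extensions of the base field -/

namespace Pool.Agent.H940.E

open MvPolynomial
open Pool.Agent.H940.LT (LTy LinI linF)

section mc

variable {σ A B : Type} [CommRing A] [CommRing B]

/-- a map of the coefficients -/
noncomputable def mc (ψ : A → B) (P : MvPolynomial σ A) : MvPolynomial σ B :=
  ∑ α ∈ P.support, monomial α (ψ (coeff α P))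

theorem coeff_mc (ψ : A → B) (hψ : ψ 0 = 0) (P : MvPolynomial σ A) (β : σ →₀ ℕ) :
    coeff β (mc ψ P) = ψ (coeff β P) := by
  classical
  unfold mc
  rw [coeff_sum]
  simp only [coeff_monomial]
  rw [Finset.sum_ite_eq']
  split_ifs with h
  · rfl
  · rw [notMem_support_iff.1 h, hψ]

theorem mc_zero (ψ : A → B) : mc ψ (0 : MvPolynomial σ A) = 0 := by
  unfold mc
  rw [support_zero, Finset.sum_empty]

theorem mc_add (ψ : A → B) (hψ : ψ 0 = 0) (ha : ∀ a b, ψ (a + b) = ψ a + ψ b)
    (P Q : MvPolynomial σ A) : mc ψ (P + Q) = mc ψ P + mc ψ Q := by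
  ext β
  rw [coeff_add, coeff_mc _ hψ, coeff_mc _ hψ, coeff_mc _ hψ, coeff_add, ha]

end mc

variable {σ : Type} [Fintype σ] {K : Type} [Field K] (φ : K →+* ℂ)

/-- semilinearity of the maps of the coefficients -/
theorem mc_mul_map (ψ : ℂ → K) (hψ : ψ 0 = 0) (ha : ∀ a b, ψ (a + b) = ψ a + ψ b)
    (hs : ∀ a c, ψ (a * φ c) = ψ a * c) (u : MvPolynomial σ ℂ) (q : MvPolynomial σ K) :
    mc ψ (u * map φ q) = mc ψ u * q := by
  classical
  ext β
  rw [coeff_mc _ hψ, coeff_mul, coeff_mul]
  have h1 : ∀ s : Finset ((σ →₀ ℕ) × (σ →₀ ℕ)), ψ (∑ x ∈ s, coeff x.1 u * coeff x.2 (map φ q)) =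
      ∑ x ∈ s, coeff x.1 (mc ψ u) * coeff x.2 q := by
    intro s
    induction s using Finset.induction_on with
    | empty => rw [Finset.sum_empty, Finset.sum_empty, hψ]
    | insert a s h ih =>
      rw [Finset.sum_insert h, Finset.sum_insert h, ha, ih, coeff_map, hs, coeff_mc _ hψ]
  exact h1 _

/-- **Families of linear type stay of linear type over `ℂ`.** -/
theorem lty_map (v : σ → MvPolynomial σ K) (hv : LTy v) : LTy fun i => map φ (v i) := by
  classical
  let _ : Algebra K ℂ := φ.toAlgebra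
  intro m Φ hΦ h0
  -- the coefficients
  set S : Finset ℂ := Φ.support.biUnion fun γ => (coeff γ Φ).support.image fun α =>
    coeff α (coeff γ Φ) with hS
  set W : Submodule K ℂ := Submodule.span K (S : Set ℂ) with hW
  have hfin : FiniteDimensional K W := FiniteDimensional.span_of_finite K S.finite_toSet
  set b := Module.finBasis K W with hb
  have hmem : ∀ γ α, coeff α (coeff γ Φ) ∈ W := by
    intro γ α
    by_cases h1 : coeff α (coeff γ Φ) = 0
    · rw [h1]
      exact W.zero_mem
    · refine Submodule.subset_span (Finset.mem_coe.2 (Finset.mem_biUnion.2 ⟨γ, ?_, ?_⟩))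
      · rw [mem_support_iff]
        intro h2
        rw [h2, coeff_zero] at h1
        exact h1 rfl
      · exact Finset.mem_image.2 ⟨α, mem_support_iff.2 h1, rfl⟩
  have hex : ∀ j, ∃ ψ : ℂ →ₗ[K] K, ψ.comp W.subtype = b.coord j := fun j =>
    LinearMap.exists_extend (b.coord j)
  choose ψ hψ using hex
  have hdec : ∀ c ∈ W, ∑ j, (b j : ℂ) * φ (ψ j c) = c := by
    intro c hc
    have h1 := congrArg (W.subtype) (b.sum_repr ⟨c, hc⟩)
    rw [map_sum] at h1
    change _ = c at h1
    refine (Finset.sum_congr rfl fun j _ => ?_).trans h1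
    rw [map_smul, Algebra.smul_def, mul_comm]
    congr 1
    have h2 := LinearMap.congr_fun (hψ j) ⟨c, hc⟩
    change φ (ψ j c) = φ ((b.repr ⟨c, hc⟩) j)
    congr 1
  have hz : ∀ j, ψ j 0 = 0 := fun j => map_zero _
  have ha : ∀ j, ∀ a c, ψ j (a + c) = ψ j a + ψ j c := fun j => map_add _
  have hs : ∀ j, ∀ a c, ψ j (a * φ c) = ψ j a * c := by
    intro j a c
    have h1 : a * φ c = c • a := by
      rw [Algebra.smul_def, mul_comm]
      rfl
    rw [h1, map_smul, smul_eq_mul, mul_comm]
  -- evaluation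
  have hev : ∀ j, ∀ Ψ : MvPolynomial σ (MvPolynomial σ ℂ),
      eval v (mc (mc (ψ j)) Ψ) = mc (ψ j) (eval (fun i => map φ (v i)) Ψ) := by
    intro j Ψ
    have hz' : mc (ψ j) (0 : MvPolynomial σ ℂ) = 0 := mc_zero _
    have ha' : ∀ P Q : MvPolynomial σ ℂ, mc (ψ j) (P + Q) = mc (ψ j) P + mc (ψ j) Q :=
      mc_add _ (hz j) (ha j)
    induction Ψ using MvPolynomial.induction_on' with
    | monomial γ u =>
      have h1 : mc (mc (ψ j)) (monomial γ u) = monomial γ (mc (ψ j) u) := by
        ext1 δ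
        rw [coeff_mc _ hz', coeff_monomial, coeff_monomial]
        split_ifs
        · rfl
        · exact hz'
      rw [h1, eval_monomial, eval_monomial]
      have h2 : (γ.prod fun i e => (map φ (v i)) ^ e) = map φ (γ.prod fun i e => v i ^ e) := by
        rw [Finsupp.prod, Finsupp.prod, map_prod]
        exact Finset.prod_congr rfl fun i _ => by rw [map_pow]
      rw [h2, mc_mul_map φ (ψ j) (hz j) (ha j) (hs j)]
    | add P Q hP hQ =>
      rw [mc_add _ hz' ha', map_add, hP, hQ, map_add, ha']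
  have hlin : ∀ j, mc (mc (ψ j)) Φ ∈ LinI v := by
    intro j
    refine hv m _ ?_ ?_
    · intro γ hγ
      refine hΦ fun h1 => hγ ?_
      rw [coeff_mc _ (mc_zero _), h1, mc_zero]
    · rw [hev, h0, mc_zero]
  have hmap : ∀ Ψ ∈ LinI v, map (map φ) Ψ ∈ LinI (fun i => map φ (v i)) := by
    intro Ψ hΨ
    have h1 : LinI v ≤ (LinI (fun i => map φ (v i))).comap
        (map (map φ) : MvPolynomial σ (MvPolynomial σ K) →+* MvPolynomial σ (MvPolynomial σ ℂ)) := by
      unfold LinI
      rw [Ideal.span_le]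
      rintro L ⟨η, hη, rfl⟩
      rw [SetLike.mem_coe, Ideal.mem_comap]
      refine Ideal.subset_span ⟨fun i => map φ (η i), ?_, ?_⟩
      · have h2 := congrArg (map φ) hη
        rw [map_sum, map_zero] at h2
        rw [← h2]
        exact Finset.sum_congr rfl fun i _ => by rw [map_mul]
      · unfold linF
        rw [map_sum]
        exact Finset.sum_congr rfl fun i _ => by rw [map_mul, map_C, map_X]
    exact h1 hΨ
  have hsum : Φ = ∑ j, C (C (b j : ℂ)) * map (map φ) (mc (mc (ψ j)) Φ) := by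
    ext γ α
    rw [coeff_sum, coeff_sum, ← hdec _ (hmem γ α)]
    refine Finset.sum_congr rfl fun j _ => ?_
    rw [coeff_C_mul, coeff_C_mul, coeff_map, coeff_map, coeff_mc _ (mc_zero _),
      coeff_mc _ (hz j)]
  rw [hsum]
  exact Ideal.sum_mem _ fun j _ => Ideal.mul_mem_left _ _ (hmap _ (hlin j))

end Pool.Agent.H940.E
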