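import Pool.Agent.H940.E.Defs

set_option autoImplicit false

/-! # The class of germs over the p-adic numbers -/

namespace Pool.Agent.H940.E

open MvPolynomial

variable {p : ℕ} [Fact p.Prime]

/-- **The class.** Let `φ` be an embedding of `ℚ_p` in `ℂ`. Germs at the origin of polynomials over
`ℚ_p`: the smallest class which contains
* `unit`: the polynomials which do not vanish at the origin;
* `plane`: the polynomials in two variables;
* `iso`: the polynomials which are weighted homogeneous with an isolated critical point in formal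
  coordinates over `ℂ` (also the smooth ones);
* `qhom`: the germs at all points of the weighted homogeneous polynomials of degree `d` for weights
  `0 < w_i < d` whose singular locus outside of the origin consists over `ℂ` of curves with transversal
  weighted homogeneous isolated singularities (`SliceWH`), in any number of variables; for example the
  forms of degree at least two whose complex projective hypersurface has only isolated singularities,
  each of them weighted homogeneous;

and which is closed under
* `cone`: weighted homogeneous polynomials (with positive weights) with `Vertex` over `ℂ`, for example of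
  linear type, if the germs at all zeros `P ≠ 0` with coordinates in `ℚ_p` are in the class;
* `slice`: the germ of a weighted homogeneous polynomial at a point `P` with `P_i ≠ 0`, if its restriction
  to the hyperplane `x_i = P_i` is in the class at `P`;
* `mul`: products of two polynomials in disjoint variables;
* `pow`: powers;
* `coords`: analytic coordinates over `ℚ_p`, units, cylinders;
* `pull`: if `h(b_1, …, b_n)` is in the class, where the polynomials `b_i` are local coordinates, then
  `h` is in the class. -/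
inductive Germ (p : ℕ) [Fact p.Prime] (φ : ℚ_[p] →+* ℂ) :
    (n : ℕ) → MvPolynomial (Fin n) ℚ_[p] → Prop
  | unit {n : ℕ} (h : MvPolynomial (Fin n) ℚ_[p]) (h0 : constantCoeff h ≠ 0) : Germ p φ n h
  | plane (h : MvPolynomial (Fin 2) ℚ_[p]) (h0 : h ≠ 0) : Germ p φ 2 h
  | iso {n : ℕ} (hn : 0 < n) (h : MvPolynomial (Fin n) ℚ_[p])
      (g : MvPolynomial (Fin n) ℂ) (w : Fin n → ℕ) (N : ℕ) (η : Fin n → MvPowerSeries (Fin n) ℂ)
      (hW : Pool.Agent.H940.R.WHK (map φ h) g w N η) : Germ p φ n h
  | qhom {n : ℕ} (f : MvPolynomial (Fin (n + 1)) ℚ_[p]) (hf0 : f ≠ 0) (w : Fin (n + 1) → ℕ)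
      (hw : ∀ i, 0 < w i) (d : ℕ) (hd : ∀ i, w i < d) (hf : f.IsWeightedHomogeneous w d)
      (hS : SliceWH (map φ f)) (P : Fin (n + 1) → ℚ_[p]) : Germ p φ (n + 1) (trn P f)
  | cone {n : ℕ} (f : MvPolynomial (Fin n) ℚ_[p]) (hf0 : f ≠ 0) (w : Fin n → ℕ)
      (hw : ∀ i, 0 < w i) (d : ℕ) (hd : 0 < d) (hf : f.IsWeightedHomogeneous w d)
      (hL : Vertex (map φ f) w d)
      (hP : ∀ P : Fin n → ℚ_[p], P ≠ 0 → eval P f = 0 → Germ p φ n (trn P f)) : Germ p φ n f
  | slice {n : ℕ} (f : MvPolynomial (Fin (n + 1)) ℚ_[p]) (w : Fin (n + 1) → ℕ)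
      (hw : ∀ i, 0 < w i) (d : ℕ) (hf : f.IsWeightedHomogeneous w d) (i : Fin (n + 1))
      (P : Fin (n + 1) → ℚ_[p]) (hP : P i ≠ 0) (h : Germ p φ n (slc i P f)) :
      Germ p φ (n + 1) (trn P f)
  | mul {n n' : ℕ} (f : MvPolynomial (Fin n) ℚ_[p]) (g : MvPolynomial (Fin n') ℚ_[p])
      (hf : Germ p φ n f) (hg : Germ p φ n' g) :
      Germ p φ (n + n') (rename (Fin.castAdd n') f * rename (Fin.natAdd n) g)
  | pow {n : ℕ} (h : MvPolynomial (Fin n) ℚ_[p]) (k : ℕ) (hk : k ≠ 0) (hh : Germ p φ n h) :
      Germ p φ n (h ^ k)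
  | coords {n c : ℕ} (h : MvPolynomial (Fin n) ℚ_[p]) (g : MvPolynomial (Fin c) ℚ_[p])
      (hc : InCoords h g) (hg : Germ p φ c g) : Germ p φ n h
  | pull {n : ℕ} (h : MvPolynomial (Fin n) ℚ_[p]) (b : Fin n → MvPolynomial (Fin n) ℚ_[p])
      (hb : ∀ t, constantCoeff (b t) = 0)
      (hdet : (Matrix.of fun t s => constantCoeff (pderiv s (b t))).det ≠ 0)
      (hh : Germ p φ n (aeval b h)) : Germ p φ n h

end Pool.Agent.H940.E
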