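import Pool.Agent.H940.E.Pow
import Pool.Agent.H940.W.Tuple
import Pool.Graph.R_pool_sql_team_seeded_3997aac3.Q149.QT.Tr1

set_option autoImplicit false
set_option linter.unusedSectionVars false
set_option linter.unusedVariables false

/-! # Weighted cones of linear type -/

namespace Pool.Agent.H940.E

open MeasureTheory MvPolynomial Topology
open Pool.Agent.H940.R Pool.Agent.H940.S
open Pool.Agent.W427.SMC Pool.Agent.Y230.PS Pool.Agent.Q57.QP
open Pool.Agent.Y230.PT hiding CO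
open Pool.Agent.Q66.QP
open Pool.Agent.Y229 (SF exists_fe sf_of_local)
open Pool.Agent.Q57.MC (sf_iff eq_of_locEq1 sf_forced)
open Pool.Agent.W574.LM (IsLocEq)
open Pool.Agent.H940.Z (sf_neg_one euler_w)
open Pool.Agent.H940.LT (LTy LinI linF root_or_field' kill_of dv)
open scoped ENNReal

attribute [local instance] msK bsK msZ bsZ

variable {p : ℕ} [Fact p.Prime] {n : ℕ} (φ : ℚ_[p] →+* ℂ)

theorem eval_trn {K : Type} [Field K] (P x : Fin n → K) (f : MvPolynomial (Fin n) K) :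
    eval x (trn P f) = eval (fun i => x i + P i) f := by
  unfold trn
  rw [eval_aeval']
  congr 1
  congr 1
  funext i
  rw [map_add, eval_X, eval_C]

theorem map_trn {K L : Type} [Field K] [Field L] (ψ : K →+* L) (P : Fin n → K)
    (f : MvPolynomial (Fin n) K) : map ψ (trn P f) = trn (fun i => ψ (P i)) (map ψ f) := by
  unfold trn
  rw [aeval_def, aeval_def, algebraMap_eq, algebraMap_eq, map_eval₂]
  congr 1
  funext i
  rw [Function.comp_apply, map_add, map_X, map_C]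

/-- translations -/
theorem lp_trn (f : MvPolynomial (Fin n) ℚ_[p]) (P : Fin n → ℚ_[p]) (m : ℂ → ℕ∞)
    (H : LP m (fun x => ‖eval x (trn P f)‖) 0) : LP m (fun x => ‖eval x f‖) P := by
  have h1 : HasStrictFDerivAt (fun x : Fin n → ℚ_[p] => x - P)
      ((ContinuousLinearEquiv.refl ℚ_[p] (Fin n → ℚ_[p])) :
        (Fin n → ℚ_[p]) →L[ℚ_[p]] (Fin n → ℚ_[p])) P :=
    (hasStrictFDerivAt_id P).sub_const P
  refine (Pool.Agent.Q57.QP.qp_diffn Pool.Agent.Q210.QP.qp_iso Pool.Agent.Q210.QP.qp_lin) p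
    (fun x => x - P) (ContinuousLinearEquiv.refl ℚ_[p] (Fin n → ℚ_[p])) P _
    (fun x => ‖eval x (trn P f)‖) m (siz_ev _) h1 ?_ ?_
  · refine Filter.Eventually.of_forall fun x => ?_
    rw [eval_trn]
    congr 2
    congr 1
    funext i
    rw [Pi.sub_apply, sub_add_cancel]
  · rw [sub_self]
    exact H

/-- products with weighted homogeneous slices are of linear type -/
theorem loglin_of_tup {n : ℕ} {F : MvPolynomial (Fin n) ℂ} (h : SliceTup F) : LogLin F := by
  obtain ⟨F, a, D, w, ha, hF0, hw, hd, hF, hS⟩ := h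
  refine ⟨∏ t, F t, Pool.Agent.H940.P.lg F a, Finset.prod_ne_zero_iff.2 fun t _ => hF0 t,
    fun i => Pool.Agent.H940.P.lg_mul F a i, ?_⟩
  refine Pool.Agent.H940.W.wlty_tuple ha hw hd hF hF0 fun P hP hs => ?_
  obtain ⟨i, hi, g, w', N, η, hW⟩ := hS P hP hs
  exact ⟨i, hi, g, w', N, η, hW.wpos, hW.hom, hW.crit, hW.cc, hW.det, hW.gen⟩

/-- **The root of the vertex, or a vector field.** -/
theorem sf_or_kill {f : MvPolynomial (Fin n) ℚ_[p]} (hf0 : f ≠ 0) (w : Fin n → ℕ)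
    (hw : ∀ i, 0 < w i) {d : ℕ} (hd : 0 < d) (hf : f.IsWeightedHomogeneous w d)
    (hL : LogLin (map φ f)) :
    SF (fun _ : Fin 1 => map φ f) 0 (-((∑ i, w i : ℕ) : ℂ) / d) ∨
    ∃ η : Fin n → MvPolynomial (Fin n) ℂ, ∑ i, η i * pderiv i (map φ f) = 0 ∧
      constantCoeff (dv η) ≠ 0 := by
  classical
  rw [or_iff_not_imp_left]
  intro hSF
  set F := map φ f with hF
  have hF0 : F ≠ 0 := map_ne φ hf0
  have hFw : F.IsWeightedHomogeneous w d := by
    intro α hα
    refine hf fun h => hα ?_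
    rw [hF, coeff_map, h, map_zero]
  obtain ⟨H', b, hb, hH', hbα⟩ : ∃ (H' : MvPolynomial (Fin n) ℂ) (b : Polynomial ℂ),
      IsLocEq H' (fun _ : Fin 1 => F) b ∧ eval 0 H' ≠ 0 ∧
        b.eval (-((∑ i, w i : ℕ) : ℂ) / d) ≠ 0 := by
    by_contra hc
    push Not at hc
    exact hSF (sf_of_local _ _ _ (fun H' b hb hH => hc H' b hb hH) (exists_fe _ ⟨0, hF0⟩))
  obtain ⟨P, hP⟩ := eq_of_locEq1 H' _ b hb
  have hd0 : (d : ℂ) ≠ 0 := by exact_mod_cast hd.ne'
  have hc0 : constantCoeff F = 0 := wh_cc w hd hFw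
  obtain ⟨g, v, hg, hv, hT⟩ := hL
  have hdv : constantCoeff (dv fun i : Fin n => (C (w i : ℂ) * X i : MvPolynomial (Fin n) ℂ)) =
      ((∑ i, w i : ℕ) : ℂ) := by
    unfold dv
    rw [map_sum]
    push_cast
    refine Finset.sum_congr rfl fun i _ => ?_
    rw [pderiv_C_mul, pderiv_X_self, mul_one, constantCoeff_C]
  rcases root_or_field' F g v hv hF0 hg hc0 hT
    (fun i => C (w i : ℂ) * X i) d hd0 (euler_w w F d hFw)
    (fun i => by rw [map_mul, constantCoeff_X, mul_zero]) H' (by rwa [eval_zero] at hH') b P hP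
    with h1 | ⟨η, h1, h2⟩
  · rw [hdv] at h1
    exact absurd h1 hbα
  · exact ⟨η, kill_of F g v hv hg η h1, h2⟩

/-- local functional equations with a polynomial `H` -/
theorem loc_of_eq {F H : MvPolynomial (Fin n) ℂ} {b : Polynomial ℂ} (hH : eval 0 H ≠ 0)
    (hb : IsLocEq H (fun _ : Fin 1 => F) b) : Pool.Agent.H628R4.TP.IsLocalBFunction F b := by
  classical
  obtain ⟨P, hP⟩ := eq_of_locEq1 H _ b hb
  set e := P.support.equivFin with he
  have hH' : MvPowerSeries.constantCoeff (H : MvPowerSeries (Fin n) ℂ) ≠ 0 := by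
    rw [← MvPowerSeries.coeff_zero_eq_constantCoeff_apply, MvPolynomial.coeff_coe,
      ← constantCoeff_eq, ← eval_zero]
    exact hH
  have hinv : (H : MvPowerSeries (Fin n) ℂ)⁻¹ * (H : MvPowerSeries (Fin n) ℂ) = 1 :=
    MvPowerSeries.inv_mul_cancel _ hH'
  refine ⟨P.support.card, fun i => (e.symm i : ℕ), fun _ => (H : MvPowerSeries (Fin n) ℂ)⁻¹,
    fun i => P (e.symm i : ℕ), fun s => ?_⟩
  have h1 := congrArg (fun q : MvPolynomial (Fin n) ℂ => (q : MvPowerSeries (Fin n) ℂ)) (hP s)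
  simp only [Finsupp.sum] at h1
  have h2 : ((∑ a ∈ P.support, (s : ℂ) ^ a • (P a : Module.End ℂ (MvPolynomial (Fin n) ℂ))
      (F ^ (s + 1)) : MvPolynomial (Fin n) ℂ) : MvPowerSeries (Fin n) ℂ) =
      ∑ i, MvPowerSeries.C ((s : ℂ) ^ (e.symm i : ℕ)) *
        (((P (e.symm i : ℕ) : Module.End ℂ (MvPolynomial (Fin n) ℂ)) (F ^ (s + 1)) :
          MvPolynomial (Fin n) ℂ) : MvPowerSeries (Fin n) ℂ) := by
    have h3 : ∀ S : Finset ℕ, ∀ g : ℕ → MvPolynomial (Fin n) ℂ,
        ((∑ a ∈ S, g a : MvPolynomial (Fin n) ℂ) : MvPowerSeries (Fin n) ℂ) =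
        ∑ a ∈ S, (g a : MvPowerSeries (Fin n) ℂ) := by
      intro S g
      exact map_sum (MvPolynomial.coeToMvPowerSeries.ringHom :
        MvPolynomial (Fin n) ℂ →+* MvPowerSeries (Fin n) ℂ) g S
    rw [h3, ← Finset.sum_coe_sort, ← e.symm.sum_comp]
    refine Finset.sum_congr rfl fun i _ => ?_
    rw [smul_eq_C_mul, MvPolynomial.coe_mul, MvPolynomial.coe_C]
  rw [h2, MvPolynomial.coe_mul, MvPolynomial.coe_mul, MvPolynomial.coe_C] at h1
  have h4 : MvPowerSeries.C (b.eval (s : ℂ)) * ((F ^ s : MvPolynomial (Fin n) ℂ) :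
      MvPowerSeries (Fin n) ℂ) = (H : MvPowerSeries (Fin n) ℂ)⁻¹ *
      ((H : MvPowerSeries (Fin n) ℂ) * (MvPowerSeries.C (b.eval (s : ℂ)) *
        ((F ^ s : MvPolynomial (Fin n) ℂ) : MvPowerSeries (Fin n) ℂ))) := by
    rw [← mul_assoc, hinv, one_mul]
  rw [h4, h1, Finset.mul_sum]
  refine Finset.sum_congr rfl fun i _ => ?_
  ring

/-- roots of all local functional equations -/
theorem sf_of_root {F : MvPolynomial (Fin n) ℂ} (hF : F ≠ 0) {α : ℂ}
    (h : ∀ b : Polynomial ℂ, Pool.Agent.H628R4.TP.IsLocalBFunction F b → b.eval α = 0) :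
    SF (fun _ : Fin 1 => F) 0 α :=
  sf_of_local _ 0 α (fun H b hb hH => h b (loc_of_eq hH hb)) (exists_fe _ ⟨0, hF⟩)

/-- **Weighted cones.** -/
theorem good_cone {f : MvPolynomial (Fin n) ℚ_[p]} (hf0 : f ≠ 0) (w : Fin n → ℕ)
    (hw : ∀ i, 0 < w i) {d : ℕ} (hd : 0 < d) (hf : f.IsWeightedHomogeneous w d)
    (hL : Vertex (map φ f) w d)
    (hP : ∀ P : Fin n → ℚ_[p], P ≠ 0 → eval P f = 0 → Good φ (trn P f)) : Good φ f := by
  classical
  refine ⟨hf0, ?_⟩
  have hFw : (map φ f).IsWeightedHomogeneous w d := by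
    intro α hα
    refine hf fun h => hα ?_
    rw [coeff_map, h, map_zero]
  have hne : ∀ P : Fin n → ℚ_[p], P ≠ 0 → LP (mF p (map φ f)) (fun x => ‖eval x f‖) P := by
    intro P hP0
    by_cases h0 : eval P f = 0
    swap
    · exact Pool.Agent.Q261.QP.qp_unit p _ (siz_ev f) _ P (norm_ne_zero_iff.2 h0)
    refine lp_trn f P _ (lp_mono (fun T _ => mF_mono (fun α hα => ?_) T) (hP P hP0 h0).2)
    rw [map_trn] at hα
    refine sf_wline w hw hFw (map_ne φ hf0) (fun i => φ (P i)) α ?_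
    exact (Pool.Agent.Q149.QT.sf_trans _ _ _).2 hα
  have hn : 0 < ∑ i, w i := by
    rcases Nat.eq_zero_or_pos n with hn | hn
    · exfalso
      subst hn
      obtain ⟨α, hα⟩ := ne_zero_iff.1 hf0
      have h1 := hf hα
      rw [Finsupp.weight_apply, Finsupp.sum_fintype _ _ (by simp), Finset.univ_eq_empty,
        Finset.sum_empty] at h1
      omega
    · exact Finset.sum_pos (fun i _ => hw i) ⟨⟨0, hn⟩, Finset.mem_univ _⟩
  have hV : SF (fun _ : Fin 1 => map φ f) 0 (-((∑ i, w i : ℕ) : ℂ) / d) ∨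
      ∃ η : Fin n → MvPolynomial (Fin n) ℂ, ∑ i, η i * pderiv i (map φ f) = 0 ∧
        constantCoeff (dv η) ≠ 0 := by
    rcases hL with hL | hL | hL | hL
    · exact sf_or_kill φ hf0 w hw hd hf hL
    · exact sf_or_kill φ hf0 w hw hd hf (loglin_of_tup hL)
    · exact Or.inr hL
    · exact Or.inl (sf_of_root (map_ne φ hf0) hL)
  rcases hV with h1 | ⟨η, h1, h2⟩
  · refine lp_wcone w hn d hd (siz_ev f) (norm_wh w d hf) _ _ (fun T hT => ?_) hne
    by_cases h : T ^ d = (p : ℂ) ^ (∑ i, w i)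
    · rw [mF_top (F := map φ f) (by
        rw [rr_ratio _ _ hn hd T h]
        exact h1)]
      exact le_top
    · rw [if_neg h, zero_add]
  · obtain ⟨D, hDw, hD1, hDf⟩ := desc_field φ w hf η h1 h2
    exact lp_wsec f w hw d hd hf hDw hD1 hDf _ hne

/-- **All germs of the class.** -/
theorem grm_good {n : ℕ} {h : MvPolynomial (Fin n) ℚ_[p]} (H : Grm p φ n h) : Good φ h := by
  induction H with
  | unit h h0 => exact good_unit φ h h0
  | plane h h0 => exact good_plane φ h h0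
  | iso hn h g w N η hW => exact good_iso φ hn h hW
  | cone f hf0 w hw d hd hf hL hP ih => exact good_cone φ hf0 w hw hd hf hL ih
  | mul f g hf hg ihf ihg => exact good_mul φ ihf ihg
  | pow h k hk hh ih => exact good_pow φ ih hk
  | coords h g hc hg ih => exact good_coords φ hc ih
  | pull h b hb hdet hh ih => exact good_pull φ hb hdet ih

end Pool.Agent.H940.E
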