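import Pool.Agent.H940.E.Dsc
import Pool.Agent.H940.R.Main

set_option autoImplicit false
set_option linter.unusedSectionVars false
set_option linter.unusedVariables false

/-! # The vertex of a weighted homogeneous polynomial with a second torus -/

namespace Pool.Agent.H940.E

open MeasureTheory MvPolynomial Topology
open Pool.Agent.H940.R Pool.Agent.H940.S
open Pool.Agent.W427.SMC Pool.Agent.Y230.PS Pool.Agent.Q57.QP
open Pool.Agent.Y230.PT hiding CO
open Pool.Agent.Q66.QP
open scoped ENNReal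

attribute [local instance] msK bsK msZ bsZ

variable {p : ℕ} [Fact p.Prime] {n : ℕ}

/-- **Two tori.** -/
theorem lp_two (g : MvPolynomial (Fin n) ℚ_[p]) (w : Fin n → ℕ) (d : ℕ) (hd : 0 < d)
    (hg : g.IsWeightedHomogeneous w d) (hw : ∀ i, 0 < w i) (v : Fin n → ℤ) (hv : ∑ i, v i ≠ 0)
    (hgv : ∀ α ∈ g.support, ∑ i, (α i : ℤ) * v i = 0) (m : ℂ → ℕ∞)
    (H : ∀ P : Fin n → ℚ_[p], P ≠ 0 → LP m (fun x => ‖eval x g‖) P) :
    LP m (fun x => ‖eval x g‖) 0 := by
  classical
  have hne : (Finset.univ : Finset (Fin n)).Nonempty := by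
    by_contra hc
    rw [Finset.not_nonempty_iff_eq_empty] at hc
    apply hv
    rw [hc, Finset.sum_empty]
  -- the weights
  set c₀ : ℕ := 1 + ∑ i, (v i).natAbs with hc₀
  have hpos : ∀ c ≥ c₀, ∀ i, 0 < v i + c * w i := by
    intro c hc i
    have h6 : (v i).natAbs ≤ ∑ i, (v i).natAbs :=
      Finset.single_le_sum (f := fun i => (v i).natAbs) (fun i _ => Nat.zero_le _)
        (Finset.mem_univ i)
    have h7 : (c : ℤ) * 1 ≤ c * w i := by
      have h8 := hw i
      have h9 : (1 : ℤ) ≤ w i := by exact_mod_cast h8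
      exact mul_le_mul_of_nonneg_left h9 (by positivity)
    omega
  have hwh : ∀ c ≥ c₀, g.IsWeightedHomogeneous (fun i => (v i + c * w i).toNat) (c * d) := by
    intro c hc α hα
    have h6 : ∑ i, α i * w i = d := by
      have := hg hα
      rw [Finsupp.weight_apply, Finsupp.sum_fintype _ _ (by simp)] at this
      simpa using this
    rw [Finsupp.weight_apply, Finsupp.sum_fintype _ _ (by simp)]
    have h7 : ((∑ i, α i • (v i + c * w i).toNat : ℕ) : ℤ) = ((c * d : ℕ) : ℤ) := by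
      have h8 : ∀ i, ((α i • (v i + c * w i).toNat : ℕ) : ℤ) =
          (α i : ℤ) * v i + c * ((α i * w i : ℕ) : ℤ) := by
        intro i
        rw [smul_eq_mul, Nat.cast_mul, Int.toNat_of_nonneg (hpos c hc i).le]
        push_cast
        ring
      rw [Nat.cast_sum, Finset.sum_congr rfl fun i _ => h8 i, Finset.sum_add_distrib,
        hgv α (mem_support_iff.2 hα), zero_add, ← Finset.mul_sum, ← Nat.cast_sum, h6]
      push_cast
      ring
    exact_mod_cast h7
  have hsum : ∀ c ≥ c₀, ((∑ i, (v i + c * w i).toNat : ℕ) : ℤ) =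
      ∑ i, v i + c * (∑ i, w i : ℕ) := by
    intro c hc
    rw [Nat.cast_sum]
    have h2 : ∀ i, (((v i + c * w i).toNat : ℕ) : ℤ) = v i + c * w i := fun i =>
      Int.toNat_of_nonneg (hpos c hc i).le
    rw [Finset.sum_congr rfl fun i _ => h2 i, Finset.sum_add_distrib, ← Finset.mul_sum]
    push_cast
    rfl
  have hWpos : ∀ c ≥ c₀, 0 < ∑ i, (v i + c * w i).toNat := fun c hc =>
    Finset.sum_pos (fun i _ => by
      have := hpos c hc i
      omega) hne
  have hcd : ∀ c ≥ c₀, 0 < c * d := fun c hc => Nat.mul_pos (by omega) hd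
  -- the vertex with one candidate
  have key : ∀ c ≥ c₀, LP (fun T => (if T ^ (c * d) = (p : ℂ) ^ (∑ i, (v i + c * w i).toNat)
      then 1 else 0) + m T) (fun x => ‖eval x g‖) 0 := by
    intro c hc
    exact lp_wcone (fun i => (v i + c * w i).toNat) (hWpos c hc) (c * d) (hcd c hc) (siz_ev g)
      (norm_wh _ _ (hwh c hc)) m _ (fun T _ => le_rfl) H
  refine lp_min (key c₀ le_rfl) (key (c₀ + 1) (Nat.le_succ _)) fun T hT => ?_
  by_cases h1 : T ^ (c₀ * d) = (p : ℂ) ^ (∑ i, (v i + c₀ * w i).toNat)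
  swap
  · left
    rw [if_neg h1, zero_add]
  · right
    rw [if_neg, zero_add]
    intro h2
    have h3 := rr_ratio _ _ (hWpos c₀ le_rfl) (hcd c₀ le_rfl) T h1
    have h4 := rr_ratio _ _ (hWpos (c₀ + 1) (Nat.le_succ _)) (hcd (c₀ + 1) (Nat.le_succ _)) T h2
    rw [h3, neg_div, neg_div, neg_inj, div_eq_div_iff
      (by exact_mod_cast (hcd c₀ le_rfl).ne')
      (by exact_mod_cast (hcd (c₀ + 1) (Nat.le_succ _)).ne')] at h4
    have h5 : ((∑ i, (v i + (c₀ : ℕ) * w i).toNat : ℕ) : ℤ) * (((c₀ + 1) * d : ℕ) : ℤ) =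
        ((∑ i, (v i + ((c₀ + 1 : ℕ) : ℤ) * w i).toNat : ℕ) : ℤ) * ((c₀ * d : ℕ) : ℤ) := by
      exact_mod_cast h4
    rw [hsum c₀ le_rfl, hsum (c₀ + 1) (Nat.le_succ _)] at h5
    apply hv
    have hd' : (d : ℤ) ≠ 0 := by exact_mod_cast hd.ne'
    push_cast at h5
    have h6 : (∑ i, v i) * d = 0 := by linear_combination h5
    exact (mul_eq_zero.1 h6).resolve_right hd'

theorem eval_aeval' {K : Type} [Field K] (c : Fin n → MvPolynomial (Fin n) K)
    (F : MvPolynomial (Fin n) K) (Q : Fin n → K) :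
    eval Q (aeval c F) = eval (fun t => eval Q (c t)) F := by
  rw [aeval_def, eval_eval₂]
  have h5 : (eval Q).comp (algebraMap K (MvPolynomial (Fin n) K)) = RingHom.id _ := by
    refine RingHom.ext fun a => ?_
    rw [RingHom.comp_apply, algebraMap_eq, eval_C, RingHom.id_apply]
  rw [h5]
  rfl

/-- **Polynomial coordinates at a point.** -/
theorem lp_pb (b : Fin n → MvPolynomial (Fin n) ℚ_[p]) (F : MvPolynomial (Fin n) ℚ_[p])
    (m : ℂ → ℕ∞) (Q : Fin n → ℚ_[p])
    (hdet : (Matrix.of fun t i => eval Q (pderiv i (b t))).det ≠ 0)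
    (H : LP m (fun y => ‖eval y F‖) fun t => eval Q (b t)) :
    LP m (fun x => ‖eval x (aeval b F)‖) Q := by
  classical
  set Φ : (Fin n → ℚ_[p]) → (Fin n → ℚ_[p]) := fun y t => eval y (b t) with hF
  set A : (Fin n → ℚ_[p]) →L[ℚ_[p]] (Fin n → ℚ_[p]) := ContinuousLinearMap.pi fun t =>
    ∑ i, eval Q (pderiv i (b t)) •
      (ContinuousLinearMap.proj i : (Fin n → ℚ_[p]) →L[ℚ_[p]] ℚ_[p]) with hA
  have hder : HasStrictFDerivAt Φ A Q :=
    hasStrictFDerivAt_pi.2 fun t => Pool.Agent.Q210.QP.qp_eval p (b t) Q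
  have hAm : (A : (Fin n → ℚ_[p]) →ₗ[ℚ_[p]] (Fin n → ℚ_[p])) =
      Matrix.toLin' (Matrix.of fun t i => eval Q (pderiv i (b t))) := by
    refine LinearMap.ext fun x => ?_
    funext t
    rw [Matrix.toLin'_apply]
    unfold Matrix.mulVec dotProduct
    simp only [Matrix.of_apply, ContinuousLinearMap.coe_coe, hA, ContinuousLinearMap.pi_apply]
    rw [_root_.sum_apply]
    refine Finset.sum_congr rfl fun i _ => ?_
    rw [_root_.smul_apply, ContinuousLinearMap.proj_apply, smul_eq_mul]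
  have hAd : A.det ≠ 0 := by
    change LinearMap.det (A : (Fin n → ℚ_[p]) →ₗ[ℚ_[p]] (Fin n → ℚ_[p])) ≠ 0
    rw [hAm, LinearMap.det_toLin']
    exact hdet
  set B := A.toContinuousLinearEquivOfDetNeZero hAd with hB
  have hder' : HasStrictFDerivAt Φ (B : (Fin n → ℚ_[p]) →L[ℚ_[p]] (Fin n → ℚ_[p])) Q := by
    rw [hB, ContinuousLinearMap.coe_toContinuousLinearEquivOfDetNeZero]
    exact hder
  refine (Pool.Agent.Q57.QP.qp_diffn Pool.Agent.Q210.QP.qp_iso Pool.Agent.Q210.QP.qp_lin) p Φ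
    B Q _ (fun y => ‖eval y F‖) m (siz_ev _) hder' ?_ H
  refine Filter.Eventually.of_forall fun x => ?_
  rw [eval_aeval']

theorem det_at {K : Type} [Field K] (c y : Fin n → MvPolynomial (Fin n) K)
    (h : ∀ t, aeval c (y t) = X t) (Q : Fin n → K) :
    (Matrix.of fun t i => eval Q (pderiv i (c t))).det ≠ 0 := by
  classical
  have h1 : (Matrix.of fun t s => eval Q (aeval c (pderiv s (y t)))) *
      (Matrix.of fun t i => eval Q (pderiv i (c t))) = 1 := by
    ext t i
    have h2 := congrArg (fun F => eval Q (pderiv i F)) (h t)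
    beta_reduce at h2
    rw [pderiv_aeval, map_sum] at h2
    rw [Matrix.mul_apply]
    have h3 : ∀ s, (Matrix.of fun t s => eval Q (aeval c (pderiv s (y t)))) t s *
        (Matrix.of fun t i => eval Q (pderiv i (c t))) s i =
        eval Q (aeval c (pderiv s (y t)) * pderiv i (c s)) := by
      intro s
      rw [map_mul]
      rfl
    rw [Finset.sum_congr rfl fun s _ => h3 s, h2, pderiv_X, Matrix.one_apply]
    by_cases hts : t = i
    · subst hts
      rw [Pi.single_eq_same, if_pos rfl, map_one]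
    · rw [Pi.single_eq_of_ne hts, if_neg hts, map_zero]
  intro h2
  have h3 := congrArg Matrix.det h1
  rw [Matrix.det_mul, h2, mul_zero, Matrix.det_one] at h3
  exact zero_ne_one h3

/-- **The vertex, with a vector field.** -/
theorem lp_wsec (f : MvPolynomial (Fin n) ℚ_[p]) (w : Fin n → ℕ) (hw : ∀ i, 0 < w i) (d : ℕ)
    (hd : 0 < d) (hf : f.IsWeightedHomogeneous w d) {D : Fin n → MvPolynomial (Fin n) ℚ_[p]}
    (hDw : ∀ t, (D t).IsWeightedHomogeneous w (w t))
    (hτ : ∑ t, constantCoeff (pderiv t (D t)) = 1) (hDf : ∑ t, D t * pderiv t f = 0) (m : ℂ → ℕ∞)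
    (H : ∀ P : Fin n → ℚ_[p], P ≠ 0 → LP m (fun x => ‖eval x f‖) P) :
    LP m (fun x => ‖eval x f‖) 0 := by
  classical
  obtain ⟨y, c, ρ, hy, hc, hyc, hcy, hsum, hcf, hsup⟩ := second_w w hw hDw 1
    (by rw [hτ, Rat.cast_one]) f d hf hDf
  have hcc : ∀ t, constantCoeff (c t) = 0 := fun t => wh_cc w (hw t) (hc t)
  have hyc0 : ∀ t, constantCoeff (y t) = 0 := fun t => wh_cc w (hw t) (hy t)
  -- the integral weights
  set q : ℕ := ∏ i, (ρ i).den with hq
  have hq0 : 0 < q := Finset.prod_pos fun i _ => (ρ i).den_pos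
  have h2 : ∀ i, ∃ v : ℤ, (v : ℚ) = q * ρ i := by
    intro i
    obtain ⟨e, he⟩ := Finset.dvd_prod_of_mem (fun i => (ρ i).den) (Finset.mem_univ i)
    refine ⟨e * (ρ i).num, ?_⟩
    rw [hq, he]
    push_cast
    rw [← Rat.den_mul_eq_num]
    ring
  choose v hv using h2
  have hvs : ∑ i, v i ≠ 0 := by
    intro h5
    have h6 : ((∑ i, v i : ℤ) : ℚ) = q * ∑ i, ρ i := by
      push_cast
      rw [Finset.mul_sum]
      exact Finset.sum_congr rfl fun i _ => hv i
    rw [h5, Int.cast_zero, hsum, mul_one] at h6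
    exact hq0.ne' (by exact_mod_cast h6.symm)
  have hgv : ∀ α ∈ (aeval c f).support, ∑ i, (α i : ℤ) * v i = 0 := by
    intro α hα
    have h4 : ((∑ i, (α i : ℤ) * v i : ℤ) : ℚ) = 0 := by
      push_cast
      have h5 : ∑ i, (α i : ℚ) * (v i : ℚ) = q * ∑ i, (α i : ℚ) * ρ i := by
        rw [Finset.mul_sum]
        exact Finset.sum_congr rfl fun i _ => by rw [hv]; ring
      rw [h5, hsup α hα, mul_zero]
    exact_mod_cast h4
  -- the integral in the new coordinates
  have hG : LP m (fun x => ‖eval x (aeval c f)‖) 0 := by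
    refine lp_two (aeval c f) w d hd hcf hw v hvs hgv m fun Q hQ => ?_
    refine lp_pb c f m Q (det_at c y hcy Q) (H _ fun h0 => hQ ?_)
    funext t
    have h5 := congrArg (eval Q) (hcy t)
    rw [eval_aeval', h0, eval_X, eval_zero, hyc0] at h5
    rw [← h5]
    rfl
  have h1 : aeval y (aeval c f) = f := by
    rw [aeval_aeval]
    have : (fun t => aeval y (c t)) = (X : Fin n → MvPolynomial (Fin n) ℚ_[p]) := funext hyc
    rw [this, aeval_X_left, AlgHom.id_apply]
  have h3 := lp_pb y (aeval c f) m 0 (det_at y c hyc 0) (by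
    have h0 : (fun t => eval 0 (y t)) = (0 : Fin n → ℚ_[p]) := by
      funext t
      rw [eval_zero, hyc0]
      rfl
    rw [h0]
    exact hG)
  rw [h1] at h3
  exact h3

end Pool.Agent.H940.E
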