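import Pool.Agent.H940.E.An
import Pool.Agent.H940.E.PW
import Pool.Agent.H940.R.Roots

set_option autoImplicit false
set_option linter.unusedSectionVars false
set_option linter.unusedVariables false

/-! # Analytic coordinates -/

namespace Pool.Agent.H940.E

open MeasureTheory MvPolynomial Topology
open Pool.Agent.H940.R Pool.Agent.H940.S
open Pool.Agent.W427.SMC Pool.Agent.Y230.PS Pool.Agent.Q57.QP
open Pool.Agent.Y230.PT hiding CO
open Pool.Agent.Q66.QP
open Pool.Agent.Y229 (SF exists_fe sf_of_local)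
open Pool.Agent.Q57.MD (transfer_formal sf_of_transf Transf ne_of_transf)
open Pool.Agent.Q57.MC (sf_iff)
open scoped ENNReal

attribute [local instance] msK bsK msZ bsZ

variable {p : ℕ} [Fact p.Prime] {n c : ℕ}

/-- the derivative of a convergent series -/
theorem strict_cvg {q : MvPowerSeries (Fin n) ℚ_[p]} (hq : Cvg q) :
    HasStrictFDerivAt (fun x : Fin n → ℚ_[p] => ∑' α, tm q x α)
      (∑ i, MvPowerSeries.coeff (Finsupp.single i 1) q •
        (ContinuousLinearMap.proj i : (Fin n → ℚ_[p]) →L[ℚ_[p]] ℚ_[p])) 0 := by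
  classical
  obtain ⟨r, hr, M, hM⟩ := hq
  have hfin : {α : Fin n →₀ ℕ | α.degree ≤ 1}.Finite := Finsupp.finite_of_degree_le 1
  set F : MvPolynomial (Fin n) ℚ_[p] := ∑ α ∈ hfin.toFinset, monomial α (MvPowerSeries.coeff α q)
    with hF
  have hFc : ∀ α, coeff α F = if α.degree ≤ 1 then MvPowerSeries.coeff α q else 0 := by
    intro α
    rw [hF, coeff_sum]
    simp only [coeff_monomial]
    rw [Finset.sum_ite_eq']
    simp only [Set.Finite.mem_toFinset]
    rfl
  set q2 : MvPowerSeries (Fin n) ℚ_[p] := q - (F : MvPowerSeries (Fin n) ℚ_[p]) with hq2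
  have hc2 : ∀ α, MvPowerSeries.coeff α q2 = if α.degree < 2 then 0 else
      MvPowerSeries.coeff α q := by
    intro α
    rw [hq2, map_sub, MvPolynomial.coeff_coe, hFc]
    by_cases h : α.degree < 2
    · rw [if_pos (by omega), if_pos h, sub_self]
    · rw [if_neg (by omega), if_neg h, sub_zero]
  have hM2 : ∀ α : Fin n →₀ ℕ, ‖MvPowerSeries.coeff α q2‖ * r ^ α.degree ≤ M := by
    intro α
    rw [hc2]
    split_ifs
    · rw [norm_zero, zero_mul]
      exact M_nonneg hr hM
    · exact hM α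
  have h1 := strict0 hr hM2 fun α hα => by rw [hc2, if_pos hα]
  have h2 := Pool.Agent.Q210.QP.qp_eval p F 0
  have h3 := h2.add h1
  have h4 : ∀ i, eval 0 (pderiv i F) = MvPowerSeries.coeff (Finsupp.single i 1) q := by
    intro i
    rw [eval_zero, cc_pd, hFc, if_pos]
    rw [Finsupp.degree_single]
  simp only [h4, add_zero] at h3
  refine h3.congr_of_eventuallyEq ?_
  have hnb : Metric.ball (0 : Fin n → ℚ_[p]) r ∈ 𝓝 (0 : Fin n → ℚ_[p]) := Metric.ball_mem_nhds _ hr
  filter_upwards [hnb] with x hx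
  rw [Metric.mem_ball, dist_zero_right] at hx
  have h5 := HS.add (HS.poly F x) ((summ hr hM2 hx).hasSum : HS q2 x _)
  rw [hq2, add_sub_cancel] at h5
  exact h5.tsum_eq.symm

theorem hs_cvg {q : MvPowerSeries (Fin n) ℚ_[p]} (hq : Cvg q) :
    ∀ᶠ x : Fin n → ℚ_[p] in 𝓝 0, HS q x (∑' α, tm q x α) := by
  obtain ⟨r, hr, M, hM⟩ := hq
  have hnb : Metric.ball (0 : Fin n → ℚ_[p]) r ∈ 𝓝 (0 : Fin n → ℚ_[p]) := Metric.ball_mem_nhds _ hr
  filter_upwards [hnb] with x hx
  rw [Metric.mem_ball, dist_zero_right] at hx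
  exact (summ hr hM hx).hasSum

theorem tm_zero (q : MvPowerSeries (Fin n) ℚ_[p]) :
    ∑' α, tm q 0 α = MvPowerSeries.constantCoeff q := by
  classical
  rw [tsum_eq_single 0]
  · unfold tm
    simp
  · intro α hα
    unfold tm
    obtain ⟨i, hi⟩ := Finsupp.ne_iff.1 hα
    rw [Finset.prod_eq_zero (Finset.mem_univ i), mul_zero]
    exact zero_pow hi

/-- **Integrals in analytic coordinates.** -/
theorem lp_coo {h : MvPolynomial (Fin n) ℚ_[p]} {g : MvPolynomial (Fin c) ℚ_[p]}
    (H : InCoords h g) (m : ℂ → ℕ∞) (hL : LP m (fun y => ‖eval y g‖) 0) :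
    LP m (fun x => ‖eval x h‖) 0 := by
  classical
  obtain ⟨s, η, u, hη, hu, hη0, hu0, hdet, heq⟩ := H
  set a := MvPowerSeries.constantCoeff u with ha
  have hL2 := Pool.Agent.Q261.QP.qp_scale p (fun y => ‖eval y g‖) (siz_ev g) m 0 a hu0 hL
  have h0 : (fun t => ∑' α, tm (η t) 0 α) = (0 : Fin c → ℚ_[p]) := by
    funext t
    rw [tm_zero, hη0]
    rfl
  refine st_diff p c (fun t x => ∑' α, tm (η t) x α)
    (fun t => ∑ i, MvPowerSeries.coeff (Finsupp.single i 1) (η t) •
        (ContinuousLinearMap.proj i : (Fin n → ℚ_[p]) →L[ℚ_[p]] ℚ_[p])) s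
    (fun x => ‖eval x h‖) (fun y => ‖a‖ * ‖eval y g‖) 0 m
    (Pool.Agent.Q247.QP.siz_smul (siz_ev g) _) (fun t => strict_cvg (hη t)) ?_ ?_ ?_
  · have h1 : (Matrix.of fun u t => (∑ i, MvPowerSeries.coeff (Finsupp.single i 1) (η t) •
        (ContinuousLinearMap.proj i : (Fin n → ℚ_[p]) →L[ℚ_[p]] ℚ_[p]))
          (Pi.single (s u) 1)) =
        (Matrix.of fun a t => MvPowerSeries.coeff (Finsupp.single (s a) 1) (η t)) := by
      ext b t
      rw [Matrix.of_apply, Matrix.of_apply, _root_.sum_apply, Finset.sum_eq_single (s b)]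
      · rw [_root_.smul_apply, ContinuousLinearMap.proj_apply, Pi.single_eq_same, smul_eq_mul,
          mul_one]
      · intro j _ hj
        rw [_root_.smul_apply, ContinuousLinearMap.proj_apply, Pi.single_eq_of_ne hj, smul_zero]
      · intro h1
        exact absurd (Finset.mem_univ _) h1
    rw [h1]
    exact hdet
  · have hev : ∀ᶠ x : Fin n → ℚ_[p] in 𝓝 0, ∀ t, HS (η t) x (∑' α, tm (η t) x α) :=
      Filter.eventually_all.2 fun t => hs_cvg (hη t)
    have hcont : ∀ᶠ x : Fin n → ℚ_[p] in 𝓝 0, ‖(∑' α, tm u x α) - a‖ < ‖a‖ := by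
      have hc := (strict_cvg hu).continuousAt
      have hc2 : ContinuousAt (fun x : Fin n → ℚ_[p] => ‖(∑' α, tm u x α) - a‖) 0 :=
        (hc.sub continuousAt_const).norm
      refine hc2.eventually_lt_const ?_
      beta_reduce
      rw [tm_zero, ← ha, sub_self, norm_zero]
      exact norm_pos_iff.2 hu0
    filter_upwards [hev, hs_cvg hu, hcont] with x h1 h2 h3
    have h4 := h2.mul (HS.aeval h1 g)
    rw [← heq] at h4
    have h5 := h4.unique (HS.poly h x)
    rw [← h5, norm_mul]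
    congr 1
    have h6 : (∑' α, tm u x α) = a + ((∑' α, tm u x α) - a) := by ring
    rw [h6, IsUltrametricDist.norm_add_eq_max_of_norm_ne_norm h3.ne']
    exact max_eq_left h3.le
  · rw [h0]
    exact hL2

theorem coe_map2 (φ : ℚ_[p] →+* ℂ) (P : MvPolynomial (Fin n) ℚ_[p]) :
    ((map φ P : MvPolynomial (Fin n) ℂ) : MvPowerSeries (Fin n) ℂ) =
      MvPowerSeries.map φ (P : MvPowerSeries (Fin n) ℚ_[p]) := by
  ext d
  rw [MvPolynomial.coeff_coe, coeff_map, MvPowerSeries.coeff_map, MvPolynomial.coeff_coe]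

theorem map_aeval2 (φ : ℚ_[p] →+* ℂ) (η : Fin c → MvPowerSeries (Fin n) ℚ_[p])
    (P : MvPolynomial (Fin c) ℚ_[p]) :
    MvPowerSeries.map φ (aeval η P) = aeval (fun t => MvPowerSeries.map φ (η t)) (map φ P) := by
  have h1 : (MvPowerSeries.map φ : MvPowerSeries (Fin n) ℚ_[p] →+* MvPowerSeries (Fin n) ℂ).comp
      (aeval η : MvPolynomial (Fin c) ℚ_[p] →ₐ[ℚ_[p]] MvPowerSeries (Fin n) ℚ_[p]).toRingHom =
      (aeval (fun t => MvPowerSeries.map φ (η t)) :
        MvPolynomial (Fin c) ℂ →ₐ[ℂ] MvPowerSeries (Fin n) ℂ).toRingHom.comp (map φ) := by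
    apply MvPolynomial.ringHom_ext
    · intro a
      simp only [RingHom.comp_apply, AlgHom.toRingHom_eq_coe, RingHom.coe_coe, map_C, algHom_C]
      rw [MvPowerSeries.algebraMap_apply, MvPowerSeries.algebraMap_apply, MvPowerSeries.map_C]
      rfl
    · intro i
      simp only [RingHom.comp_apply, AlgHom.toRingHom_eq_coe, RingHom.coe_coe, map_X, aeval_X]
  exact RingHom.congr_fun h1 P

theorem transf_coo (φ : ℚ_[p] →+* ℂ) {h : MvPolynomial (Fin n) ℚ_[p]}
    {g : MvPolynomial (Fin c) ℚ_[p]} (H : InCoords h g) :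
    Transf (fun _ : Fin 1 => map φ h) (fun _ : Fin 1 => map φ g) 0 := by
  classical
  obtain ⟨s, η, u, hη, hu, hη0, hu0, hdet, heq⟩ := H
  exact transfer_formal (fun _ : Fin 1 => map φ h) (fun _ : Fin 1 => map φ g)
      (fun t => MvPowerSeries.map φ (η t)) s
      (fun t => by rw [MvPowerSeries.constantCoeff_map, hη0, map_zero]) (by
        have h1 : (Matrix.of fun a t => MvPowerSeries.coeff (Finsupp.single (s a) 1)
            (MvPowerSeries.map φ (η t))) = φ.mapMatrix (Matrix.of fun a t =>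
              MvPowerSeries.coeff (Finsupp.single (s a) 1) (η t)) := by
          ext1 a t
          rw [Matrix.of_apply, MvPowerSeries.coeff_map, RingHom.mapMatrix_apply, Matrix.map_apply,
            Matrix.of_apply]
        rw [h1, ← RingHom.map_det]
        exact (map_ne_zero φ).2 hdet) (by
        rw [Set.range_const, Set.range_const]
        have h1 := congrArg (MvPowerSeries.map φ) heq
        rw [← coe_map2, map_mul, map_aeval2] at h1
        rw [h1]
        refine Ideal.span_singleton_mul_left_unit ?_ _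
        rw [MvPowerSeries.isUnit_iff_constantCoeff, MvPowerSeries.constantCoeff_map]
        exact ((map_ne_zero φ).2 hu0).isUnit)

/-- **Roots in analytic coordinates.** -/
theorem sf_coo (φ : ℚ_[p] →+* ℂ) {h : MvPolynomial (Fin n) ℚ_[p]}
    {g : MvPolynomial (Fin c) ℚ_[p]} (H : InCoords h g) (hg : g ≠ 0) (α : ℂ)
    (hα : SF (fun _ : Fin 1 => map φ g) 0 α) : SF (fun _ : Fin 1 => map φ h) 0 α := by
  classical
  have hne' : ∃ j : Fin 1, (fun _ : Fin 1 => map φ g) j ≠ 0 :=
    ⟨0, fun h0 => hg ((map_eq_zero_iff _ (map_injective _ φ.injective)).1 h0)⟩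
  exact sf_of_transf _ _ 0 (transf_coo φ H) hne' _ ((sf_iff _ hne' _).1 hα)

theorem ne_coo (φ : ℚ_[p] →+* ℂ) {h : MvPolynomial (Fin n) ℚ_[p]}
    {g : MvPolynomial (Fin c) ℚ_[p]} (H : InCoords h g) (hg : g ≠ 0) : map φ h ≠ 0 := by
  classical
  have hne' : ∃ j : Fin 1, (fun _ : Fin 1 => map φ g) j ≠ 0 :=
    ⟨0, fun h0 => hg ((map_eq_zero_iff _ (map_injective _ φ.injective)).1 h0)⟩
  obtain ⟨j, hj⟩ := ne_of_transf _ _ 0 (transf_coo φ H) hne'
  exact hj

end Pool.Agent.H940.E
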