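import Pool.Agent.H940.E.Slice

set_option autoImplicit false
set_option linter.unusedSectionVars false
set_option linter.unusedVariables false

/-! # Members of the class -/

namespace Pool.Agent.H940.E

open MvPolynomial
open Pool.Agent.H940.R Pool.Agent.H940.S
open Pool.Agent.H940.G (Sg pt_ne pos_of_sg lty LH)
open Pool.Agent.Y230.PS (eval_hom)

variable {p : ℕ} [Fact p.Prime] {n : ℕ} (φ : ℚ_[p] →+* ℂ)

theorem trn_zero {K : Type} [Field K] (f : MvPolynomial (Fin n) K) : trn 0 f = f := by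
  unfold trn
  simp only [Pi.zero_apply, map_zero, add_zero]
  rw [aeval_X_left, AlgHom.id_apply]

theorem trn_trn {K : Type} [Field K] (P : Fin n → K) (f : MvPolynomial (Fin n) K) :
    trn (-P) (trn P f) = f := by
  unfold trn
  rw [aeval_aeval]
  have h1 : (fun t => aeval (fun i => X i + C ((-P) i)) (X t + C (P t))) =
      (X : Fin n → MvPolynomial (Fin n) K) := by
    funext t
    rw [map_add, aeval_X, algHom_C, algebraMap_eq, Pi.neg_apply, map_neg]
    ring
  rw [h1, aeval_X_left, AlgHom.id_apply]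

theorem trn_ne {K : Type} [Field K] (P : Fin n → K) {f : MvPolynomial (Fin n) K} (hf : f ≠ 0) :
    trn P f ≠ 0 := by
  intro h
  apply hf
  rw [← trn_trn P f, h]
  unfold trn
  rw [map_zero]

theorem cc_trn {K : Type} [Field K] (P : Fin n → K) (f : MvPolynomial (Fin n) K) :
    constantCoeff (trn P f) = eval P f := by
  rw [← eval_zero, eval_trn]
  congr 1
  congr 1
  funext i
  rw [Pi.zero_apply, zero_add]

theorem pderiv_trn {K : Type} [Field K] (P : Fin n → K) (f : MvPolynomial (Fin n) K)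
    (j : Fin n) : pderiv j (trn P f) = trn P (pderiv j f) := by
  classical
  unfold trn
  rw [pderiv_aeval, Finset.sum_eq_single j]
  · rw [map_add, pderiv_X_self, pderiv_C, add_zero, mul_one]
  · intro s _ hs
    rw [map_add, pderiv_X_of_ne hs, pderiv_C, add_zero, mul_zero]
  · intro h
    exact absurd (Finset.mem_univ j) h

theorem slc_ne {f : MvPolynomial (Fin (n + 1)) ℚ_[p]} (hf0 : f ≠ 0) (w : Fin (n + 1) → ℕ)
    (hw : ∀ i, 0 < w i) {d : ℕ} (hf : f.IsWeightedHomogeneous w d) (i : Fin (n + 1))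
    (P : Fin (n + 1) → ℚ_[p]) (hP : P i ≠ 0) : slc i P f ≠ 0 := by
  intro h
  obtain ⟨b, hb, hdet, hid⟩ := slice_id w hw hf i P hP
  rw [h, map_zero, mul_zero] at hid
  obtain ⟨η, -, -, hη⟩ := formal_inv b hb hdet
  have h1 := hη (trn P f)
  rw [hid, map_zero] at h1
  apply trn_ne P hf0
  apply MvPolynomial.coe_injective (Fin (n + 1)) ℚ_[p]
  rw [h1, MvPolynomial.coe_zero]

/-- the linear germ -/
theorem grm_X : Grm p φ 1 (X 0) := by
  refine Grm.iso one_pos (X 0) (X 0) (fun _ => 1) 1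
    (fun t => ((X t : MvPolynomial (Fin 1) ℂ) : MvPowerSeries (Fin 1) ℂ)) ?_
  refine ⟨fun _ => one_pos, ?_, fun i => ⟨0, ?_⟩, fun t => ?_, ?_, ?_⟩
  · exact isWeightedHomogeneous_X ℂ (fun _ => 1) 0
  · rw [pow_zero]
    refine Ideal.subset_span ⟨0, ?_⟩
    change pderiv 0 (X 0) = 1
    rw [pderiv_X_self]
  · rw [← MvPowerSeries.coeff_zero_eq_constantCoeff_apply, MvPolynomial.coeff_coe,
      ← constantCoeff_eq, constantCoeff_X]
  · rw [Matrix.det_unique, Matrix.of_apply, MvPolynomial.coeff_coe]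
    have h1 : (default : Fin 1) = 0 := rfl
    rw [h1, coeff_X, if_pos rfl]
    exact one_ne_zero
  · rw [map_X, aeval_X]

/-- smooth germs -/
theorem grm_smooth (h : MvPolynomial (Fin n) ℚ_[p]) (h0 : constantCoeff h = 0) (j : Fin n)
    (hj : constantCoeff (pderiv j h) ≠ 0) : Grm p φ n h := by
  refine Grm.coords h (X 0) ?_ (grm_X φ)
  refine incoords_poly (fun _ => j) (fun _ => h) 1 (fun _ => h0) ?_ ?_ ?_
  · rw [map_one]
    exact one_ne_zero
  · rw [Matrix.det_unique, Matrix.of_apply]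
    exact hj
  · rw [aeval_X, one_mul]

/-- **Weighted cones with the slices in the class.** -/
theorem grm_cone_slices {f : MvPolynomial (Fin (n + 1)) ℚ_[p]} (hf0 : f ≠ 0)
    (w : Fin (n + 1) → ℕ) (hw : ∀ i, 0 < w i) {d : ℕ} (hd : 0 < d)
    (hf : f.IsWeightedHomogeneous w d) (hL : Vertex (map φ f) w d)
    (hP : ∀ P : Fin (n + 1) → ℚ_[p], P ≠ 0 → eval P f = 0 → ∃ i, P i ≠ 0 ∧
      Grm p φ n (slc i P f)) (P : Fin (n + 1) → ℚ_[p]) (h0 : eval P f = 0) :
    Grm p φ (n + 1) (trn P f) := by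
  have h1 : ∀ P : Fin (n + 1) → ℚ_[p], P ≠ 0 → eval P f = 0 → Grm p φ (n + 1) (trn P f) := by
    intro P hP0 h0
    obtain ⟨i, hi, hi2⟩ := hP P hP0 h0
    exact grm_slice φ w hw hf i P hi hi2
  by_cases hP0 : P = 0
  · rw [hP0, trn_zero]
    exact Grm.cone f hf0 w hw d hd hf hL h1
  · exact h1 P hP0 h0

/-- **Weighted homogeneous polynomials in three variables.** -/
theorem grm_three {f : MvPolynomial (Fin 3) ℚ_[p]} (hf0 : f ≠ 0) (w : Fin 3 → ℕ)
    (hw : ∀ i, 0 < w i) {d : ℕ} (hd : 0 < d) (hf : f.IsWeightedHomogeneous w d)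
    (hL : Vertex (map φ f) w d) (P : Fin 3 → ℚ_[p]) (h0 : eval P f = 0) :
    Grm p φ 3 (trn P f) := by
  refine grm_cone_slices φ hf0 w hw hd hf hL (fun P hP0 _ => ?_) P h0
  obtain ⟨i, hi⟩ : ∃ i, P i ≠ 0 := by
    by_contra hcon
    push Not at hcon
    exact hP0 (funext hcon)
  exact ⟨i, hi, Grm.plane _ (slc_ne hf0 w hw hf i P hi)⟩

/-- the slices of a form -/
theorem slc_germ {f : MvPolynomial (Fin (n + 1)) ℚ_[p]} {d : ℕ} (hf : f.IsHomogeneous d)
    (i : Fin (n + 1)) (P : Fin (n + 1) → ℚ_[p]) (hP : P i ≠ 0)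
    (H : Grm p φ n (germ i (fun t => P (i.succAbove t) / P i) f)) : Grm p φ n (slc i P f) := by
  classical
  refine Grm.coords _ _ ?_ H
  refine incoords_poly id (fun t => C (P i)⁻¹ * X t) (C (P i) ^ d) (fun t => ?_) ?_ ?_ ?_
  · rw [map_mul, constantCoeff_X, mul_zero]
  · rw [map_pow, constantCoeff_C]
    exact pow_ne_zero _ hP
  · have h1 : (Matrix.of fun a t => constantCoeff (pderiv (id a)
        (C (P i)⁻¹ * X t : MvPolynomial (Fin n) ℚ_[p]))) =
        (P i)⁻¹ • (1 : Matrix (Fin n) (Fin n) ℚ_[p]) := by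
      ext1 a t
      rw [Matrix.of_apply, pderiv_C_mul, map_mul, constantCoeff_C, id_eq, pderiv_X,
        Pi.single_apply, Matrix.smul_apply, Matrix.one_apply, smul_eq_mul]
      by_cases h : a = t
      · rw [h, if_pos rfl, if_pos rfl, map_one]
      · rw [if_neg h, if_neg (Ne.symm h), map_zero]
    rw [h1, Matrix.det_smul, Matrix.det_one, mul_one]
    exact pow_ne_zero _ (inv_ne_zero hP)
  · have hC : (C (P i) : MvPolynomial (Fin n) ℚ_[p]) * C (P i)⁻¹ = 1 := by
      rw [← C_mul, mul_inv_cancel₀ hP, C_1]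
    have h2 : (i.insertNth (C (P i)) fun t => X t + C (P (i.succAbove t)) :
        Fin (n + 1) → MvPolynomial (Fin n) ℚ_[p]) = fun j => C (P i) ^ (1 : Fin (n + 1) → ℕ) j *
          aeval (fun t => C (P i)⁻¹ * X t : Fin n → MvPolynomial (Fin n) ℚ_[p])
            ((i.insertNth 1 fun t => X t + C (P (i.succAbove t) / P i) :
              Fin (n + 1) → MvPolynomial (Fin n) ℚ_[p]) j) := by
      funext l
      refine Fin.succAboveCases i ?_ (fun t => ?_) l
      · rw [Fin.insertNth_apply_same, Fin.insertNth_apply_same, map_one, mul_one, Pi.one_apply,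
          pow_one]
      · rw [Fin.insertNth_apply_succAbove, Fin.insertNth_apply_succAbove, map_add, aeval_X,
          algHom_C, algebraMap_eq, Pi.one_apply, pow_one, div_eq_mul_inv, C_mul]
        linear_combination (-(X t) - C (P (i.succAbove t))) * hC
    unfold slc germ
    rw [h2, wh_scale (1 : Fin (n + 1) → ℕ) hf, ← aeval_aevalG]

/-- **Forms with weighted homogeneous isolated projective singularities.** -/
theorem grm_forms (f : MvPolynomial (Fin (n + 1)) ℚ) (d : ℕ) (hd : 2 ≤ d) (hf : f.IsHomogeneous d)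
    (hf0 : f ≠ 0) (HC : LWH (map (algebraMap ℚ ℂ) f)) (P : Fin (n + 1) → ℚ_[p])
    (h0 : eval P (map (algebraMap ℚ ℚ_[p]) f) = 0) :
    Grm p φ (n + 1) (trn P (map (algebraMap ℚ ℚ_[p]) f)) := by
  classical
  set F := map (algebraMap ℚ ℂ) f with hF
  set fp := map (algebraMap ℚ ℚ_[p]) f with hfp
  have hφ : map φ fp = F := map_C_eq φ f
  have hFh : F.IsHomogeneous d := hf.map _
  have hfh : fp.IsHomogeneous d := hf.map _
  have hF0 : F ≠ 0 := fun h => hf0 ((map_eq_zero_iff _
    (map_injective _ (algebraMap ℚ ℂ).injective)).1 h)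
  have hfp0 : fp ≠ 0 := fun h => hf0 ((map_eq_zero_iff _
    (map_injective _ (algebraMap ℚ ℚ_[p]).injective)).1 h)
  have hne : ∀ P : Fin (n + 1) → ℚ_[p], P ≠ 0 → eval P fp = 0 →
      Grm p φ (n + 1) (trn P fp) := by
    intro P hP h0
    by_cases hs : ∃ i, eval P (pderiv i fp) ≠ 0
    · obtain ⟨i, hi⟩ := hs
      exact grm_smooth φ _ (by rw [cc_trn, h0]) i (by rw [pderiv_trn, cc_trn]; exact hi)
    · push Not at hs
      obtain ⟨i, hi⟩ : ∃ i, P i ≠ 0 := by
        by_contra hcon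
        push Not at hcon
        exact hP (funext hcon)
      refine grm_slice φ (1 : Fin (n + 1) → ℕ) (fun _ => one_pos) hfh i P hi
        (slc_germ φ hfh i P hi ?_)
      set q : Fin n → ℚ_[p] := fun t => P (i.succAbove t) / P i with hq
      have hsq : ∀ j, eval (i.insertNth 1 q) (pderiv j fp) = 0 := by
        intro j
        rw [hq, insertNth_div i P hi, eval_hom (pderiv j fp) (d - 1) hfh.pderiv, hs, mul_zero]
      have hSg : Sg F (Pool.Agent.H940.G.pt (i, fun t => φ (q t))) := by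
        intro j
        have h1 : Pool.Agent.H940.G.pt (i, fun t => φ (q t)) =
            fun l => φ ((i.insertNth 1 q : Fin (n + 1) → ℚ_[p]) l) := by
          unfold Pool.Agent.H940.G.pt
          funext l
          refine Fin.succAboveCases i ?_ (fun t => ?_) l
          · rw [Fin.insertNth_apply_same, Fin.insertNth_apply_same, map_one]
          · rw [Fin.insertNth_apply_succAbove, Fin.insertNth_apply_succAbove]
        rw [h1, ← hφ, pderiv_map, eval_map_phi, hsq, map_zero]
      have hn := pos_of_sg hd hFh hF0 (pt_ne _) hSg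
      obtain ⟨g, w, N, η, hW⟩ := HC i (fun t => φ (q t)) hSg
      refine Grm.iso hn _ g w N η ?_
      rw [map_germ, hφ]
      exact hW
  by_cases hP : P = 0
  · rw [hP, trn_zero]
    refine Grm.cone fp hfp0 (1 : Fin (n + 1) → ℕ) (fun _ => one_pos) d (by omega) hfh ?_ hne
    rw [hφ]
    exact Or.inl ⟨F, fun i => pderiv i F, hF0, fun i => rfl, lty hd hFh hF0 (lwh_LH HC)⟩
  · exact hne P hP h0

end Pool.Agent.H940.E
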