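import Pool.Agent.H940.E.WTor
import Pool.Agent.H940.S.Desc

set_option autoImplicit false
set_option linter.unusedSectionVars false
set_option linter.unusedVariables false

/-! # Descent of a vector field -/

namespace Pool.Agent.H940.E

open MvPolynomial Pool.Agent.H940.R Pool.Agent.H940.S
open Pool.Agent.H940.LT (dv)

variable {n : ℕ}

theorem cp_mul {K : Type} [Field K] (w : Fin n → ℕ) (a b : ℕ) {g : MvPolynomial (Fin n) K}
    (hg : g.IsWeightedHomogeneous w b) (u : MvPolynomial (Fin n) K) :
    weightedHomogeneousComponent w (a + b) (u * g) = weightedHomogeneousComponent w a u * g := by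
  classical
  induction u using MvPolynomial.induction_on' with
  | monomial α c =>
    have h0 := isWeightedHomogeneous_monomial w α c rfl
    by_cases h : Finsupp.weight w α = a
    · subst h
      rw [(h0.mul hg).weightedHomogeneousComponent_same, h0.weightedHomogeneousComponent_same]
    · rw [(h0.mul hg).weightedHomogeneousComponent_ne _ (by omega),
        h0.weightedHomogeneousComponent_ne _ (Ne.symm h), zero_mul]
  | add p q hp hq => rw [add_mul, map_add, map_add, add_mul, hp, hq]

/-- the graded part of a field which kills `f` -/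
theorem gr_kill {K : Type} [Field K] (w : Fin n → ℕ) {f : MvPolynomial (Fin n) K} {d : ℕ}
    (hf : f.IsWeightedHomogeneous w d) (η : Fin n → MvPolynomial (Fin n) K)
    (hη : ∑ i, η i * pderiv i f = 0) :
    ∑ i, weightedHomogeneousComponent w (w i) (η i) * pderiv i f = 0 := by
  classical
  have h1 := congrArg (weightedHomogeneousComponent w d) hη
  rw [map_sum, map_zero] at h1
  rw [← h1]
  refine Finset.sum_congr rfl fun i _ => ?_
  by_cases hi : w i ≤ d
  · have h2 : (pderiv i f).IsWeightedHomogeneous w (d - w i) :=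
      hf.pderiv (by omega)
    have h3 := cp_mul w (w i) (d - w i) h2 (η i)
    rw [show w i + (d - w i) = d by omega] at h3
    exact h3.symm
  · have h2 : pderiv i f = 0 := by
      ext α
      rw [coeff_zero, coeff_pderiv]
      by_contra hc
      have h3 := hf (left_ne_zero_of_mul hc)
      rw [map_add, Finsupp.weight_single, one_smul] at h3
      omega
    rw [h2, mul_zero, mul_zero, map_zero]

variable {K : Type} [Field K] (φ : K →+* ℂ)

/-- **Descent of a vector field which kills a weighted homogeneous polynomial.** -/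
theorem desc_field (w : Fin n → ℕ) {f : MvPolynomial (Fin n) K} {d : ℕ}
    (hf : f.IsWeightedHomogeneous w d) (η : Fin n → MvPolynomial (Fin n) ℂ)
    (hη : ∑ i, η i * pderiv i (map φ f) = 0) (hdv : constantCoeff (dv η) ≠ 0) :
    ∃ D : Fin n → MvPolynomial (Fin n) K, (∀ t, (D t).IsWeightedHomogeneous w (w t)) ∧
      ∑ t, constantCoeff (pderiv t (D t)) = 1 ∧ ∑ t, D t * pderiv t f = 0 := by
  classical
  have hF : (map φ f).IsWeightedHomogeneous w d := by
    intro α hα
    refine hf fun h => hα ?_
    rw [coeff_map, h, map_zero]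
  set η' : Fin n → MvPolynomial (Fin n) ℂ := fun i => weightedHomogeneousComponent w (w i) (η i)
    with hη'
  have h1 : ∑ i, η' i * pderiv i (map φ f) = 0 := gr_kill w hF η hη
  have htr : ∑ i, coeff (Finsupp.single i 1) (η' i) ≠ 0 := by
    intro h3
    apply hdv
    rw [← h3, dv, map_sum]
    refine Finset.sum_congr rfl fun i _ => ?_
    rw [cc_pd, hη', coeff_weightedHomogeneousComponent, if_pos]
    rw [Finsupp.weight_single, one_smul]
  let _ : Algebra K ℂ := φ.toAlgebra
  obtain ⟨ψ0, hψ0⟩ : ∃ ψ : Module.Dual K ℂ, ψ (∑ i, coeff (Finsupp.single i 1) (η' i)) ≠ 0 := by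
    by_contra hc
    push Not at hc
    exact htr ((Module.forall_dual_apply_eq_zero_iff K _).1 hc)
  set ψ : Module.Dual K ℂ := (ψ0 (∑ i, coeff (Finsupp.single i 1) (η' i)))⁻¹ • ψ0 with hψ
  have hψ1 : ψ (∑ i, coeff (Finsupp.single i 1) (η' i)) = 1 := by
    rw [hψ, LinearMap.smul_apply, smul_eq_mul, inv_mul_cancel₀ hψ0]
  have hz : ψ 0 = 0 := map_zero _
  have ha : ∀ a b, ψ (a + b) = ψ a + ψ b := map_add _
  have hs : ∀ a c, ψ (a * φ c) = ψ a * c := by
    intro a c
    have h1 : a * φ c = c • a := by
      rw [Algebra.smul_def, mul_comm]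
      rfl
    rw [h1, map_smul, smul_eq_mul, mul_comm]
  refine ⟨fun t => mc ψ (η' t), fun t α hα => ?_, ?_, ?_⟩
  · rw [coeff_mc _ hz] at hα
    refine (weightedHomogeneousComponent_isWeightedHomogeneous (w := w) (w t) (η t)) fun h => hα ?_
    rw [h, hz]
  · rw [← hψ1, map_sum]
    refine Finset.sum_congr rfl fun t _ => ?_
    rw [cc_pd, coeff_mc _ hz]
  · have h2 : ∀ s : Finset (Fin n), ∑ t ∈ s, mc ψ (η' t) * pderiv t f =
        mc ψ (∑ t ∈ s, η' t * pderiv t (map φ f)) := by
      intro s
      induction s using Finset.induction_on with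
      | empty => rw [Finset.sum_empty, Finset.sum_empty, mc_zero]
      | insert a s h ih =>
        rw [Finset.sum_insert h, Finset.sum_insert h, mc_add _ hz ha, ih, pderiv_map,
          mc_mul_map φ ψ hz ha hs]
    rw [h2, h1, mc_zero]

end Pool.Agent.H940.E
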