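import Pool.Agent.H940.E.Cone

set_option autoImplicit false
set_option linter.unusedSectionVars false
set_option linter.unusedVariables false

/-! # The zeta function -/

namespace Pool.Agent.H940.E

open MeasureTheory MvPolynomial Topology
open Pool.Agent.H940.R Pool.Agent.H940.S
open Pool.Agent.W427.SMC Pool.Agent.Y230.PS Pool.Agent.Q57.QP
open Pool.Agent.Y230.PT hiding CO
open Pool.Agent.Q66.QP
open Pool.Agent.Y229 (SF exists_fe sf_of_local)
open Pool.Agent.Q57.MC (sf_iff eq_of_locEq1 sf_forced)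
open Pool.Agent.Q247.QP (disc disc_CO pi_lin lin_meas)
open scoped ENNReal

attribute [local instance] msK bsK msZ bsZ

variable {p : ℕ} [Fact p.Prime] {n : ℕ}

/-- the integral over the polydisc -/
theorem ff_disc {σ ι : Type} [Fintype σ] [Fintype ι] (f : ι → MvPolynomial σ ℚ_[p]) (m : ℂ → ℕ∞)
    (c : σ → ℚ_[p]) (hc : ∀ i, c i ≠ 0) (hm : ∀ P ∈ disc c, LP m (nrm f) P) :
    FR p m (FF (scl c f)) := by
  have hcont : Continuous (nrm f) := by
    unfold nrm
    exact continuous_norm.comp (continuous_pi fun j => MvPolynomial.continuous_eval _)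
  have hS : Siz (nrm f) := by
    refine ⟨hcont, fun x => ?_⟩
    rcases isEmpty_or_nonempty ι with hι | hι
    · left
      unfold nrm
      rw [Subsingleton.elim (fun j => eval x (f j)) 0, norm_zero]
    · obtain ⟨j, hj⟩ := norm_attained (fun j => eval x (f j))
      unfold nrm
      rw [hj]
      by_cases h0 : eval x (f j) = 0
      · left; rw [h0, norm_zero]
      · right
        exact ⟨_, Padic.norm_eq_zpow_neg_valuation h0⟩
  have h1 := Pool.Agent.Q261.QP.qp_glue p (nrm f) hS m (disc c) (disc_CO c hc) hm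
  have h2 : FR p m (fun s => (((∏ i, (N p 1 (c i))⁻¹).toReal : ℝ) : ℂ) * IZ (nrm f) (disc c) s) :=
    FR.mul0 (fun T0 hT0 => Reg.const _) h1
  refine h2.congr fun s _ => ?_
  unfold FF FZ IZ
  rw [← Complex.ofReal_mul, ← ENNReal.toReal_mul]
  congr 2
  have hF : Measurable (fun x => ENNReal.ofReal (nrm f x ^ s)) :=
    ENNReal.measurable_ofReal.comp (hcont.measurable.pow_const s)
  have hg : Measurable (fun (z : σ → ℤ_[p]) i => c i * inc p (z i)) :=
    measurable_pi_lambda _ fun i => (lin_meas (c i)).comp (measurable_pi_apply i)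
  have h3 := lintegral_map (μ := Measure.pi fun _ : σ => mu p) hF hg
  rw [pi_lin c hc, lintegral_smul_measure, smul_eq_mul] at h3
  rw [h3]
  refine lintegral_congr fun z => ?_
  congr 2
  unfold sz nrm
  congr 1
  funext j
  rw [Pool.Agent.Y230.PS.eval_scl]

/-- **The real parts of the poles are roots.** -/
theorem grm_ZR (f : MvPolynomial (Fin n) ℚ) (hf0 : f ≠ 0) (φ : ℚ_[p] →+* ℂ)
    (H : ∀ P : Fin n → ℚ_[p], (∀ i, ‖P i‖ ≤ 1) → eval P (map (algebraMap ℚ ℚ_[p]) f) = 0 →
      Grm p φ n (trn P (map (algebraMap ℚ ℚ_[p]) f))) :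
    Pool.Agent.T6.H26.ZR p false (hyp f) := by
  classical
  have hφf : map φ (map (algebraMap ℚ ℚ_[p]) f) = map (algebraMap ℚ ℂ) f := by
    have h : φ.comp (algebraMap ℚ ℚ_[p]) = algebraMap ℚ ℂ := RingHom.ext_rat _ _
    rw [map_map, h]
  refine ⟨⟨(0 : Fin 1), hf0⟩, ?_⟩
  simp only [Bool.false_eq_true, if_false]
  have h3 : nrm (FamQ.toP p (hyp f)) = fun x => ‖eval x (map (algebraMap ℚ ℚ_[p]) f)‖ := by
    funext x
    unfold nrm
    have h4 : (fun j => eval x (FamQ.toP p (hyp f) j)) =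
        fun _ : Fin 1 => eval x (map (algebraMap ℚ ℚ_[p]) f) := rfl
    rw [h4, pi_norm_const]
  have h1 := ff_disc (FamQ.toP p (hyp f)) (mR p (hyp f)) (fun _ => 1)
    (fun _ => one_ne_zero) (fun P hP => ?_)
  · rw [scl_one] at h1
    exact h1
  · rw [h3]
    have hP1 : ∀ i, ‖P i‖ ≤ 1 := by
      intro i
      have := hP i (Set.mem_univ i)
      rw [Metric.mem_closedBall, dist_zero_right, norm_one] at this
      exact this
    by_cases h0 : eval P (map (algebraMap ℚ ℚ_[p]) f) = 0
    swap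
    · exact Pool.Agent.Q261.QP.qp_unit p _ (siz_ev _) _ P (norm_ne_zero_iff.2 h0)
    have h2 := (grm_good φ (H P hP1 h0)).2
    refine lp_trn _ P _ (lp_mono (fun T _ => ?_) h2)
    unfold mF
    split_ifs with h5
    · rw [mR_top]
      rw [map_trn, hφf] at h5
      exact sf_forced ((Pool.Agent.Q149.QT.sf_trans _ _ _).2 h5)
    · exact bot_le

end Pool.Agent.H940.E
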