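import Pool.Agent.H940.Z.Whi
import Pool.Graph.R_pool_sql_team_seeded_3997aac3.Q57.MD.RRoot2

set_option autoImplicit false
set_option linter.unusedSectionVars false
set_option linter.unusedVariables false

/-! # The roots of a weighted homogeneous polynomial at all points are roots at the origin -/

namespace Pool.Agent.H940.E

open MvPolynomial Pool.Agent.Y229 Pool.Agent.Q57.MC Pool.Agent.Q57.MD
open Pool.Agent.W574.LM (IsLocEq)
open Pool.Agent.H628R4.TP (weylS)
open Pool.Agent.W574.SM (applyAt weyl)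

section

variable {σ : Type} [Fintype σ] [DecidableEq σ]

/-- the local functional equation of one polynomial -/
theorem locEq1_of (H F : MvPolynomial σ ℂ) (b : Polynomial ℂ) (P : ℕ →₀ weylS σ)
    (hP : ∀ s : ℕ, H * (C (b.eval (s : ℂ)) * F ^ s) =
      P.sum fun m Q => ((s : ℂ) ^ m) • (Q : Module.End ℂ (MvPolynomial σ ℂ)) (F ^ (s + 1))) :
    IsLocEq H (fun _ : Fin 1 => F) b := by
  classical
  obtain ⟨P2, hP2⟩ : ∃ P2 : ℕ →₀ weyl σ, ∀ s : ℕ, H * (C (b.eval (s : ℂ)) * F ^ s) =
      P2.sum fun m Q => ((s : ℂ) ^ m) • (Q : Module.End ℂ (MvPolynomial σ ℂ)) (F ^ (s + 1)) :=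
    ⟨P, hP⟩
  refine ⟨{fun _ => 1}, fun _ => P2.mapDomain fun m => Finsupp.single 0 m, fun c hc => ?_,
    fun s => ?_⟩
  · rw [Finset.mem_singleton.1 hc, Fin.sum_univ_one]
  · rw [Finset.sum_singleton, Fin.sum_univ_one, Fin.prod_univ_one, hP2 (s 0), applyAt,
      Finsupp.sum_mapDomain_index (fun m => by simp) (fun m Q Q' => by
        rw [← smul_add]; rfl)]
    refine Finsupp.sum_congr fun m _ => ?_
    rw [Fin.prod_univ_one, Fin.prod_univ_one, Fin.prod_univ_one, Finsupp.single_eq_same]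
    beta_reduce
    rw [if_neg (by norm_num), Nat.cast_one, map_one, one_mul]
    congr 3

/-- scalings of weighted homogeneous polynomials -/
theorem scl_wh (w : σ → ℕ) (l : ℂ) {f : MvPolynomial σ ℂ} {d : ℕ}
    (hf : f.IsWeightedHomogeneous w d) : scl (fun i => l ^ w i) f = C (l ^ d) * f := by
  conv_lhs => rw [f.as_sum]
  conv_rhs => rw [f.as_sum]
  rw [map_sum, Finset.mul_sum]
  refine Finset.sum_congr rfl fun α hα => ?_
  have h1 := hf (mem_support_iff.1 hα)
  rw [Finsupp.weight_apply, Finsupp.sum_fintype _ _ (by simp)] at h1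
  rw [scl, aeval_monomial, algebraMap_eq, C_mul_monomial, ← h1]
  have h2 : (α.prod fun i e => (C (l ^ w i) * X i : MvPolynomial σ ℂ) ^ e) =
      C (l ^ ∑ i, α i • w i) * monomial α 1 := by
    rw [Finsupp.prod_fintype _ _ (by simp)]
    simp only [mul_pow]
    rw [Finset.prod_mul_distrib, monomial_eq, C_1, one_mul, Finsupp.prod_fintype _ _ (by simp)]
    congr 1
    rw [← Finset.prod_pow_eq_pow_sum, map_prod]
    refine Finset.prod_congr rfl fun i _ => ?_
    rw [← map_pow, ← pow_mul, smul_eq_mul, mul_comm]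
  rw [h2, C_mul_monomial, C_mul_monomial, mul_one, mul_comm]

theorem eval_scl (c : σ → ℂ) (p : σ → ℂ) (H : MvPolynomial σ ℂ) :
    eval p (scl c H) = eval (fun i => c i * p i) H := by
  have h1 : (eval p).comp (scl c : MvPolynomial σ ℂ →ₐ[ℂ] MvPolynomial σ ℂ).toRingHom =
      eval (fun i => c i * p i) := by
    apply ringHom_ext
    · intro a
      simp [scl]
    · intro i
      simp [scl]
  exact RingHom.congr_fun h1 H

/-- **The roots at a point are roots at the origin.** -/
theorem sf_wline (w : σ → ℕ) (hw : ∀ i, 0 < w i) {f : MvPolynomial σ ℂ} {d : ℕ}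
    (hf : f.IsWeightedHomogeneous w d) (hf0 : f ≠ 0) (p : σ → ℂ) (α : ℂ)
    (h : SF (fun _ : Fin 1 => f) p α) : SF (fun _ : Fin 1 => f) 0 α := by
  classical
  refine sf_of_local _ 0 α (fun H b hb hH => ?_) (exists_fe _ ⟨0, hf0⟩)
  obtain ⟨P, hP⟩ := eq_of_locEq1 H _ b hb
  -- a point of the curve at which `H` does not vanish
  set G : Polynomial ℂ := aeval (fun i => Polynomial.C (p i) * Polynomial.X ^ w i) H with hG
  have hGe : ∀ l : ℂ, G.eval l = eval (fun i => l ^ w i * p i) H := by
    intro l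
    have h1 : (Polynomial.evalRingHom l).comp
        ((aeval (fun i => Polynomial.C (p i) * Polynomial.X ^ w i) :
          MvPolynomial σ ℂ →ₐ[ℂ] Polynomial ℂ) : MvPolynomial σ ℂ →+* Polynomial ℂ) =
        eval (fun i => l ^ w i * p i) := by
      refine ringHom_ext (fun a => ?_) fun i => ?_
      · rw [RingHom.comp_apply, eval_C]
        change Polynomial.eval l (aeval _ (C a)) = a
        rw [aeval_C]
        exact Polynomial.eval_C
      · rw [RingHom.comp_apply, eval_X]
        change Polynomial.eval l (aeval _ (X i)) = _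
        rw [aeval_X, Polynomial.eval_mul, Polynomial.eval_C, Polynomial.eval_pow,
          Polynomial.eval_X, mul_comm]
    exact congrArg (fun φ : MvPolynomial σ ℂ →+* ℂ => φ H) h1
  have hG0 : G * Polynomial.X ≠ 0 := by
    refine mul_ne_zero (fun h0 => hH ?_) Polynomial.X_ne_zero
    have h1 := hGe 0
    rw [h0, Polynomial.eval_zero] at h1
    rw [h1]
    congr 2
    funext i
    rw [zero_pow (hw i).ne', zero_mul]
    rfl
  obtain ⟨l, hl⟩ : ∃ l : ℂ, (G * Polynomial.X).eval l ≠ 0 := by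
    by_contra hcon
    push Not at hcon
    exact hG0 (Polynomial.funext fun l => by rw [hcon l, Polynomial.eval_zero])
  rw [Polynomial.eval_mul, Polynomial.eval_X, hGe] at hl
  have hl0 : l ≠ 0 := right_ne_zero_of_mul hl
  set c : σ → ℂ := fun i => l ^ w i with hc
  have hc0 : ∀ i, c i ≠ 0 := fun i => pow_ne_zero _ hl0
  choose Qc hQc1 hQc2 using fun m => conj_mem c hc0 (P m : Module.End ℂ (MvPolynomial σ ℂ)) (P m).2
  set P' : ℕ →₀ weylS σ := ∑ m ∈ P.support, Finsupp.single m (l ^ d • ⟨Qc m, hQc1 m⟩) with hP'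
  refine h.locEq (scl c H) b (locEq1_of _ _ _ P' fun s => ?_) ?_
  · have h1 := congrArg (scl c) (hP s)
    rw [map_mul, map_mul, map_pow, scl_wh w l hf] at h1
    have h2 : scl c (C (b.eval (s : ℂ))) = C (b.eval (s : ℂ)) := (scl c).commutes _
    rw [h2, Finsupp.sum, map_sum] at h1
    have h3 : ∀ m, scl c (((s : ℂ) ^ m) • (P m : Module.End ℂ (MvPolynomial σ ℂ)) (f ^ (s + 1))) =
        C ((l ^ d) ^ s) * (((s : ℂ) ^ m) • (l ^ d • Qc m) (f ^ (s + 1))) := by
      intro m
      rw [map_smul, hQc2, map_pow, scl_wh w l hf, mul_pow, ← map_pow, ← smul_eq_C_mul, map_smul,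
        LinearMap.smul_apply, ← smul_eq_C_mul, smul_smul, smul_smul, smul_smul]
      congr 1
      ring
    rw [Finset.sum_congr rfl fun m _ => h3 m, ← Finset.mul_sum, mul_pow, ← map_pow] at h1
    have h4 : P'.sum (fun m Q => ((s : ℂ) ^ m) • (Q : Module.End ℂ (MvPolynomial σ ℂ))
        (f ^ (s + 1))) = ∑ m ∈ P.support, ((s : ℂ) ^ m) • (l ^ d • Qc m) (f ^ (s + 1)) := by
      rw [hP']
      have h5 : ∀ S : Finset ℕ, (∑ m ∈ S, Finsupp.single m
          (l ^ d • (⟨Qc m, hQc1 m⟩ : weylS σ))).sum (fun m Q => ((s : ℂ) ^ m) •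
            (Q : Module.End ℂ (MvPolynomial σ ℂ)) (f ^ (s + 1))) =
          ∑ m ∈ S, ((s : ℂ) ^ m) • (l ^ d • Qc m) (f ^ (s + 1)) := by
        intro S
        induction S using Finset.induction_on with
        | empty => rw [Finset.sum_empty, Finset.sum_empty, Finsupp.sum_zero_index]
        | insert a S ha ih =>
          rw [Finset.sum_insert ha, Finset.sum_insert ha,
            Finsupp.sum_add_index' (fun m => by simp) (fun m Q Q' => by
              rw [← smul_add]; rfl), ih, Finsupp.sum_single_index (by simp)]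
          rfl
      exact h5 _
    rw [h4]
    have h6 : (C ((l ^ d) ^ s) : MvPolynomial σ ℂ) ≠ 0 := by
      rw [Ne, C_eq_zero]
      exact pow_ne_zero _ (pow_ne_zero _ hl0)
    apply mul_left_cancel₀ h6
    rw [← h1]
    ring
  · rw [eval_scl]
    exact left_ne_zero_of_mul hl

end

end Pool.Agent.H940.E
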