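import Pool.Agent.H940.E.Coo
import Pool.Agent.H940.E.WLine
import Pool.Agent.H940.S.Final

set_option autoImplicit false
set_option linter.unusedSectionVars false
set_option linter.unusedVariables false

/-! # The integrals and the roots of the germs of the class -/

namespace Pool.Agent.H940.E

open MeasureTheory MvPolynomial Topology
open Pool.Agent.H940.R Pool.Agent.H940.S
open Pool.Agent.W427.SMC Pool.Agent.Y230.PS Pool.Agent.Q57.QP
open Pool.Agent.Y230.PT hiding CO
open Pool.Agent.Q66.QP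
open Pool.Agent.Y229 (SF exists_fe sf_of_local)
open Pool.Agent.Q57.MD (transfer_formal sf_of_transf Transf ne_of_transf sf_mulF elim_zero')
open Pool.Agent.Q57.MC (sf_iff eq_of_locEq1)
open Pool.Agent.W574.LM (IsLocEq)
open Pool.Agent.H940.G (whi)
open Pool.Agent.H940.Z (sf_neg_one euler_w)
open Pool.Agent.H940.LT (LTy LinI linF root_or_field' kill_of dv)
open scoped ENNReal

attribute [local instance] msK bsK msZ bsZ

variable {p : ℕ} [Fact p.Prime] {n : ℕ} (φ : ℚ_[p] →+* ℂ)

/-- the germ is good -/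
def Good (h : MvPolynomial (Fin n) ℚ_[p]) : Prop :=
  h ≠ 0 ∧ LP (mF p (map φ h)) (fun x => ‖eval x h‖) 0

theorem map_ne {h : MvPolynomial (Fin n) ℚ_[p]} (hh : h ≠ 0) : map φ h ≠ 0 := fun h0 =>
  hh ((map_eq_zero_iff _ (map_injective _ φ.injective)).1 h0)

theorem ne_of_map {h : MvPolynomial (Fin n) ℚ_[p]} (hh : map φ h ≠ 0) : h ≠ 0 := by
  rintro rfl
  exact hh (map_zero _)

theorem mF_mono {F : MvPolynomial (Fin n) ℂ} {c : ℕ} {G : MvPolynomial (Fin c) ℂ}
    (h : ∀ α, SF (fun _ : Fin 1 => F) 0 α → SF (fun _ : Fin 1 => G) 0 α) (T : ℂ) :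
    mF p F T ≤ mF p G T := by
  unfold mF
  split_ifs with h1 h2 h3
  · exact le_rfl
  · exact absurd (h _ h1) h2
  · exact bot_le
  · exact le_rfl

theorem good_unit (h : MvPolynomial (Fin n) ℚ_[p]) (h0 : constantCoeff h ≠ 0) : Good φ h := by
  refine ⟨fun h1 => h0 (by rw [h1, map_zero]), ?_⟩
  refine Pool.Agent.Q261.QP.qp_unit p _ (siz_ev h) _ 0 ?_
  rw [eval_zero]
  exact norm_ne_zero_iff.2 h0

theorem m1_le {h : MvPolynomial (Fin n) ℚ_[p]} (hh : h ≠ 0) (h0 : constantCoeff h = 0) (T : ℂ) :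
    m1 p T ≤ mF p (map φ h) T := by
  unfold m1
  split_ifs with h1
  · rw [mF_top]
    · exact le_top
    · rw [h1, rr_self]
      have := sf_neg_one (map φ h) (map_ne φ hh) 0 (by
        rw [eval_zero, constantCoeff_map, h0, map_zero])
      simpa using this
  · exact bot_le

theorem good_plane (h : MvPolynomial (Fin 2) ℚ_[p]) (h0 : h ≠ 0) : Good φ h := by
  classical
  refine ⟨h0, ?_⟩
  have h1 := st_plane p φ (fun _ : Fin 1 => h) ⟨0, h0⟩ 0
  unfold LPF at h1
  have h3 : nrm (fun _ : Fin 1 => h) = fun x => ‖eval x h‖ := by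
    funext x
    unfold nrm
    exact pi_norm_const _
  rw [h3] at h1
  refine lp_mono (fun T _ => ?_) h1
  unfold mS mF
  have h4 : (fun i => φ ((0 : Fin 2 → ℚ_[p]) i)) = 0 := by
    funext i
    simp
  rw [h4]

/-- the root of an isolated singularity -/
theorem sf_iso (hn : 0 < n) {F g : MvPolynomial (Fin n) ℂ} {w : Fin n → ℕ} {N : ℕ}
    {η : Fin n → MvPowerSeries (Fin n) ℂ} (H : WHK F g w N η) (h0 : constantCoeff F = 0)
    (h1 : ∀ t, constantCoeff (pderiv t F) = 0) :
    F ≠ 0 ∧ SF (fun _ : Fin 1 => F) 0 (-((∑ i, w i : ℕ) : ℂ) / N) := by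
  classical
  have H' := whk_map (RingHom.id ℂ) H
  rw [map_id, map_id] at H'
  have hW := whi H' h0 h1
  have hne' : ∃ j : Fin 1, (fun _ : Fin 1 => g) j ≠ 0 := ⟨0, hW.ne hn⟩
  have hT : Transf (fun _ : Fin 1 => F) (fun _ : Fin 1 => g) 0 :=
    transfer_formal (fun _ : Fin 1 => F) (fun _ : Fin 1 => g) _ id H'.cc H'.det (by
      rw [Set.range_const, Set.range_const]
      exact H'.gen)
  obtain ⟨j, hj⟩ := ne_of_transf _ _ 0 hT hne'
  exact ⟨hj, sf_of_transf _ _ 0 hT hne' _ ((sf_iff _ hne' _).1 (hW.sf hn))⟩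

theorem good_iso (hn : 0 < n) (h : MvPolynomial (Fin n) ℚ_[p]) {g : MvPolynomial (Fin n) ℂ}
    {w : Fin n → ℕ} {N : ℕ} {η : Fin n → MvPowerSeries (Fin n) ℂ} (H : WHK (map φ h) g w N η) :
    Good φ h := by
  classical
  by_cases h0 : constantCoeff h = 0
  swap
  · exact good_unit φ h h0
  by_cases h1 : ∃ t, constantCoeff (pderiv t h) ≠ 0
  · have hh : h ≠ 0 := by
      rintro rfl
      obtain ⟨t, ht⟩ := h1
      rw [map_zero, map_zero] at ht
      exact ht rfl
    refine ⟨hh, lp_mono (fun T _ => m1_le φ hh h0 T) (lp_smooth h 0 (Or.inr ?_))⟩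
    obtain ⟨t, ht⟩ := h1
    exact ⟨t, by rw [eval_zero]; exact ht⟩
  · push Not at h1
    have h0' : constantCoeff (map φ h) = 0 := by rw [constantCoeff_map, h0, map_zero]
    have h1' : ∀ t, constantCoeff (pderiv t (map φ h)) = 0 := by
      intro t
      rw [pderiv_map, constantCoeff_map, h1, map_zero]
    obtain ⟨hne, hroot⟩ := sf_iso hn H h0' h1'
    have hh := ne_of_map φ hne
    obtain ⟨w', N', hw', hN', hτ, hL⟩ := lp_sing φ hn h0' h1' H
    refine ⟨hh, hL _ fun T hT => ?_⟩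
    have hwpos : 0 < ∑ i, w' i := Finset.sum_pos (fun i _ => hw' i) ⟨⟨0, hn⟩, Finset.mem_univ _⟩
    by_cases h2 : T ^ N' = (p : ℂ) ^ (∑ i, w' i)
    · rw [mF_top]
      · exact le_top
      · rw [rr_ratio _ _ hwpos hN' T h2]
        have h3 : -((∑ i, w' i : ℕ) : ℂ) / N' = -((∑ i, w i : ℕ) : ℂ) / N := by
          rw [neg_div, neg_div, neg_inj]
          have h4 := congrArg (fun q : ℚ => (q : ℂ)) hτ
          push_cast at h4 ⊢
          exact h4
        rw [h3]
        exact hroot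
    · rw [if_neg h2, zero_add]
      exact m1_le φ hh h0 T

theorem good_coords {c : ℕ} {h : MvPolynomial (Fin n) ℚ_[p]} {g : MvPolynomial (Fin c) ℚ_[p]}
    (H : InCoords h g) (hg : Good φ g) : Good φ h := by
  refine ⟨ne_of_map φ ?_, lp_mono (fun T _ => mF_mono (fun α => sf_coo φ H hg.1 α) T)
    (lp_coo H _ hg.2)⟩
  exact ne_coo φ H hg.1

theorem good_mul {n' : ℕ} {f : MvPolynomial (Fin n) ℚ_[p]} {g : MvPolynomial (Fin n') ℚ_[p]}
    (hf : Good φ f) (hg : Good φ g) :
    Good φ (rename (Fin.castAdd n') f * rename (Fin.natAdd n) g) := by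
  classical
  have e : map φ (rename (Fin.castAdd n') f * rename (Fin.natAdd n) g) =
      rename (Fin.castAdd n') (map φ f) * rename (Fin.natAdd n) (map φ g) := by
    rw [map_mul, map_rename, map_rename]
  have hSF : ∀ α, (SF (fun _ : Fin 1 => map φ f) 0 α ∨ SF (fun _ : Fin 1 => map φ g) 0 α) →
      SF (fun _ : Fin 1 => map φ (rename (Fin.castAdd n') f * rename (Fin.natAdd n) g)) 0 α := by
    intro α h
    have h1 := sf_mulF (fun _ : Fin 1 => map φ f) (fun _ : Fin 1 => map φ g)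
      ⟨0, map_ne φ hf.1⟩ ⟨0, map_ne φ hg.1⟩ 0 0 α h
    rw [elim_zero'] at h1
    rw [e]
    exact h1
  refine ⟨?_, ?_⟩
  · refine mul_ne_zero ?_ ?_
    · rw [Ne, map_eq_zero_iff _ (rename_injective _ (Fin.castAdd_injective _ _))]
      exact hf.1
    · rw [Ne, map_eq_zero_iff _ (rename_injective _ (Fin.natAdd_injective _ _))]
      exact hg.1
  · have h1 := st_mul p (fun x => ‖eval x f‖) (fun x => ‖eval x g‖) 0 (mF p (map φ f))
      (mF p (map φ g)) (mF p (map φ (rename (Fin.castAdd n') f * rename (Fin.natAdd n) g)))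
      (siz_ev f) (siz_ev g) (fun T _ => ?_) hf.2 hg.2
    · have h2 : (fun x : Fin (n + n') → ℚ_[p] => ‖eval (fun i => x (Fin.castAdd n' i)) f‖ *
          ‖eval (fun i => x (Fin.natAdd n i)) g‖) =
          fun x => ‖eval x (rename (Fin.castAdd n') f * rename (Fin.natAdd n) g)‖ := by
        funext x
        rw [map_mul, norm_mul, eval_rename, eval_rename]
        rfl
      rw [h2] at h1
      exact h1
    · by_cases h2 : SF (fun _ : Fin 1 => map φ f) 0 ((rr p T : ℝ) : ℂ) ∨
          SF (fun _ : Fin 1 => map φ g) 0 ((rr p T : ℝ) : ℂ)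
      · rw [mF_top (hSF _ h2)]
        exact le_top
      · rw [not_or] at h2
        have h3 : mF p (map φ f) T = 0 := by
          unfold mF
          rw [if_neg h2.1]
        have h4 : mF p (map φ g) T = 0 := by
          unfold mF
          rw [if_neg h2.2]
        rw [h3, h4, add_zero]
        exact bot_le

end Pool.Agent.H940.E
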