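import Pool.Agent.H940.S.Diag
import Mathlib.RingTheory.MvPolynomial.EulerIdentity

set_option autoImplicit false
set_option linter.unusedSectionVars false
set_option linter.unusedVariables false

/-! # Graded coordinates in which an averaged vector field is diagonal -/

namespace Pool.Agent.H940.E

open MvPolynomial Pool.Agent.H940.R Pool.Agent.H940.S
open Pool.Agent.H940.R.LK (El coeff_El trace_eig)

variable {K : Type} [Field K] {n : ℕ}

/-- graded linear maps commute with the components -/
theorem gr_linear (w : Fin n → ℕ) (T : MvPolynomial (Fin n) K →ₗ[K] MvPolynomial (Fin n) K)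
    (hT : ∀ (α : Fin n →₀ ℕ) (c : K), (T (monomial α c)).IsWeightedHomogeneous w
      (Finsupp.weight w α)) (m : ℕ) (F : MvPolynomial (Fin n) K) :
    weightedHomogeneousComponent w m (T F) = T (weightedHomogeneousComponent w m F) := by
  classical
  induction F using MvPolynomial.induction_on' with
  | monomial α c =>
    have h0 := isWeightedHomogeneous_monomial w α c rfl
    by_cases h : Finsupp.weight w α = m
    · subst h
      rw [(hT α c).weightedHomogeneousComponent_same, h0.weightedHomogeneousComponent_same]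
    · rw [(hT α c).weightedHomogeneousComponent_ne _ (Ne.symm h),
        h0.weightedHomogeneousComponent_ne _ (Ne.symm h), map_zero]
  | add p q hp hq => rw [map_add, map_add, map_add, map_add, hp, hq]

theorem vf_gr (w : Fin n → ℕ) {D : Fin n → MvPolynomial (Fin n) K}
    (hD : ∀ t, (D t).IsWeightedHomogeneous w (w t)) (m : ℕ) (F : MvPolynomial (Fin n) K) :
    weightedHomogeneousComponent w m (vf D F) = vf D (weightedHomogeneousComponent w m F) := by
  classical
  refine gr_linear w (vf D) (fun α c => ?_) m F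
  rw [vf_apply]
  refine IsWeightedHomogeneous.sum _ _ _ fun t _ => ?_
  rw [pderiv_monomial]
  by_cases h : α t = 0
  · rw [h, Nat.cast_zero, mul_zero, monomial_zero, mul_zero]
    exact isWeightedHomogeneous_zero _ _ _
  · have h1 : α = (α - Finsupp.single t 1) + Finsupp.single t 1 := by
      rw [tsub_add_cancel_of_le]
      rw [Finsupp.single_le_iff]
      omega
    have h2 : Finsupp.weight w α = w t + Finsupp.weight w (α - Finsupp.single t 1) := by
      conv_lhs => rw [h1]
      rw [map_add, Finsupp.weight_single, one_smul, add_comm]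
    rw [h2]
    exact (hD t).mul (isWeightedHomogeneous_monomial w _ _ rfl)

theorem aeval_wh (w : Fin n → ℕ) {y : Fin n → MvPolynomial (Fin n) K}
    (hy : ∀ t, (y t).IsWeightedHomogeneous w (w t)) (α : Fin n →₀ ℕ) (c : K) :
    (aeval y (monomial α c)).IsWeightedHomogeneous w (Finsupp.weight w α) := by
  rw [aeval_monomial, Finsupp.prod_fintype _ _ (by simp), algebraMap_eq, Finsupp.weight_apply,
    Finsupp.sum_fintype _ _ (by simp)]
  have h1 := (isWeightedHomogeneous_C w c).mul (IsWeightedHomogeneous.prod Finset.univ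
    (fun i => y i ^ α i) (fun i => α i • w i) fun i _ => (hy i).pow (α i))
  rwa [zero_add] at h1

theorem aeval_gr (w : Fin n → ℕ) {y : Fin n → MvPolynomial (Fin n) K}
    (hy : ∀ t, (y t).IsWeightedHomogeneous w (w t)) (m : ℕ) (F : MvPolynomial (Fin n) K) :
    weightedHomogeneousComponent w m (aeval y F) = aeval y (weightedHomogeneousComponent w m F) :=
  gr_linear w (aeval y).toLinearMap (aeval_wh w hy) m F

/-- the image of a weighted homogeneous polynomial -/
theorem aeval_whF (w : Fin n → ℕ) {y : Fin n → MvPolynomial (Fin n) K}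
    (hy : ∀ t, (y t).IsWeightedHomogeneous w (w t)) {d : ℕ} {F : MvPolynomial (Fin n) K}
    (hF : F.IsWeightedHomogeneous w d) : (aeval y F).IsWeightedHomogeneous w d := by
  have h1 := aeval_gr w hy d F
  rw [hF.weightedHomogeneousComponent_same] at h1
  rw [← h1]
  exact weightedHomogeneousComponent_isWeightedHomogeneous _ _

theorem deg_le_weight (w : Fin n → ℕ) (hw : ∀ i, 0 < w i) (α : Fin n →₀ ℕ) :
    α.degree ≤ Finsupp.weight w α := by
  rw [Finsupp.degree_eq_sum, Finsupp.weight_apply, Finsupp.sum_fintype _ _ (by simp)]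
  refine Finset.sum_le_sum fun i _ => ?_
  rw [smul_eq_mul]
  exact Nat.le_mul_of_pos_right _ (hw i)

/-- weighted homogeneous polynomials of small degree in the ideal `𝔪 ^ k` -/
theorem wh_zero (w : Fin n → ℕ) (hw : ∀ i, 0 < w i) {d k : ℕ} (hdk : d < k)
    {F : MvPolynomial (Fin n) K} (hF : F.IsWeightedHomogeneous w d) (h : F ∈ wI K 1 k) : F = 0 := by
  ext α
  rw [coeff_zero]
  by_contra hc
  apply hc
  refine h α ?_
  rw [weight_degree]
  have h1 := hF hc
  have h2 := deg_le_weight w hw α
  omega

theorem cp_mem (w : Fin n → ℕ) (m k : ℕ) {F : MvPolynomial (Fin n) K} (h : F ∈ wI K 1 k) :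
    weightedHomogeneousComponent w m F ∈ wI K 1 k := by
  classical
  intro α hα
  rw [coeff_weightedHomogeneousComponent]
  split_ifs
  · exact h α hα
  · rfl

theorem wh_cc (w : Fin n → ℕ) {d : ℕ} (hd : 0 < d) {F : MvPolynomial (Fin n) K}
    (hF : F.IsWeightedHomogeneous w d) : constantCoeff F = 0 := by
  by_contra hc
  have h1 := hF (d := 0) hc
  rw [map_zero] at h1
  omega

theorem det_comp (c y : Fin n → MvPolynomial (Fin n) K) (hy : ∀ t, constantCoeff (y t) = 0)
    (h : ∀ t, aeval y (c t) = X t) : (jk c).det ≠ 0 := by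
  classical
  have h1 : jk c * jk y = 1 := by
    ext t s
    have h2 := congrArg (fun F => constantCoeff (pderiv s F)) (h t)
    beta_reduce at h2
    rw [pderiv_aeval, map_sum] at h2
    rw [Matrix.mul_apply]
    have h3 : ∀ r, jk c t r * jk y r s =
        constantCoeff (aeval y (pderiv r (c t)) * pderiv s (y r)) := by
      intro r
      rw [map_mul, cc_aeval y hy]
      rfl
    rw [Finset.sum_congr rfl fun r _ => h3 r, h2, pderiv_X, Matrix.one_apply]
    by_cases hts : t = s
    · subst hts
      rw [Pi.single_eq_same, if_pos rfl, map_one]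
    · rw [Pi.single_eq_of_ne hts, if_neg hts, map_zero]
  intro h2
  have h3 := congrArg Matrix.det h1
  rw [Matrix.det_mul, h2, zero_mul, Matrix.det_one] at h3
  exact zero_ne_one h3

/-- **Graded inverse coordinates.** -/
theorem exists_ginv (w : Fin n → ℕ) (hw : ∀ i, 0 < w i) (y : Fin n → MvPolynomial (Fin n) K)
    (hy : ∀ t, (y t).IsWeightedHomogeneous w (w t)) (hdet : (jk y).det ≠ 0) :
    ∃ c : Fin n → MvPolynomial (Fin n) K, (∀ t, (c t).IsWeightedHomogeneous w (w t)) ∧
      (jk c).det ≠ 0 ∧ ∀ t, aeval y (c t) = X t := by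
  classical
  obtain ⟨k, hk2, hk⟩ : ∃ k, 2 ≤ k ∧ ∀ t, w t < k :=
    ⟨2 + ∑ i, w i, by omega, fun t => by
      have := Finset.single_le_sum (f := w) (fun _ _ => Nat.zero_le _) (Finset.mem_univ t)
      omega⟩
  obtain ⟨c, hc, hcd, -, hyc⟩ := exists_inv2 y (fun t => wh_cc w (hw t) (hy t)) hdet k hk2
  have hinv : ∀ t, aeval y (weightedHomogeneousComponent w (w t) (c t)) = X t := by
    intro t
    rw [← aeval_gr w hy, ← sub_eq_zero]
    have hX : (X t : MvPolynomial (Fin n) K).IsWeightedHomogeneous w (w t) :=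
      isWeightedHomogeneous_X K w t
    have h1 := cp_mem w (w t) k (hyc t)
    rw [map_sub, hX.weightedHomogeneousComponent_same] at h1
    refine wh_zero w hw (hk t) ?_ h1
    exact (weightedHomogeneousComponent_isWeightedHomogeneous _ _).sub hX
  refine ⟨fun t => weightedHomogeneousComponent w (w t) (c t), fun t =>
    weightedHomogeneousComponent_isWeightedHomogeneous _ _, ?_, hinv⟩
  exact det_comp _ y (fun t => wh_cc w (hw t) (hy t)) hinv

/-- both compositions -/
theorem exists_ginv2 (w : Fin n → ℕ) (hw : ∀ i, 0 < w i) (y : Fin n → MvPolynomial (Fin n) K)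
    (hy : ∀ t, (y t).IsWeightedHomogeneous w (w t)) (hdet : (jk y).det ≠ 0) :
    ∃ c : Fin n → MvPolynomial (Fin n) K, (∀ t, (c t).IsWeightedHomogeneous w (w t)) ∧
      (∀ t, aeval y (c t) = X t) ∧ ∀ t, aeval c (y t) = X t := by
  obtain ⟨c, hc, hcd, hyc⟩ := exists_ginv w hw y hy hdet
  obtain ⟨e, he, -, hce⟩ := exists_ginv w hw c hc hcd
  refine ⟨c, hc, hyc, fun t => ?_⟩
  have h1 : ∀ F, aeval y (aeval c F) = F := by
    intro F
    rw [aeval_aeval]
    have : (fun t => aeval y (c t)) = (X : Fin n → MvPolynomial (Fin n) K) := funext hyc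
    rw [this, aeval_X_left, AlgHom.id_apply]
  have h2 : y t = e t := by
    rw [← h1 (e t), hce, aeval_X]
  rw [h2, hce]

end Pool.Agent.H940.E
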