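import Pool.Agent.H940.E.Wh

set_option autoImplicit false
set_option linter.unusedSectionVars false
set_option linter.unusedVariables false

/-! # The class of the theorem -/

namespace Pool.Agent.H940.E

open MvPolynomial
open Pool.Agent.H940.R Pool.Agent.H940.S
open Pool.Agent.W427.SMC Pool.Agent.Y230.PS Pool.Agent.Q57.QP
open Pool.Agent.Y230.PT hiding CO
open Pool.Agent.Q66.QP

variable {p : ℕ} [Fact p.Prime]

theorem germ_grm (φ : ℚ_[p] →+* ℂ) {n : ℕ} {h : MvPolynomial (Fin n) ℚ_[p]}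
    (H : Germ p φ n h) : Grm p φ n h := by
  induction H with
  | unit h h0 => exact Grm.unit h h0
  | plane h h0 => exact Grm.plane h h0
  | iso hn h g w N η hW => exact Grm.iso hn h g w N η hW
  | qhom f hf0 w hw d hd hf hS P => exact grm_qhom φ hf0 hw hd hf hS P
  | cone f hf0 w hw d hd hf hL hP ih => exact Grm.cone f hf0 w hw d hd hf hL ih
  | slice f w hw d hf i P hP h ih => exact grm_slice φ w hw hf i P hP ih
  | mul f g hf hg ihf ihg => exact Grm.mul f g ihf ihg
  | pow h k hk hh ih => exact Grm.pow h k hk ih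
  | coords h g hc hg ih => exact Grm.coords h g hc ih
  | pull h b hb hdet hh ih => exact Grm.pull h b hb hdet ih

/-- **The real parts of the poles are roots.** -/
theorem germ_ZR {n : ℕ} (f : MvPolynomial (Fin n) ℚ) (hf0 : f ≠ 0) (φ : ℚ_[p] →+* ℂ)
    (H : ∀ P : Fin n → ℚ_[p], (∀ i, ‖P i‖ ≤ 1) → eval P (map (algebraMap ℚ ℚ_[p]) f) = 0 →
      Germ p φ n (trn P (map (algebraMap ℚ ℚ_[p]) f))) :
    Pool.Agent.T6.H26.ZR p false (hyp f) :=
  grm_ZR f hf0 φ fun P hP h0 => germ_grm φ (H P hP h0)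

end Pool.Agent.H940.E
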