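import Pool.Agent.H940.E.Pull

set_option autoImplicit false
set_option linter.unusedSectionVars false
set_option linter.unusedVariables false

/-! # Powers -/

namespace Pool.Agent.H940.E

open MeasureTheory MvPolynomial Topology
open Pool.Agent.H940.R Pool.Agent.H940.S
open Pool.Agent.W427.SMC Pool.Agent.Y230.PS Pool.Agent.Q57.QP
open Pool.Agent.Y230.PT hiding CO
open Pool.Agent.Y229 (SF exists_fe sf_of_local eval_mapC)
open Pool.Agent.Q57.MC (sf_iff eq_of_locEq1 localBI_one)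
open Pool.Agent.W574.LM (IsLocEq)
open Pool.Agent.W574.RO (mulLeft_memW)
open Pool.Agent.H628R4.TP (weylS IsLocalBFunction)
open scoped ENNReal

attribute [local instance] msK bsK msZ bsZ

section alg

variable {σ : Type} {F : MvPolynomial σ ℂ} {g g' : ℕ → MvPolynomial σ ℂ}

/-- `F ^ M g(t) = R(t) F ^ t` -/
def Pg (F : MvPolynomial σ ℂ) (g : ℕ → MvPolynomial σ ℂ) : Prop :=
  ∃ (M : ℕ) (R : Polynomial (MvPolynomial σ ℂ)), ∀ t : ℕ,
    F ^ M * g t = R.eval (C (t : ℂ)) * F ^ t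

theorem Pg.add (h : Pg F g) (h' : Pg F g') : Pg F fun t => g t + g' t := by
  obtain ⟨M, R, hR⟩ := h
  obtain ⟨M', R', hR'⟩ := h'
  refine ⟨M + M', Polynomial.C (F ^ M') * R + Polynomial.C (F ^ M) * R', fun t => ?_⟩
  rw [Polynomial.eval_add, Polynomial.eval_mul, Polynomial.eval_mul, Polynomial.eval_C,
    Polynomial.eval_C, add_mul, mul_assoc, mul_assoc, ← hR t, ← hR' t]
  ring

theorem Pg.mul_poly (h : Pg F g) (B : Polynomial (MvPolynomial σ ℂ)) :
    Pg F fun t => B.eval (C (t : ℂ)) * g t := by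
  obtain ⟨M, R, hR⟩ := h
  refine ⟨M, B * R, fun t => ?_⟩
  rw [Polynomial.eval_mul, mul_assoc, ← hR t]
  ring

theorem Pg.mul (h : Pg F g) (u : MvPolynomial σ ℂ) : Pg F fun t => u * g t := by
  obtain ⟨M, R, hR⟩ := h
  refine ⟨M, Polynomial.C u * R, fun t => ?_⟩
  rw [Polynomial.eval_mul, Polynomial.eval_C, mul_assoc, ← hR t]
  ring

theorem Pg.self : Pg F fun t => F ^ t :=
  ⟨0, 1, fun t => by rw [Polynomial.eval_one, pow_zero]⟩

theorem Pg.zero : Pg F fun _ => 0 :=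
  ⟨0, 0, fun t => by rw [Polynomial.eval_zero, mul_zero, zero_mul]⟩

theorem Pg.sum {ι : Type} (s : Finset ι) (G : ι → ℕ → MvPolynomial σ ℂ)
    (h : ∀ i ∈ s, Pg F (G i)) : Pg F fun t => ∑ i ∈ s, G i t := by
  classical
  induction s using Finset.induction_on with
  | empty => simpa using Pg.zero (F := F)
  | insert a s ha ih =>
    have h1 := (h a (Finset.mem_insert_self a s)).add
      (ih fun i hi => h i (Finset.mem_insert_of_mem hi))
    have h2 : (fun t => ∑ i ∈ insert a s, G i t) = fun t => G a t + ∑ i ∈ s, G i t := by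
      funext t
      rw [Finset.sum_insert ha]
    rw [h2]
    exact h1

theorem exists_dR (i : σ) (R : Polynomial (MvPolynomial σ ℂ)) :
    ∃ R' : Polynomial (MvPolynomial σ ℂ), ∀ t : ℕ,
      pderiv i (R.eval (C (t : ℂ))) = R'.eval (C (t : ℂ)) := by
  induction R using Polynomial.induction_on' with
  | add p q hp hq =>
    obtain ⟨p', hp'⟩ := hp
    obtain ⟨q', hq'⟩ := hq
    refine ⟨p' + q', fun t => ?_⟩
    rw [Polynomial.eval_add, Polynomial.eval_add, map_add, hp', hq']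
  | monomial n a =>
    refine ⟨Polynomial.monomial n (pderiv i a), fun t => ?_⟩
    rw [Polynomial.eval_monomial, Polynomial.eval_monomial, ← C_pow, pderiv_mul, pderiv_C,
      mul_zero, add_zero]

theorem F_pderiv_pow (F : MvPolynomial σ ℂ) (i : σ) (t : ℕ) :
    F * pderiv i (F ^ t) = C (t : ℂ) * pderiv i F * F ^ t := by
  rcases t with _ | t
  · rw [pow_zero, pderiv_one, mul_zero, Nat.cast_zero, map_zero, zero_mul, zero_mul]
  · rw [pderiv_pow, Nat.add_sub_cancel, pow_succ, ← map_natCast (C : ℂ →+* MvPolynomial σ ℂ)]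
    ring

theorem Pg.pderiv (h : Pg F g) (i : σ) : Pg F fun t => pderiv i (g t) := by
  obtain ⟨M, R, hR⟩ := h
  obtain ⟨R', hR'⟩ := exists_dR i R
  refine ⟨M + 1, Polynomial.C F * R' + Polynomial.X * Polynomial.C (MvPolynomial.pderiv i F) * R -
    Polynomial.C (C (M : ℂ) * MvPolynomial.pderiv i F) * R, fun t => ?_⟩
  have h1 : F ^ (M + 1) * MvPolynomial.pderiv i (g t) =
      F * MvPolynomial.pderiv i (F ^ M * g t) -
        (F * MvPolynomial.pderiv i (F ^ M)) * g t := by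
    rw [pderiv_mul, pow_succ]
    ring
  have h2 : F * MvPolynomial.pderiv i (R.eval (C (t : ℂ)) * F ^ t) =
      F * MvPolynomial.pderiv i (R.eval (C (t : ℂ))) * F ^ t +
        R.eval (C (t : ℂ)) * (F * MvPolynomial.pderiv i (F ^ t)) := by
    rw [pderiv_mul]
    ring
  rw [h1, hR t, h2, F_pderiv_pow, F_pderiv_pow, hR' t, mul_assoc (C (M : ℂ) * _) (F ^ M) (g t), hR t]
  rw [Polynomial.eval_sub, Polynomial.eval_add, Polynomial.eval_mul, Polynomial.eval_mul,
    Polynomial.eval_mul, Polynomial.eval_mul, Polynomial.eval_C, Polynomial.eval_C,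
    Polynomial.eval_C, Polynomial.eval_X]
  ring

theorem Pg.weyl (h : Pg F g) (Q : Module.End ℂ (MvPolynomial σ ℂ)) (hQ : Q ∈ weylS σ) :
    Pg F fun t => Q (g t) := by
  unfold weylS at hQ
  induction hQ using Algebra.adjoin_induction generalizing g with
  | mem Q hQ =>
    rcases hQ with ⟨i, rfl⟩ | ⟨i, rfl⟩
    · exact h.mul (X i)
    · exact h.pderiv i
  | algebraMap r =>
    have h1 : (fun t => (algebraMap ℂ (Module.End ℂ (MvPolynomial σ ℂ)) r) (g t)) =
        fun t => C r * g t := by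
      funext t
      rw [Module.algebraMap_end_apply, smul_eq_C_mul]
    rw [h1]
    exact h.mul _
  | add Q Q' _ _ ih ih' => exact (ih h).add (ih' h)
  | mul Q Q' _ _ ih ih' => exact ih (ih' h)

theorem Pg.ext (hF : F ≠ 0) (h : Pg F g) {k : ℕ} (hk : k ≠ 0) (h0 : ∀ s, g (k * s) = 0)
    (t : ℕ) : g t = 0 := by
  obtain ⟨M, R, hR⟩ := h
  have hR0 : R = 0 := by
    refine Polynomial.eq_zero_of_infinite_isRoot R (Set.infinite_of_injective_forall_mem
      (f := fun s : ℕ => (C (((k * s : ℕ) : ℂ)) : MvPolynomial σ ℂ)) ?_ fun s => ?_)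
    · intro s s' hs
      have h1 := C_injective σ ℂ hs
      have h2 : k * s = k * s' := by exact_mod_cast h1
      exact Nat.eq_of_mul_eq_mul_left (Nat.pos_of_ne_zero hk) h2
    · have h1 := hR (k * s)
      rw [h0, mul_zero] at h1
      exact (mul_eq_zero.1 h1.symm).resolve_right (pow_ne_zero _ hF)
  have h1 := hR t
  rw [hR0, Polynomial.eval_zero, zero_mul] at h1
  exact (mul_eq_zero.1 h1).resolve_left (pow_ne_zero _ hF)

/-- the functional equation of a power at all exponents -/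
theorem ext_mul (hF : F ≠ 0) {k : ℕ} (hk : k ≠ 0) (H : MvPolynomial σ ℂ) (b : Polynomial ℂ)
    (P : ℕ →₀ weylS σ) (hP : ∀ s : ℕ, H * (C (b.eval (s : ℂ)) * (F ^ k) ^ s) =
      P.sum fun m Q => ((s : ℂ) ^ m) • (Q : Module.End ℂ (MvPolynomial σ ℂ))
        ((F ^ k) ^ (s + 1))) (t : ℕ) :
    H * (C (b.eval ((k : ℂ)⁻¹ * t)) * F ^ t) =
      ∑ m ∈ P.support, C (((k : ℂ)⁻¹ * t) ^ m) *
        ((P m : weylS σ) : Module.End ℂ (MvPolynomial σ ℂ)) (F ^ k * F ^ t) := by
  have hk' : (k : ℂ) ≠ 0 := by exact_mod_cast hk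
  have hC : ∀ (q : Polynomial ℂ) (t : ℕ), ((q.comp (Polynomial.C ((k : ℂ)⁻¹) *
      Polynomial.X)).map (C : ℂ →+* MvPolynomial σ ℂ)).eval (C (t : ℂ)) =
      C (q.eval ((k : ℂ)⁻¹ * t)) := by
    intro q t
    rw [eval_mapC, Polynomial.eval_comp, Polynomial.eval_mul, Polynomial.eval_C,
      Polynomial.eval_X]
  have h1 : Pg F fun t => H * (C (b.eval ((k : ℂ)⁻¹ * t)) * F ^ t) := by
    have h2 := ((Pg.self (F := F)).mul_poly ((b.comp (Polynomial.C ((k : ℂ)⁻¹) *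
      Polynomial.X)).map (C : ℂ →+* MvPolynomial σ ℂ))).mul H
    simp only [hC] at h2
    exact h2
  have h3 : Pg F fun t => ∑ m ∈ P.support, C (((k : ℂ)⁻¹ * t) ^ m) *
      ((P m : weylS σ) : Module.End ℂ (MvPolynomial σ ℂ)) (F ^ k * F ^ t) := by
    refine Pg.sum _ _ fun m _ => ?_
    have h4 := (((Pg.self (F := F)).mul (F ^ k)).weyl _ (P m).2).mul_poly
      (((Polynomial.X ^ m).comp (Polynomial.C ((k : ℂ)⁻¹) *
        Polynomial.X)).map (C : ℂ →+* MvPolynomial σ ℂ))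
    simp only [hC, Polynomial.eval_pow, Polynomial.eval_X] at h4
    exact h4
  have h5 := (h1.add (h3.mul (-1))).ext hF hk (fun s => ?_) t
  · rw [neg_one_mul] at h5
    exact eq_of_sub_eq_zero (by rw [sub_eq_add_neg]; exact h5)
  · have h6 := hP s
    rw [Finsupp.sum] at h6
    have h7 : (k : ℂ)⁻¹ * ((k * s : ℕ) : ℂ) = s := by
      push_cast
      rw [← mul_assoc, inv_mul_cancel₀ hk', one_mul]
    rw [h7, neg_one_mul, pow_mul, h6, ← sub_eq_add_neg, sub_eq_zero]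
    refine Finset.sum_congr rfl fun m _ => ?_
    rw [smul_eq_C_mul, pow_succ' (F ^ k) s]

end alg

section loc

variable {n : ℕ} {F : MvPolynomial (Fin n) ℂ}

/-- from the power to the polynomial -/
theorem loc_of_pow (hF : F ≠ 0) {k : ℕ} (hk : k ≠ 0) {H : MvPolynomial (Fin n) ℂ}
    {b : Polynomial ℂ} (hH : eval 0 H ≠ 0) (hb : IsLocEq H (fun _ : Fin 1 => F ^ k) b) :
    IsLocalBFunction F (b.comp (Polynomial.C ((k : ℂ)⁻¹) * Polynomial.X)) := by
  classical
  obtain ⟨P, hP⟩ := eq_of_locEq1 H _ b hb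
  set e := P.support.equivFin with he
  have hH' : MvPowerSeries.constantCoeff (H : MvPowerSeries (Fin n) ℂ) ≠ 0 := by
    rw [← MvPowerSeries.coeff_zero_eq_constantCoeff_apply, MvPolynomial.coeff_coe,
      ← constantCoeff_eq, ← eval_zero]
    exact hH
  have hinv : (H : MvPowerSeries (Fin n) ℂ)⁻¹ * (H : MvPowerSeries (Fin n) ℂ) = 1 :=
    MvPowerSeries.inv_mul_cancel _ hH'
  have hmem : LinearMap.mulLeft ℂ (F ^ (k - 1)) ∈ weylS (Fin n) := mulLeft_memW _
  refine ⟨P.support.card, fun i => (e.symm i : ℕ),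
    fun i => MvPowerSeries.C (((k : ℂ)⁻¹) ^ (e.symm i : ℕ)) * (H : MvPowerSeries (Fin n) ℂ)⁻¹,
    fun i => P (e.symm i : ℕ) * ⟨_, hmem⟩, fun s => ?_⟩
  have h1 := congrArg (fun q : MvPolynomial (Fin n) ℂ => (q : MvPowerSeries (Fin n) ℂ))
    (ext_mul hF hk H b P hP s)
  have h3 : ∀ S : Finset ℕ, ∀ g : ℕ → MvPolynomial (Fin n) ℂ,
      ((∑ a ∈ S, g a : MvPolynomial (Fin n) ℂ) : MvPowerSeries (Fin n) ℂ) =
      ∑ a ∈ S, (g a : MvPowerSeries (Fin n) ℂ) := by
    intro S g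
    exact map_sum (MvPolynomial.coeToMvPowerSeries.ringHom :
      MvPolynomial (Fin n) ℂ →+* MvPowerSeries (Fin n) ℂ) g S
  simp only [h3, MvPolynomial.coe_mul, MvPolynomial.coe_C] at h1
  rw [← Finset.sum_coe_sort, ← e.symm.sum_comp] at h1
  have hb' : (b.comp (Polynomial.C ((k : ℂ)⁻¹) * Polynomial.X)).eval (s : ℂ) =
      b.eval ((k : ℂ)⁻¹ * s) := by
    rw [Polynomial.eval_comp, Polynomial.eval_mul, Polynomial.eval_C, Polynomial.eval_X]
  have h4 : MvPowerSeries.C (b.eval ((k : ℂ)⁻¹ * s)) * ((F ^ s : MvPolynomial (Fin n) ℂ) :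
      MvPowerSeries (Fin n) ℂ) = (H : MvPowerSeries (Fin n) ℂ)⁻¹ *
      ((H : MvPowerSeries (Fin n) ℂ) * (MvPowerSeries.C (b.eval ((k : ℂ)⁻¹ * s)) *
        ((F ^ s : MvPolynomial (Fin n) ℂ) : MvPowerSeries (Fin n) ℂ))) := by
    rw [← mul_assoc, hinv, one_mul]
  rw [hb', h4, h1, Finset.mul_sum]
  refine Finset.sum_congr rfl fun i _ => ?_
  have h5 : ((P (e.symm i : ℕ) * ⟨_, hmem⟩ : weylS (Fin n)) :
      Module.End ℂ (MvPolynomial (Fin n) ℂ)) (F ^ (s + 1)) =
      ((P (e.symm i : ℕ) : weylS (Fin n)) : Module.End ℂ (MvPolynomial (Fin n) ℂ))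
        (F ^ k * F ^ s) := by
    rw [MulMemClass.coe_mul, Module.End.mul_apply, LinearMap.mulLeft_apply]
    congr 1
    obtain ⟨j, rfl⟩ := Nat.exists_eq_succ_of_ne_zero hk
    rw [Nat.succ_sub_one, Nat.succ_eq_add_one]
    ring
  rw [h5, mul_pow, map_mul]
  ring

/-- **Roots of powers.** -/
theorem sf_pow (hF : F ≠ 0) {k : ℕ} (hk : k ≠ 0) {α β : ℂ} (hα : (k : ℂ)⁻¹ * α = β)
    (h : SF (fun _ : Fin 1 => F) 0 α) : SF (fun _ : Fin 1 => F ^ k) 0 β := by
  refine sf_of_local _ 0 β (fun H b hb hH => ?_) (exists_fe _ ⟨0, pow_ne_zero _ hF⟩)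
  have h1 := h.localBI _ (localBI_one F _ (loc_of_pow hF hk hH hb))
  rwa [Polynomial.eval_comp, Polynomial.eval_mul, Polynomial.eval_C, Polynomial.eval_X, hα] at h1

end loc

section padic

variable {p : ℕ} [Fact p.Prime]

theorem reg_pow {T0 : ℂ} (hT0 : T0 ≠ 0) {M k : ℕ} (hk : k ≠ 0) {Z : ℝ → ℂ}
    (h : Reg p (T0 ^ k) M Z) : Reg p T0 M fun s => Z (k * s) := by
  obtain ⟨D, P, hD, hP⟩ := h
  set Q : Polynomial ℂ := ∑ i ∈ Finset.range k, Polynomial.X ^ i * Polynomial.C T0 ^ (k - 1 - i)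
    with hQ
  have hQ1 : Q * (Polynomial.X - Polynomial.C T0) = Polynomial.X ^ k - Polynomial.C T0 ^ k := by
    rw [hQ]
    exact (Commute.all _ _).geom_sum₂_mul k
  have hQ0 : Q.eval T0 ≠ 0 := by
    rw [hQ, Polynomial.eval_finsetSum]
    have h1 : ∀ i ∈ Finset.range k, (Polynomial.X ^ i * Polynomial.C T0 ^ (k - 1 - i) :
        Polynomial ℂ).eval T0 = T0 ^ (k - 1) := by
      intro i hi
      rw [Polynomial.eval_mul, Polynomial.eval_pow, Polynomial.eval_pow, Polynomial.eval_X,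
        Polynomial.eval_C, ← pow_add]
      congr 1
      have := Finset.mem_range.1 hi
      omega
    rw [Finset.sum_congr rfl h1, Finset.sum_const, Finset.card_range, nsmul_eq_mul]
    exact mul_ne_zero (by exact_mod_cast hk) (pow_ne_zero _ hT0)
  refine ⟨Q ^ M * D.comp (Polynomial.X ^ k), P.comp (Polynomial.X ^ k), ?_, fun s hs => ?_⟩
  · rw [Polynomial.eval_mul, Polynomial.eval_pow, Polynomial.eval_comp, Polynomial.eval_pow,
      Polynomial.eval_X]
    exact mul_ne_zero (pow_ne_zero _ hQ0) hD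
  · have h2 := hP (k * s) (by positivity)
    have h3 : tr' p (k * s) = tr' p s ^ k := by
      unfold tr'
      rw [← Real.rpow_natCast, ← Real.rpow_mul (Nat.cast_nonneg p)]
      congr 1
      ring
    rw [h3] at h2
    push_cast at h2
    have h4 : ((Polynomial.X - Polynomial.C T0) ^ M * (Q ^ M * D.comp (Polynomial.X ^ k))).eval
        ((tr' p s : ℝ) : ℂ) = ((Polynomial.X - Polynomial.C (T0 ^ k)) ^ M * D).eval
          (((tr' p s : ℝ) : ℂ) ^ k) := by
      have h5 : (Polynomial.X - Polynomial.C T0) ^ M * (Q ^ M * D.comp (Polynomial.X ^ k)) =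
          ((Polynomial.X - Polynomial.C (T0 ^ k)) ^ M * D).comp (Polynomial.X ^ k) := by
        rw [Polynomial.mul_comp, Polynomial.pow_comp, Polynomial.sub_comp, Polynomial.X_comp,
          Polynomial.C_comp, Polynomial.C_pow, ← hQ1, ← mul_assoc, ← mul_pow]
        congr 2
        ring
      rw [h5, Polynomial.eval_comp, Polynomial.eval_pow, Polynomial.eval_X]
    rw [h4, h2, Polynomial.eval_comp, Polynomial.eval_pow, Polynomial.eval_X]

theorem fr_pow {k : ℕ} (hk : k ≠ 0) {m : ℂ → ℕ∞} {Z : ℝ → ℂ} (h : FR p m Z) :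
    FR p (fun T => m (T ^ k)) fun s => Z (k * s) := by
  intro T0 hT0
  obtain ⟨M, hM, hR⟩ := h (T0 ^ k) (pow_ne_zero _ hT0)
  refine ⟨M, hM.trans ?_, reg_pow hT0 hk hR⟩
  unfold Pool.Agent.Y230.PS.tr
  rw [norm_pow]
  by_cases h1 : ‖T0‖ ≤ 1
  · rw [if_pos h1, if_pos (pow_le_one₀ (norm_nonneg _) h1)]
  · rw [if_neg h1, if_neg (by
      rw [not_le] at h1 ⊢
      exact one_lt_pow₀ h1 hk)]

theorem lp_pow {n : ℕ} {h : (Fin n → ℚ_[p]) → ℝ} (hh : ∀ x, 0 ≤ h x) {m : ℂ → ℕ∞} {k : ℕ}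
    (hk : k ≠ 0) {P : Fin n → ℚ_[p]} (H : LP m h P) :
    LP (fun T => m (T ^ k)) (fun x => h x ^ k) P := by
  obtain ⟨U, hU, hP, hV⟩ := H
  refine ⟨U, hU, hP, fun V hVU hVc => ?_⟩
  have h1 : IZ (fun x => h x ^ k) V = fun s => IZ h V (k * s) := by
    funext s
    unfold IZ
    have h2 : ∀ x, (h x ^ k) ^ s = h x ^ ((k : ℝ) * s) := by
      intro x
      rw [← Real.rpow_natCast, ← Real.rpow_mul (hh x)]
    simp only [h2]
  rw [h1]
  exact fr_pow hk (hV V hVU hVc)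

/-- **Powers.** -/
theorem good_pow (φ : ℚ_[p] →+* ℂ) {n : ℕ} {h : MvPolynomial (Fin n) ℚ_[p]} (hh : Good φ h)
    {k : ℕ} (hk : k ≠ 0) : Good φ (h ^ k) := by
  refine ⟨pow_ne_zero _ hh.1, ?_⟩
  have h1 : (fun x : Fin n → ℚ_[p] => ‖eval x (h ^ k)‖) = fun x => ‖eval x h‖ ^ k := by
    funext x
    rw [map_pow, norm_pow]
  rw [h1]
  refine lp_mono (fun T hT => ?_) (lp_pow (fun x => norm_nonneg _) hk hh.2)
  unfold mF
  by_cases h2 : SF (fun _ : Fin 1 => map φ h) 0 ((rr p (T ^ k) : ℝ) : ℂ)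
  · rw [if_pos h2, if_pos]
    rw [map_pow]
    refine sf_pow (map_ne φ hh.1) hk ?_ h2
    have hk' : (k : ℂ) ≠ 0 := by exact_mod_cast hk
    have h3 : rr p (T ^ k) = k * rr p T := by
      unfold rr
      rw [norm_pow, Real.log_pow]
      ring
    rw [h3]
    push_cast
    rw [← mul_assoc, inv_mul_cancel₀ hk', one_mul]
  · rw [if_neg h2]
    exact bot_le

end padic

end Pool.Agent.H940.E
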