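import Pool.Agent.H940.E.Good

set_option autoImplicit false
set_option linter.unusedSectionVars false
set_option linter.unusedVariables false

/-! # Polynomial coordinates -/

namespace Pool.Agent.H940.E

open MeasureTheory MvPolynomial Topology
open Pool.Agent.H940.R Pool.Agent.H940.S
open Pool.Agent.W427.SMC Pool.Agent.Y230.PS Pool.Agent.Q57.QP
open Pool.Agent.Y230.PT hiding CO
open Pool.Agent.Q66.QP
open Pool.Agent.Y229 (SF exists_fe sf_of_local)
open Pool.Agent.Q57.MD (transfer_formal sf_of_transf Transf ne_of_transf ZN aeval_cong aeval_coe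
  coe_sub')
open Pool.Agent.Q57.MC (sf_iff)
open scoped ENNReal

attribute [local instance] msK bsK msZ bsZ

/-- **The formal inverse of polynomial coordinates.** -/
theorem formal_inv {K : Type} [Field K] {n : ℕ} (b : Fin n → MvPolynomial (Fin n) K)
    (hb : ∀ t, constantCoeff (b t) = 0) (hdet : (jk b).det ≠ 0) :
    ∃ η : Fin n → MvPowerSeries (Fin n) K, (∀ t, MvPowerSeries.constantCoeff (η t) = 0) ∧
      (Matrix.of fun u t => MvPowerSeries.coeff (Finsupp.single u 1) (η t)).det ≠ 0 ∧
      ∀ h : MvPolynomial (Fin n) K, (h : MvPowerSeries (Fin n) K) = aeval η (aeval b h) := by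
  classical
  choose c hc hcd hcb hbc using fun k => exists_inv2 b hb hdet (k + 2) (by omega)
  have hcoh : ∀ k l t, c k t - c l t ∈ wI K 1 (min (k + 2) (l + 2)) := by
    intro k l t
    have h1 : aeval b (c k t - c l t) ∈ wI K 1 (min (k + 2) (l + 2)) := by
      have e : aeval b (c k t - c l t) = (aeval b (c k t) - X t) - (aeval b (c l t) - X t) := by
        rw [map_sub]
        ring
      rw [e]
      exact Ideal.sub_mem _ (wI_mono (min_le_left _ _) (hbc k t))
        (wI_mono (min_le_right _ _) (hbc l t))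
    have h2 := aeval_mem h1 (c k) fun t => mem_one_iff.2 (hc k t)
    have h3 : aeval (c k) (aeval b (c k t - c l t)) - (c k t - c l t) ∈
        wI K 1 (min (k + 2) (l + 2)) := by
      rw [aeval_aeval]
      exact wI_mono (min_le_left _ _) (aeval_id (hcb k) _)
    have h4 := Ideal.sub_mem _ h2 h3
    rwa [sub_sub_cancel] at h4
  set η : Fin n → MvPowerSeries (Fin n) K := fun t α => coeff α (c α.degree t) with hη
  have hηc : ∀ t α, MvPowerSeries.coeff α (η t) = coeff α (c α.degree t) := fun t α => rfl
  have hcong : ∀ k t, η t - ((c k t : MvPolynomial (Fin n) K) : MvPowerSeries (Fin n) K) ∈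
      ZN K (Fin n) (k + 2) := by
    intro k t α hα
    rw [map_sub, hηc, MvPolynomial.coeff_coe, ← coeff_sub]
    refine hcoh α.degree k t α ?_
    rw [weight_degree]
    omega
  refine ⟨η, fun t => ?_, ?_, fun h => ?_⟩
  · rw [← MvPowerSeries.coeff_zero_eq_constantCoeff_apply, hηc, ← constantCoeff_eq]
    exact hc _ t
  · have h1 : (Matrix.of fun u t => MvPowerSeries.coeff (Finsupp.single u 1) (η t)) =
        (jk (c 1)).transpose := by
      ext1 u t
      rw [Matrix.of_apply, Matrix.transpose_apply, hηc, Finsupp.degree_single]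
      unfold jk
      rw [Matrix.of_apply, cc_pd]
    rw [h1, Matrix.det_transpose]
    exact hcd 1
  · ext α
    have h1 : aeval η (aeval b h) - ((aeval (c α.degree) (aeval b h) : MvPolynomial (Fin n) K) :
        MvPowerSeries (Fin n) K) ∈ ZN K (Fin n) (α.degree + 2) := by
      rw [← aeval_coe]
      exact aeval_cong _ _ _ (fun t => hcong _ t) _
    have h2 := h1 α (by omega)
    rw [map_sub, MvPolynomial.coeff_coe, sub_eq_zero] at h2
    rw [h2, MvPolynomial.coeff_coe]
    have h3 : aeval (c α.degree) (aeval b h) - h ∈ wI K 1 (α.degree + 2) := by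
      rw [aeval_aeval]
      exact aeval_id (hcb _) h
    have h4 := h3 α (by rw [weight_degree]; omega)
    rw [coeff_sub, sub_eq_zero] at h4
    exact h4.symm

variable {p : ℕ} [Fact p.Prime] {n : ℕ} (φ : ℚ_[p] →+* ℂ)

theorem transf_pull {h : MvPolynomial (Fin n) ℚ_[p]} {b : Fin n → MvPolynomial (Fin n) ℚ_[p]}
    (hb : ∀ t, constantCoeff (b t) = 0) (hdet : (jk b).det ≠ 0) :
    Transf (fun _ : Fin 1 => map φ h) (fun _ : Fin 1 => map φ (aeval b h)) 0 := by
  classical
  obtain ⟨η, hη0, hηd, hηh⟩ := formal_inv b hb hdet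
  exact transfer_formal (fun _ : Fin 1 => map φ h) (fun _ : Fin 1 => map φ (aeval b h))
      (fun t => MvPowerSeries.map φ (η t)) id
      (fun t => by rw [MvPowerSeries.constantCoeff_map, hη0, map_zero]) (by
        have h1 : (Matrix.of fun a t => MvPowerSeries.coeff (Finsupp.single (id a) 1)
            (MvPowerSeries.map φ (η t))) = φ.mapMatrix (Matrix.of fun a t =>
              MvPowerSeries.coeff (Finsupp.single a 1) (η t)) := by
          ext1 a t
          rw [Matrix.of_apply, MvPowerSeries.coeff_map, RingHom.mapMatrix_apply, Matrix.map_apply,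
            Matrix.of_apply, id_eq]
        rw [h1, ← RingHom.map_det]
        exact (map_ne_zero φ).2 hηd) (by
        rw [Set.range_const, Set.range_const]
        have h1 := congrArg (MvPowerSeries.map φ) (hηh h)
        rw [← coe_map2, map_aeval2] at h1
        rw [h1])

theorem good_pull {h : MvPolynomial (Fin n) ℚ_[p]} {b : Fin n → MvPolynomial (Fin n) ℚ_[p]}
    (hb : ∀ t, constantCoeff (b t) = 0)
    (hdet : (Matrix.of fun t s => constantCoeff (pderiv s (b t))).det ≠ 0)
    (hh : Good φ (aeval b h)) : Good φ h := by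
  classical
  have hne' : ∃ j : Fin 1, (fun _ : Fin 1 => map φ (aeval b h)) j ≠ 0 := ⟨0, map_ne φ hh.1⟩
  have hT := transf_pull φ (h := h) hb hdet
  obtain ⟨j, hj⟩ := ne_of_transf _ _ 0 hT hne'
  exact ⟨ne_of_map φ hj, lp_coord b hb hdet h _ (lp_mono (fun T _ => mF_mono (fun α hα =>
    sf_of_transf _ _ 0 hT hne' _ ((sf_iff _ hne' _).1 hα)) T) hh.2)⟩

end Pool.Agent.H940.E
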