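import Pool.Agent.H940.E.Fin
import Pool.Agent.H940.E.Cls

set_option autoImplicit false
set_option linter.unusedSectionVars false
set_option linter.unusedVariables false

/-! # Slices of weighted cones -/

namespace Pool.Agent.H940.E

open MvPolynomial
open Pool.Agent.H940.R Pool.Agent.H940.S

/-- scalings of a weighted homogeneous polynomial -/
theorem wh_scale {K A σ : Type} [Field K] [Fintype σ] [CommRing A] [Algebra K A] (w : σ → ℕ)
    {f : MvPolynomial σ K} {d : ℕ} (hf : f.IsWeightedHomogeneous w d) (l : A) (z : σ → A) :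
    aeval (fun j => l ^ w j * z j) f = l ^ d * aeval z f := by
  rw [aeval_def, aeval_def, eval₂_eq', eval₂_eq', Finset.mul_sum]
  refine Finset.sum_congr rfl fun α hα => ?_
  have h1 := hf (mem_support_iff.1 hα)
  rw [Finsupp.weight_apply, Finsupp.sum_fintype _ _ (by simp)] at h1
  simp only [mul_pow]
  rw [Finset.prod_mul_distrib]
  have h2 : ∏ i, (l ^ w i) ^ α i = l ^ d := by
    rw [← h1, ← Finset.prod_pow_eq_pow_sum]
    refine Finset.prod_congr rfl fun i _ => ?_
    rw [← pow_mul, smul_eq_mul, mul_comm]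
  rw [h2]
  ring

theorem aeval_aevalG {K : Type} [Field K] {a b c : ℕ} (u : Fin b → MvPolynomial (Fin c) K)
    (v : Fin a → MvPolynomial (Fin b) K) (F : MvPolynomial (Fin a) K) :
    aeval u (aeval v F) = aeval (fun t => aeval u (v t)) F := by
  have h1 : (aeval u).comp (aeval v) = aeval (R := K) (fun t => aeval u (v t)) := by
    apply algHom_ext
    intro i
    rw [AlgHom.comp_apply, aeval_X, aeval_X]
  exact AlgHom.congr_fun h1 F

/-- polynomials are convergent -/
theorem cvg_poly {p : ℕ} [Fact p.Prime] {n : ℕ} (F : MvPolynomial (Fin n) ℚ_[p]) :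
    Cvg (F : MvPowerSeries (Fin n) ℚ_[p]) := by
  classical
  refine ⟨1, one_pos, ∑ α ∈ F.support, ‖coeff α F‖, fun α => ?_⟩
  rw [one_pow, mul_one, MvPolynomial.coeff_coe]
  by_cases h : α ∈ F.support
  · exact Finset.single_le_sum (f := fun α => ‖coeff α F‖) (fun _ _ => norm_nonneg _) h
  · rw [notMem_support_iff.1 h, norm_zero]
    exact Finset.sum_nonneg fun _ _ => norm_nonneg _

theorem coe_aevalP {K : Type} [Field K] {n c : ℕ} (η : Fin c → MvPolynomial (Fin n) K)
    (g : MvPolynomial (Fin c) K) : ((aeval η g : MvPolynomial (Fin n) K) :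
      MvPowerSeries (Fin n) K) = aeval (fun t => (η t : MvPowerSeries (Fin n) K)) g := by
  have h1 : (MvPolynomial.coeToMvPowerSeries.ringHom : MvPolynomial (Fin n) K →+*
      MvPowerSeries (Fin n) K).comp (aeval η : MvPolynomial (Fin c) K →ₐ[K] _).toRingHom =
      (aeval (fun t => (η t : MvPowerSeries (Fin n) K)) :
        MvPolynomial (Fin c) K →ₐ[K] MvPowerSeries (Fin n) K).toRingHom := by
    apply MvPolynomial.ringHom_ext
    · intro a
      simp only [RingHom.comp_apply, AlgHom.toRingHom_eq_coe, RingHom.coe_coe, algHom_C]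
      rw [MvPowerSeries.algebraMap_apply, algebraMap_eq, MvPolynomial.coeToMvPowerSeries.ringHom_apply,
        MvPolynomial.coe_C]
      rfl
    · intro i
      simp only [RingHom.comp_apply, AlgHom.toRingHom_eq_coe, RingHom.coe_coe, aeval_X]
      rfl
  exact RingHom.congr_fun h1 g

/-- polynomial part-coordinates -/
theorem incoords_poly {p : ℕ} [Fact p.Prime] {n c : ℕ} {h : MvPolynomial (Fin n) ℚ_[p]}
    {g : MvPolynomial (Fin c) ℚ_[p]} (s : Fin c → Fin n) (η : Fin c → MvPolynomial (Fin n) ℚ_[p])
    (u : MvPolynomial (Fin n) ℚ_[p]) (h0 : ∀ t, constantCoeff (η t) = 0)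
    (hu : constantCoeff u ≠ 0)
    (hdet : (Matrix.of fun a t => constantCoeff (pderiv (s a) (η t))).det ≠ 0)
    (heq : h = u * aeval η g) : InCoords h g := by
  refine ⟨s, fun t => (η t : MvPowerSeries (Fin n) ℚ_[p]), u, fun t => cvg_poly _, cvg_poly _,
    fun t => ?_, ?_, ?_, ?_⟩
  · rw [← MvPowerSeries.coeff_zero_eq_constantCoeff_apply, MvPolynomial.coeff_coe]
    exact h0 t
  · rw [← MvPowerSeries.coeff_zero_eq_constantCoeff_apply, MvPolynomial.coeff_coe]
    exact hu
  · have h1 : (Matrix.of fun a t => MvPowerSeries.coeff (Finsupp.single (s a) 1)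
        (η t : MvPowerSeries (Fin n) ℚ_[p])) =
        (Matrix.of fun a t => constantCoeff (pderiv (s a) (η t))) := by
      ext1 a t
      rw [Matrix.of_apply, Matrix.of_apply, MvPolynomial.coeff_coe, cc_pd]
    rw [h1]
    exact hdet
  · rw [heq, MvPolynomial.coe_mul, coe_aevalP]

variable {p : ℕ} [Fact p.Prime] {n : ℕ} (φ : ℚ_[p] →+* ℂ)

/-- the coordinates -/
theorem slice_id {f : MvPolynomial (Fin (n + 1)) ℚ_[p]} (w : Fin (n + 1) → ℕ)
    (hw : ∀ i, 0 < w i) {d : ℕ} (hf : f.IsWeightedHomogeneous w d) (i : Fin (n + 1))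
    (P : Fin (n + 1) → ℚ_[p]) (hP : P i ≠ 0) :
    ∃ b : Fin (n + 1) → MvPolynomial (Fin (n + 1)) ℚ_[p], (∀ t, constantCoeff (b t) = 0) ∧
      (Matrix.of fun t s => constantCoeff (pderiv s (b t))).det ≠ 0 ∧
      aeval b (trn P f) = (1 + X i) ^ d * aeval (fun t => X (i.succAbove t)) (slc i P f) := by
  classical
  set b : Fin (n + 1) → MvPolynomial (Fin (n + 1)) ℚ_[p] := fun j =>
    (1 + X i) ^ w j * ((if j = i then 0 else X j) + C (P j)) - C (P j) with hb
  have hcc : ∀ j, constantCoeff (b j) = 0 := by
    intro j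
    rw [hb]
    simp only [map_sub, map_mul, map_pow, map_add, map_one, constantCoeff_X, constantCoeff_C,
      add_zero, one_pow, one_mul]
    split_ifs
    · rw [map_zero, zero_add, sub_self]
    · rw [constantCoeff_X, zero_add, sub_self]
  have hpd : ∀ j s, constantCoeff (pderiv s (b j)) =
      (if s = i then (w j : ℚ_[p]) * P j else 0) + (if j = i then 0 else if s = j then 1 else 0) := by
    intro j s
    rw [hb]
    simp only [map_sub, pderiv_C, sub_zero, Derivation.leibniz, smul_eq_mul, map_add, map_mul]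
    rw [Derivation.leibniz_pow]
    simp only [smul_eq_mul, nsmul_eq_mul, map_mul, map_add, map_one, map_pow, map_natCast,
      constantCoeff_X, constantCoeff_C, add_zero, one_pow, one_mul,
      zero_add, Derivation.map_one_eq_zero, map_zero]
    have h1 : constantCoeff (pderiv s (X i : MvPolynomial (Fin (n + 1)) ℚ_[p])) =
        if s = i then 1 else 0 := by
      rw [pderiv_X, Pi.single_apply]
      by_cases hs : s = i
      · rw [if_pos hs.symm, if_pos hs, map_one]
      · rw [if_neg (Ne.symm hs), if_neg hs, map_zero]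
    rw [h1]
    by_cases hj : j = i
    · simp only [if_pos hj, map_zero]
      split_ifs <;> ring
    · rw [if_neg hj, if_neg hj, constantCoeff_X, zero_add, pderiv_X, Pi.single_apply]
      by_cases hs : s = j
      · rw [if_pos hs.symm, if_pos hs, map_one]
        split_ifs <;> ring
      · rw [if_neg (Ne.symm hs), if_neg hs, map_zero]
        split_ifs <;> ring
  refine ⟨b, hcc, ?_, ?_⟩
  · intro hdet
    obtain ⟨v, hv0, hv⟩ := Matrix.exists_mulVec_eq_zero_iff.2 hdet
    apply hv0
    have h1 : ∀ j, ((w j : ℚ_[p]) * P j) * v i + (if j = i then 0 else v j) = 0 := by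
      intro j
      have h2 := congrFun hv j
      unfold Matrix.mulVec dotProduct at h2
      simp only [Matrix.of_apply, hpd, Pi.zero_apply] at h2
      have h5 : ∑ x, (if x = i then (w j : ℚ_[p]) * P j else 0) * v x = w j * P j * v i := by
        simp only [ite_mul, zero_mul]
        rw [Finset.sum_ite_eq' Finset.univ i, if_pos (Finset.mem_univ i)]
      have h6 : ∑ x, (if j = i then (0 : ℚ_[p]) else if x = j then 1 else 0) * v x =
          if j = i then 0 else v j := by
        by_cases hj : j = i
        · simp only [if_pos hj, zero_mul, Finset.sum_const_zero]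
        · simp only [if_neg hj, ite_mul, zero_mul, one_mul]
          rw [Finset.sum_ite_eq' Finset.univ j, if_pos (Finset.mem_univ j)]
      simp only [add_mul, Finset.sum_add_distrib] at h2
      rw [h5, h6] at h2
      exact h2
    have h3 : v i = 0 := by
      have h4 := h1 i
      rw [if_pos rfl, add_zero] at h4
      refine (mul_eq_zero.1 h4).resolve_left (mul_ne_zero ?_ hP)
      exact_mod_cast (hw i).ne'
    funext j
    by_cases hj : j = i
    · rw [hj, h3]
      rfl
    · have h4 := h1 j
      rw [h3, mul_zero, zero_add, if_neg hj] at h4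
      exact h4
  · have h1 : aeval b (trn P f) = aeval (fun j => (1 + X i) ^ w j *
        ((if j = i then 0 else X j) + C (P j)) : Fin (n + 1) →
          MvPolynomial (Fin (n + 1)) ℚ_[p]) f := by
      unfold trn
      rw [aeval_aeval]
      congr 2
      funext j
      rw [map_add, aeval_X, algHom_C, algebraMap_eq, hb]
      simp only
      rw [sub_add_cancel]
    have h2 : (fun j => (if j = i then 0 else X j) + C (P j) : Fin (n + 1) →
        MvPolynomial (Fin (n + 1)) ℚ_[p]) = fun l => aeval (fun t => (X (i.succAbove t) :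
          MvPolynomial (Fin (n + 1)) ℚ_[p])) ((i.insertNth (C (P i)) fun t => X t +
            C (P (i.succAbove t)) : Fin (n + 1) → MvPolynomial (Fin n) ℚ_[p]) l) := by
      funext l
      refine Fin.succAboveCases i ?_ (fun t => ?_) l
      · rw [if_pos rfl, zero_add, Fin.insertNth_apply_same, algHom_C, algebraMap_eq]
      · rw [if_neg (Fin.succAbove_ne i t), Fin.insertNth_apply_succAbove, map_add, aeval_X,
          algHom_C, algebraMap_eq]
    rw [h1, wh_scale w hf, h2, ← aeval_aevalG]
    rfl

/-- **Slices.** -/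
theorem grm_slice {f : MvPolynomial (Fin (n + 1)) ℚ_[p]} (w : Fin (n + 1) → ℕ)
    (hw : ∀ i, 0 < w i) {d : ℕ} (hf : f.IsWeightedHomogeneous w d) (i : Fin (n + 1))
    (P : Fin (n + 1) → ℚ_[p]) (hP : P i ≠ 0) (H : Grm p φ n (slc i P f)) :
    Grm p φ (n + 1) (trn P f) := by
  classical
  obtain ⟨b, hb, hdet, hid⟩ := slice_id w hw hf i P hP
  refine Grm.pull (trn P f) b hb hdet (Grm.coords _ (slc i P f) ?_ H)
  refine incoords_poly i.succAbove (fun t => X (i.succAbove t)) ((1 + X i) ^ d)
    (fun t => by rw [constantCoeff_X]) ?_ ?_ hid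
  · rw [map_pow, map_add, map_one, constantCoeff_X, add_zero, one_pow]
    exact one_ne_zero
  · have h1 : (Matrix.of fun a t => constantCoeff (pderiv (i.succAbove a)
        (X (i.succAbove t) : MvPolynomial (Fin (n + 1)) ℚ_[p]))) = 1 := by
      ext1 a t
      rw [Matrix.of_apply, pderiv_X, Pi.single_apply, Matrix.one_apply]
      by_cases h : a = t
      · rw [h, if_pos rfl, if_pos rfl, map_one]
      · rw [if_neg h, if_neg (fun h' => h (Fin.succAbove_right_injective h').symm), map_zero]
    rw [h1, Matrix.det_one]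
    exact one_ne_zero

end Pool.Agent.H940.E
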