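import Pool.Agent.H940.E.Grad
import Pool.Agent.H940.E.Bc

set_option autoImplicit false
set_option linter.unusedSectionVars false
set_option linter.unusedVariables false

/-! # The second torus of a weighted homogeneous polynomial -/

namespace Pool.Agent.H940.E

open MvPolynomial Pool.Agent.H940.R Pool.Agent.H940.S
open Pool.Agent.H940.R.LK (El coeff_El trace_eig)
open Pool.Agent.H940.LT (dv)

section coords

variable {K : Type} [Field K] [CharZero K] {n k : ℕ}

/-- **The averaged operator**, which commutes with the components. -/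
theorem exists_opw (w : Fin n → ℕ) {D : Fin n → MvPolynomial (Fin n) K}
    (hD : ∀ t, constantCoeff (D t) = 0) (hDw : ∀ t, (D t).IsWeightedHomogeneous w (w t))
    (hk : 2 ≤ k) (τ : ℚ) (hτ : ∑ t, constantCoeff (pderiv t (D t)) = (τ : K)) :
    ∃ (A : Module.End K (Tq K n k)) (A' : Module.End K (Fin n → K)) (R : Finset ℚ),
      (∀ x y, A (x * y) = A x * y + x * A y) ∧
      (∀ (r : ℚ) F, vf D F - C (r : K) * F ∈ wI K 1 k → A (qa k F) = (r : K) • qa k F) ∧
      (∀ F G, A (qa k F) = qa k G → lin G = A' (lin F)) ∧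
      (∀ m F G, A (qa k F) = qa k G → A (qa k (weightedHomogeneousComponent w m F)) =
        qa k (weightedHomogeneousComponent w m G)) ∧
      LinearMap.trace K _ A' = (τ : K) ∧
      Polynomial.aeval A (∏ r ∈ R, (Polynomial.X - Polynomial.C (r : K))) = 0 := by
  classical
  have hint : Algebra.IsIntegral K (AlgebraicClosure K) := by
    have := AlgebraicClosure.isAlgebraic K
    constructor
    intro x
    exact (this.isAlgebraic x).isIntegral
  obtain ⟨av⟩ := exists_av K
  obtain ⟨δ, hδ, hδm⟩ := exists_delta (k := k) hD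
  obtain ⟨P, hP1, hP2⟩ := av.exists_good δ (lT D)
  obtain ⟨R, hR⟩ := hP1.exists_set
  set A := Polynomial.aeval δ P with hA
  have hAm : ∀ x y, A (x * y) = A x * y + x * A y := hP1.leib hδm
  -- the linear part
  obtain ⟨l', hl'⟩ := exists_lift (k := k) (lin : MvPolynomial (Fin n) K →ₗ[K] (Fin n → K))
    (fun F hF => by
      funext s
      rw [lin_apply, Pi.zero_apply]
      exact mem_one_iff.1 (pderiv_mem (k := 1) (wI_mono hk hF) s))
  have hl1 : ∀ x, l' (δ x) = lT D (l' x) := by
    intro x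
    obtain ⟨F, rfl⟩ := qa_surj x
    rw [hδ, hl', hl', lin_vf hD]
  refine ⟨A, Polynomial.aeval (lT D) P, R, hAm, fun r F hF => ?_, fun F G h => ?_,
    fun m F G h => ?_, ?_, hR⟩
  · refine hP1.apply r _ ?_
    rw [hδ, ← map_smul, smul_eq_C_mul]
    exact qa_eq.2 hF
  · rw [← hl', ← hl' F, ← h]
    exact aeval_comm l' δ (lT D) hl1 P _
  · obtain ⟨c', hc'⟩ := exists_lift (k := k) ((qa k).toLinearMap.comp
      (weightedHomogeneousComponent w m : MvPolynomial (Fin n) K →ₗ[K] MvPolynomial (Fin n) K))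
      (fun F hF => by
        rw [LinearMap.comp_apply, AlgHom.toLinearMap_apply]
        have h1 : qa k (weightedHomogeneousComponent w m F) = qa k 0 := by
          rw [qa_eq, sub_zero]
          exact cp_mem w m k hF
        rw [h1, map_zero])
    have hc2 : ∀ F, c' (qa k F) = qa k (weightedHomogeneousComponent w m F) := hc'
    have hc1 : ∀ x, c' (δ x) = δ (c' x) := by
      intro x
      obtain ⟨F, rfl⟩ := qa_surj x
      rw [hδ, hc2, hc2, hδ, vf_gr w hDw]
    have h1 := aeval_comm c' δ δ hc1 P (qa k F)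
    rw [← hA, h, hc2, hc2] at h1
    exact h1.symm
  · exact hP2.trace τ (by rw [trace_lT, hτ])

/-- **Graded coordinates of eigenvectors.** -/
theorem exists_coordsw (w : Fin n → ℕ) (hw : ∀ i, 0 < w i) {D : Fin n → MvPolynomial (Fin n) K}
    (hDw : ∀ t, (D t).IsWeightedHomogeneous w (w t)) (hk : 2 ≤ k) (τ : ℚ)
    (hτ : ∑ t, constantCoeff (pderiv t (D t)) = (τ : K)) :
    ∃ (A : Module.End K (Tq K n k)) (y : Fin n → MvPolynomial (Fin n) K) (ρ : Fin n → ℚ),
      (∀ t, (y t).IsWeightedHomogeneous w (w t)) ∧ (jk y).det ≠ 0 ∧ ∑ t, ρ t = τ ∧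
      (∀ F, vf D F = 0 → A (qa k F) = 0) ∧
      ∀ G, A (qa k (aeval y G)) = qa k (aeval y (El (fun t => (ρ t : K)) G)) := by
  classical
  have hD : ∀ t, constantCoeff (D t) = 0 := fun t => wh_cc w (hw t) (hDw t)
  obtain ⟨A, A', R, hAm, hAe, hAl, hAw, hAt, hR⟩ := exists_opw (k := k) w hD hDw hk τ hτ
  have hA1 : A 1 = 0 := by
    have h1 := hAm 1 1
    rw [mul_one, mul_one, one_mul] at h1
    exact left_eq_add.1 h1
  -- the decompositions of the variables
  have hdec : ∀ t : Fin n, ∃ v : ℚ → MvPolynomial (Fin n) K,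
      (∀ r, (v r).IsWeightedHomogeneous w (w t)) ∧
      (∀ r, A (qa k (v r)) = (r : K) • qa k (v r)) ∧
      qa k (X t) = ∑ r ∈ R, qa k (v r) := by
    intro t
    obtain ⟨v, hv, hx⟩ := decomp A R (qa k (X t)) (by rw [hR, LinearMap.zero_apply])
    choose u hu using fun r => qa_surj (v r)
    refine ⟨fun r => weightedHomogeneousComponent w (w t) (u r), fun r =>
      weightedHomogeneousComponent_isWeightedHomogeneous _ _, fun r => ?_, ?_⟩
    · dsimp only
      rw [hAw (w t) (u r) (C (r : K) * u r) (by rw [hu, hv, ← smul_eq_C_mul, map_smul, hu]),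
        ← smul_eq_C_mul, map_smul, map_smul]
    · have h1 : X t - ∑ r ∈ R, u r ∈ wI K 1 k := by
        rw [← qa_eq, map_sum, hx]
        exact (Finset.sum_congr rfl fun r _ => hu r).symm
      have h2 := cp_mem w (w t) k h1
      rw [map_sub, (isWeightedHomogeneous_X K w t).weightedHomogeneousComponent_same, map_sum,
        ← qa_eq, map_sum] at h2
      exact h2
  choose v hvw hv hvs using hdec
  -- the determinant
  have hlin : ∀ t, lin (X t) = ∑ r ∈ R, lin (v t r) := by
    intro t
    have h1 := hvs t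
    rw [← map_sum, qa_eq] at h1
    rw [← map_sum, ← sub_eq_zero, ← map_sub]
    funext s
    rw [lin_apply, Pi.zero_apply]
    exact mem_one_iff.1 (pderiv_mem (k := 1) (wI_mono hk h1) s)
  have hdet : ∃ ρ : Fin n → ℚ, Matrix.det (fun t => lin (v t (ρ t))) ≠ 0 := by
    have h1 : Matrix.det (fun t => ∑ r ∈ R, lin (v t r)) ≠ 0 := by
      have h2 : (fun t => ∑ r ∈ R, lin (v t r)) = (1 : Matrix (Fin n) (Fin n) K) := by
        funext t
        rw [← hlin]
        funext s
        rw [lin_apply, Matrix.one_apply]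
        by_cases hst : t = s
        · rw [if_pos hst, hst, pderiv_X_self, map_one]
        · rw [if_neg hst, pderiv_X_of_ne hst, map_zero]
      rw [h2, Matrix.det_one]
      exact one_ne_zero
    have h3 := (Matrix.detRowAlternating : (Fin n → K) [⋀^Fin n]→ₗ[K] K).toMultilinearMap.map_sum_finset
      (fun t r => lin (v t r)) (fun _ => R)
    have h4 : Matrix.det (fun t => ∑ r ∈ R, lin (v t r)) =
        ∑ ρ ∈ Fintype.piFinset fun _ : Fin n => R, Matrix.det (fun t => lin (v t (ρ t))) := h3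
    rw [h4] at h1
    obtain ⟨ρ, -, hρ⟩ := Finset.exists_ne_zero_of_sum_ne_zero h1
    exact ⟨ρ, hρ⟩
  obtain ⟨ρ, hρ⟩ := hdet
  have hjk : jk (fun t => v t (ρ t)) = fun t => lin (v t (ρ t)) := by
    funext t s
    unfold jk
    rw [Matrix.of_apply, lin_apply]
  have hdety : (jk fun t => v t (ρ t)).det ≠ 0 := by
    rw [hjk]
    exact hρ
  refine ⟨A, fun t => v t (ρ t), ρ, fun t => hvw _ _, hdety, ?_, fun F hF => ?_, fun G => ?_⟩
  · -- the trace
    obtain ⟨Z, hYZ, -⟩ := isUnit_iff_exists.1 ((Matrix.isUnit_iff_isUnit_det _).2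
      (isUnit_iff_ne_zero.2 hdety))
    have h1 := trace_eig A' hYZ (fun t => (ρ t : K)) (fun t => by
      have h2 : jk (fun t => v t (ρ t)) t = lin (v t (ρ t)) := by rw [hjk]
      rw [h2]
      have h3 := hAl (v t (ρ t)) (C (ρ t : K) * v t (ρ t)) (by
        rw [hv, ← smul_eq_C_mul, map_smul])
      rw [← h3, ← smul_eq_C_mul, map_smul])
    rw [hAt] at h1
    have h2 : ((∑ t, ρ t : ℚ) : K) = (τ : K) := by
      rw [h1]
      push_cast
      rfl
    exact_mod_cast h2
  · have h1 := hAe 0 F (by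
      rw [Rat.cast_zero, C_0, zero_mul, hF, sub_zero]
      exact Ideal.zero_mem _)
    rwa [Rat.cast_zero, zero_smul] at h1
  · induction G using MvPolynomial.induction_on with
    | C a =>
      rw [algHom_C, algebraMap_eq, derivation_C, map_zero, map_zero]
      have h2 : qa k (C a : MvPolynomial (Fin n) K) = a • 1 := by
        rw [← algebraMap_eq, AlgHom.commutes, Algebra.algebraMap_eq_smul_one]
      rw [h2, map_smul, hA1, smul_zero]
    | add p q hp hq => simp only [map_add, hp, hq]
    | mul_X p i hp =>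
      have h1 : El (fun t => (ρ t : K)) (X i) = C (ρ i : K) * X i := mkDerivation_X _ _ _
      rw [map_mul, map_mul, hAm, hp, aeval_X, hv, Derivation.leibniz, h1, smul_eq_mul,
        smul_eq_mul, map_add, map_add, map_mul, map_mul, map_mul, map_mul, map_mul, aeval_X,
        algHom_C, algebraMap_eq, map_mul]
      have h2 : qa k (C (ρ i : K) : MvPolynomial (Fin n) K) = (ρ i : K) • 1 := by
        rw [← algebraMap_eq, AlgHom.commutes, Algebra.algebraMap_eq_smul_one]
      rw [h2, smul_one_mul]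
      ring

/-- **The second torus of a weighted homogeneous polynomial.** -/
theorem second_w (w : Fin n → ℕ) (hw : ∀ i, 0 < w i) {D : Fin n → MvPolynomial (Fin n) K}
    (hDw : ∀ t, (D t).IsWeightedHomogeneous w (w t)) (τ : ℚ)
    (hτ : ∑ t, constantCoeff (pderiv t (D t)) = (τ : K)) (f : MvPolynomial (Fin n) K) (d : ℕ)
    (hf : f.IsWeightedHomogeneous w d) (hDf : ∑ t, D t * pderiv t f = 0) :
    ∃ (y c : Fin n → MvPolynomial (Fin n) K) (ρ : Fin n → ℚ),
      (∀ t, (y t).IsWeightedHomogeneous w (w t)) ∧ (∀ t, (c t).IsWeightedHomogeneous w (w t)) ∧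
      (∀ t, aeval y (c t) = X t) ∧ (∀ t, aeval c (y t) = X t) ∧ ∑ t, ρ t = τ ∧
      (aeval c f).IsWeightedHomogeneous w d ∧
      ∀ α ∈ (aeval c f).support, ∑ t, (α t : ℚ) * ρ t = 0 := by
  classical
  obtain ⟨A, y, ρ, hy, hdet, hsum, hA0, hAG⟩ := exists_coordsw (k := d + 2) w hw hDw (by omega) τ hτ
  obtain ⟨c, hc, hyc, hcy⟩ := exists_ginv2 w hw y hy hdet
  have hcf : (aeval c f).IsWeightedHomogeneous w d := aeval_whF w hc hf
  refine ⟨y, c, ρ, hy, hc, hyc, hcy, hsum, hcf, fun α hα => ?_⟩
  have h1 : aeval y (aeval c f) = f := by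
    rw [aeval_aeval]
    have : (fun t => aeval y (c t)) = (X : Fin n → MvPolynomial (Fin n) K) := funext hyc
    rw [this, aeval_X_left, AlgHom.id_apply]
  have h2 := hAG (aeval c f)
  rw [h1, hA0 f hDf] at h2
  have h3 : aeval y (El (fun t => (ρ t : K)) (aeval c f)) ∈ wI K 1 (d + 2) := by
    have h4 : qa (d + 2) (aeval y (El (fun t => (ρ t : K)) (aeval c f))) = qa (d + 2) 0 := by
      rw [← h2, map_zero]
    rw [qa_eq, sub_zero] at h4
    exact h4
  have h4 : (El (fun t => (ρ t : K)) (aeval c f)).IsWeightedHomogeneous w d := by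
    intro β hβ
    rw [coeff_El] at hβ
    exact hcf (right_ne_zero_of_mul hβ)
  have h5 := wh_zero w hw (by omega) (aeval_whF w hy h4) h3
  have h6 : El (fun t => (ρ t : K)) (aeval c f) = 0 := by
    have h7 := congrArg (aeval c) h5
    rw [aeval_aeval, map_zero] at h7
    have : (fun t => aeval c (y t)) = (X : Fin n → MvPolynomial (Fin n) K) := funext hcy
    rw [this, aeval_X_left, AlgHom.id_apply] at h7
    exact h7
  have h7 := coeff_El (fun t => (ρ t : K)) (aeval c f) α
  rw [h6, coeff_zero] at h7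
  have h8 := (mul_eq_zero.1 h7.symm).resolve_right (mem_support_iff.1 hα)
  have h9 : ((∑ t, (α t : ℚ) * ρ t : ℚ) : K) = ((0 : ℚ) : K) := by
    push_cast
    exact h8
  exact_mod_cast h9

end coords

end Pool.Agent.H940.E
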