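import Pool.Agent.H940.E.Cor
import Pool.Agent.H940.W.Main

set_option autoImplicit false
set_option linter.unusedSectionVars false
set_option linter.unusedVariables false

/-! # Weighted homogeneous polynomials with weighted homogeneous slices -/

namespace Pool.Agent.H940.E

open MvPolynomial
open Pool.Agent.H940.R Pool.Agent.H940.S
open Pool.Agent.H940.G (WHG)
open Pool.Agent.H940.LT (LTy)

variable {p : ℕ} [Fact p.Prime] {n : ℕ}

theorem map_slc {K L : Type} [Field K] [Field L] (ψ : K →+* L) (i : Fin (n + 1))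
    (P : Fin (n + 1) → K) (f : MvPolynomial (Fin (n + 1)) K) :
    map ψ (slc i P f) = slc i (fun j => ψ (P j)) (map ψ f) := by
  unfold slc
  rw [aeval_def, aeval_def, algebraMap_eq, algebraMap_eq, map_eval₂]
  congr 1
  funext l
  rw [Function.comp_apply]
  refine Fin.succAboveCases i ?_ (fun t => ?_) l
  · rw [Fin.insertNth_apply_same, Fin.insertNth_apply_same, map_C]
  · rw [Fin.insertNth_apply_succAbove, Fin.insertNth_apply_succAbove, map_add, map_X, map_C]

/-- the hypothesis on the slices, in terms of `WHG` -/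
theorem slice_whg {f : MvPolynomial (Fin (n + 1)) ℂ} (H : SliceWH f) :
    ∀ P : Fin (n + 1) → ℂ, P ≠ 0 → (∀ j, eval P (pderiv j f) = 0) →
      ∃ i, P i ≠ 0 ∧ ∃ (g : MvPolynomial (Fin n) ℂ) (w' : Fin n → ℕ) (N : ℕ)
        (η : Fin n → MvPowerSeries (Fin n) ℂ), WHG (slc i P f) g w' N η := by
  intro P hP hs
  obtain ⟨i, hi, g, w, N, η, h1⟩ := H P hP hs
  have h2 := whk_map (RingHom.id ℂ) h1
  rw [map_id, map_id] at h2
  exact ⟨i, hi, g, w, N, _, h2⟩

/-- there are at least two variables -/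
theorem npos_P {f : MvPolynomial (Fin (n + 1)) ℂ} {w : Fin (n + 1) → ℕ} (hw : ∀ i, 0 < w i)
    {d : ℕ} (hd : ∀ i, w i < d) (hf : f.IsWeightedHomogeneous w d) (hf0 : f ≠ 0)
    {P : Fin (n + 1) → ℂ} (hP : P ≠ 0) (hs : ∀ j, eval P (pderiv j f) = 0) : 0 < n := by
  choose q hq using fun i => IsAlgClosed.exists_pow_nat_eq (P i) (hw i)
  refine Pool.Agent.H940.W.npos hw hd hf hf0 (q := q) ?_ ?_
  · intro h
    apply hP
    funext i
    rw [← hq i, h, Pi.zero_apply, zero_pow (hw i).ne']
  · intro j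
    rw [Pool.Agent.H940.W.eval_pw, ← hs j]
    congr 1
    congr 1
    exact funext hq

/-- **Weighted homogeneous polynomials with weighted homogeneous slices.** -/
theorem grm_qhom (φ : ℚ_[p] →+* ℂ) {f : MvPolynomial (Fin (n + 1)) ℚ_[p]} (hf0 : f ≠ 0)
    {w : Fin (n + 1) → ℕ} (hw : ∀ i, 0 < w i) {d : ℕ} (hd : ∀ i, w i < d)
    (hf : f.IsWeightedHomogeneous w d) (hS : SliceWH (map φ f)) (P : Fin (n + 1) → ℚ_[p]) :
    Grm p φ (n + 1) (trn P f) := by
  have hF0 : map φ f ≠ 0 := fun h => hf0 ((map_eq_zero_iff _ (map_injective _ φ.injective)).1 h)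
  have hFh : (map φ f).IsWeightedHomogeneous w d := by
    intro α hα
    rw [coeff_map] at hα
    exact hf (fun h => hα (by rw [h, map_zero]))
  have hne : ∀ P : Fin (n + 1) → ℚ_[p], P ≠ 0 → eval P f = 0 → Grm p φ (n + 1) (trn P f) := by
    intro P hP h0
    by_cases hs : ∃ i, eval P (pderiv i f) ≠ 0
    · obtain ⟨i, hi⟩ := hs
      exact grm_smooth φ _ (by rw [cc_trn, h0]) i (by rw [pderiv_trn, cc_trn]; exact hi)
    · push Not at hs
      have hφP : (fun j => φ (P j)) ≠ 0 := by
        intro h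
        apply hP
        funext j
        exact (map_eq_zero φ).1 (congrFun h j)
      have hsφ : ∀ j, eval (fun j => φ (P j)) (pderiv j (map φ f)) = 0 := by
        intro j
        rw [pderiv_map, eval_map_phi, hs, map_zero]
      obtain ⟨i, hi, g, w', N, η, hW⟩ := hS _ hφP hsφ
      have hi' : P i ≠ 0 := fun h => hi (by rw [h, map_zero])
      refine grm_slice φ w hw hf i P hi' ?_
      refine Grm.iso (npos_P hw hd hFh hF0 hφP hsφ) _ g w' N η ?_
      rw [map_slc]
      exact hW
  by_cases h0 : eval P f = 0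
  swap
  · exact Grm.unit _ (by rw [cc_trn]; exact h0)
  by_cases hP : P = 0
  · rw [hP, trn_zero]
    refine Grm.cone f hf0 w hw d (lt_of_le_of_lt (Nat.zero_le _) (hd 0)) hf ?_ hne
    exact Or.inl ⟨map φ f, fun i => pderiv i (map φ f), hF0, fun i => rfl,
      Pool.Agent.H940.W.wlty hw hd hFh hF0 (slice_whg hS)⟩
  · exact hne P hP h0

end Pool.Agent.H940.E
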